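import Pool.Agent.KS6_32.CL.Near
import Pool.Agent.KS6_32.BD.StageE

/-! The distances of neighbouring levels are controlled by the border in one class. -/

set_option autoImplicit false

namespace Pool.Agent.KS6_32.CL

open Pool.Agent.H320R2.PD Pool.Agent.H499R2.ND Pool.Agent.H499R2.CO Pool.Agent.W41.FU Finset
open Pool.Agent.Y965.SI Pool.Agent.KS6_32.BD

theorem odd_double {d : ℤ} (hd : Odd d) (hd3 : IsCoprime d 3) (hdd : d * d = 1) (m : ℕ) {δ : ℤ} (hδ : Odd δ) :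
    ∃ C : ℝ, 0 < C ∧ ∀ k : ℕ, 100 ≤ k → ∀ f : ℤ → ℝ, InvF d f → ∀ a b : ℝ, a ≤ b → 5 * (k : ℝ) + 1 ≤ Real.log (b - a) →
      ∀ c : ℤ, |OS f (2 * a) (2 * b) - 2 * OS f a b|
        ≤ C / k * (b - a) + 3 ^ m * (AS (cb f m c δ) (2 * a - δ) (2 * b - δ) + AS (cb f m c δ) (a - δ) (b - δ)
          + 2 * |(δ : ℝ)| + 4) := by
  obtain ⟨C, hC, h⟩ := odd_all hd hd3 hdd m hδ
  refine ⟨2 * C, by positivity, ?_⟩
  intro k hk f hf a b hab hL c
  have hk100 : (100 : ℝ) ≤ k := by exact_mod_cast hk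
  have hℓpos : 0 < b - a := by
    by_contra hcon
    have h1 : b - a = 0 := le_antisymm (not_lt.1 hcon) (by linarith)
    rw [h1, Real.log_zero] at hL
    linarith
  have f2 := f_two hf
  have g1 := h k hk f hf a b hab (by linarith) c
  have g2 := h k hk f hf (a / 2) (b / 2) (by linarith) (by
    have e : b / 2 - a / 2 = (b - a) / 2 := by ring
    rw [e, Real.log_div hℓpos.ne' (by norm_num)]
    have := Real.log_two_lt_d9
    linarith) c
  have e1 : 2 * (a / 2) = a := by ring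
  have e2 : 2 * (b / 2) = b := by ring
  have e3 : b / 2 - a / 2 = (b - a) / 2 := by ring
  rw [e1, e2, e3] at g2
  have g3 := OS_AS f2 a b
  have hCk : 0 ≤ C / k * (b - a) := by positivity
  have e4 : OS f (2 * a) (2 * b) - 2 * OS f a b = (OS f (2 * a) (2 * b) - AS f a b) - (OS f a b - AS f (a / 2) (b / 2)) := by
    rw [g3]; ring
  rw [e4]
  refine (abs_sub _ _).trans ?_
  have e5 : 2 * C / k * (b - a) = C / k * (b - a) + C / k * ((b - a) / 2) + C / k * ((b - a) / 2) := by ring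
  rw [e5]
  have hCk2 : 0 ≤ C / k * ((b - a) / 2) := by positivity
  linarith

theorem av_doubleC {d : ℤ} (hd : Odd d) (hd3 : IsCoprime d 3) (hdd : d * d = 1) (m : ℕ) {δ : ℤ} (hδ : Odd δ) :
    ∃ C : ℝ, 0 < C ∧ ∀ k : ℕ, 100 ≤ k → ∀ f : ℤ → ℝ, InvF d f → ∀ a b : ℝ, a < b → 5 * (k : ℝ) + 1 ≤ Real.log (b - a) →
      ∀ c : ℤ, |av f (2 * a) (2 * b) - av f a b| * (b - a)
        ≤ 1 + C / k * (b - a) + 3 ^ m * (AS (cb f m c δ) (2 * a - δ) (2 * b - δ) + AS (cb f m c δ) (a - δ) (b - δ)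
          + 2 * |(δ : ℝ)| + 4) := by
  obtain ⟨C, hC, h⟩ := odd_double hd hd3 hdd m hδ
  refine ⟨C, hC, ?_⟩
  intro k hk f hf a b hab hL c
  have h3 := h k hk f hf a b hab.le hL c
  have h4 : |av f a b| ≤ 1 := av_abs hf.1 hab.le
  have hpos : 0 < b - a := by linarith
  set ℓ := b - a with hℓ
  have e1 : OS f (2 * a) (2 * b) = av f (2 * a) (2 * b) * (ℓ + 1) := by
    unfold av
    have e : (2 * b - 2 * a) / 2 + 1 = ℓ + 1 := by rw [hℓ]; ring
    rw [e, div_mul_cancel₀ _ (by linarith)]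
  have e2 : OS f a b = av f a b * (ℓ / 2 + 1) := by
    unfold av
    rw [← hℓ, div_mul_cancel₀ _ (by linarith)]
  have e3 : OS f (2 * a) (2 * b) - 2 * OS f a b = (av f (2 * a) (2 * b) - av f a b) * (ℓ + 1) - av f a b := by
    rw [e1, e2]; ring
  rw [e3] at h3
  set x := av f (2 * a) (2 * b) - av f a b with hx
  have h5 : |x * (ℓ + 1)| ≤ |x * (ℓ + 1) - av f a b| + |av f a b| := by
    have := abs_add_le (x * (ℓ + 1) - av f a b) (av f a b)
    rwa [sub_add_cancel] at this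
  rw [abs_mul, abs_of_pos (show 0 < ℓ + 1 by linarith)] at h5
  have h6 : |x| * ℓ ≤ |x| * (ℓ + 1) := mul_le_mul_of_nonneg_left (by linarith) (abs_nonneg _)
  linarith

/-- one level -/
theorem dl_leC {d : ℤ} (hd : Odd d) (hd3 : IsCoprime d 3) (hdd : d * d = 1) (m : ℕ) {δ : ℤ} (hδ : Odd δ) :
    ∃ C c₀ : ℝ, 0 < C ∧ 0 < c₀ ∧ ∀ k : ℕ, 100 ≤ k → ∀ f : ℤ → ℝ, InvF d f → ∀ I : ℕ, 1 ≤ I → ∀ A : ℝ, 2 * |(δ : ℝ)| ≤ A →
      5 * (k : ℝ) + 1 ≤ Real.log (A / I) → ∀ c : ℤ,
      dl f I A ≤ c₀ * (I / A) + C / k + 8 * 3 ^ m * AS (fun n => cb f m c δ n / n) (A / 2) (8 * A) := by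
  obtain ⟨C, hC, hav⟩ := av_doubleC hd hd3 hdd m hδ
  refine ⟨C, 1 + 3 ^ m * (2 * |(δ : ℝ)| + 4), hC, by positivity, ?_⟩
  intro k hk f hf I hI A hδA hL c
  have hk100 : (100 : ℝ) ≤ k := by exact_mod_cast hk
  have hI0 : (0 : ℝ) < I := by exact_mod_cast hI
  have hAI0 : 0 < A / I := by
    by_contra hcon
    push Not at hcon
    have hA0 : 0 ≤ A := le_trans (by positivity) hδA
    have : A / I = 0 := le_antisymm hcon (by positivity)
    rw [this, Real.log_zero] at hL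
    linarith
  have hA0 : 0 < A := by
    by_contra hcon
    push Not at hcon
    have : A / I ≤ 0 := div_nonpos_of_nonpos_of_nonneg hcon hI0.le
    linarith
  set u : ℕ → ℝ := fun i => A * (I + i) / I with hu
  have hcast : ∀ i : ℕ, A * ((I : ℝ) + ((i : ℝ) + 1)) / I = u (i + 1) := by
    intro i; rw [hu]; simp only; push_cast; ring
  have humono : Monotone u := by
    intro i j hij
    have : (i : ℝ) ≤ j := by exact_mod_cast hij
    rw [hu]
    simp only
    apply div_le_div_of_nonneg_right _ hI0.le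
    apply mul_le_mul_of_nonneg_left _ hA0.le
    linarith
  have hu0 : u 0 = A := by
    rw [hu]; simp only; push_cast; field_simp; ring
  have huI : u I = 2 * A := by
    rw [hu]; simp only; field_simp; ring
  set g := cb f m c δ with hg
  have hg0 : ∀ n, 0 ≤ g n := cb_nonneg f m c δ
  have hcell : ∀ i ∈ range I, |ph f I (2 * A) i - ph f I A i| * (A / I)
      ≤ (1 + C / k * (A / I) + 3 ^ m * (2 * |(δ : ℝ)| + 4))
        + 3 ^ m * (AS g (2 * u i - δ) (2 * u (i + 1) - δ) + AS g (u i - δ) (u (i + 1) - δ)) := by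
    intro i _
    have e3 : A * ((I : ℝ) + (i + 1)) / I - A * (I + i) / I = A / I := by ring
    have h3 := hav k hk f hf _ _ (cell_lt hI hA0 i) (by rw [e3]; exact hL) c
    have e1 : 2 * (A * ((I : ℝ) + i) / I) = 2 * A * (I + i) / I := by ring
    have e2 : 2 * (A * ((I : ℝ) + (i + 1)) / I) = 2 * A * (I + (i + 1)) / I := by ring
    rw [e3] at h3
    unfold ph
    rw [← e1, ← e2]
    rw [hcast] at h3 ⊢
    have e4 : A * ((I : ℝ) + i) / I = u i := rfl
    rw [e4] at h3 ⊢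
    refine h3.trans (le_of_eq ?_)
    ring
  have hsum := sum_le_sum hcell
  rw [← sum_mul, sum_add_distrib, sum_const, card_range, nsmul_eq_mul, ← mul_sum, sum_add_distrib] at hsum
  have hc1 := AS_cells g (fun i => 2 * u i - δ) (fun i j hij => by have := humono hij; simp only; linarith) I
  have hc2 := AS_cells g (fun i => u i - δ) (fun i j hij => by have := humono hij; simp only; linarith) I
  simp only [hu0, huI] at hc1 hc2
  rw [hc1, hc2] at hsum
  have hδ' := abs_le.1 (show |(δ : ℝ)| ≤ A / 2 by linarith)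
  have hpt : ∀ x : ℤ, A / 2 ≤ x → (x : ℝ) < 8 * A → g x ≤ 8 * A * (g x / x) := by
    intro x hx1 hx2
    have hx0 : (0 : ℝ) < x := by linarith
    rw [← mul_div_assoc, le_div_iff₀ hx0, mul_comm]
    exact mul_le_mul_of_nonneg_right hx2.le (hg0 x)
  have hq0 : ∀ x : ℤ, A / 2 ≤ x → 0 ≤ g x / x := fun x hx => div_nonneg (hg0 x) (by linarith)
  have h5 : AS g (2 * (2 * A) - δ) (2 * (2 * A) - δ) = 0 := by unfold AS; simp
  -- the two ranges are disjoint parts of `[A / 2, 8 A)`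
  have h6 : AS g (2 * A - δ) (2 * (2 * A) - δ) + AS g (A - δ) (2 * A - δ) ≤ 8 * A * AS (fun n => g n / n) (A / 2) (8 * A) := by
    have e1 : AS g (A - δ) (2 * A - δ) + AS g (2 * A - δ) (2 * (2 * A) - δ) = AS g (A - δ) (2 * (2 * A) - δ) :=
      AS_add g (by linarith) (by linarith)
    have e2 : AS g (A - δ) (2 * (2 * A) - δ) ≤ AS g (A / 2) (8 * A) :=
      AS_mono_set (fun x _ => hg0 x) (by linarith [hδ'.2]) (by linarith [hδ'.1])
    have e3 : AS g (A / 2) (8 * A) ≤ AS (fun n => 8 * A * (g n / n)) (A / 2) (8 * A) := AS_mono hpt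
    rw [AS_const_mul] at e3
    linarith
  set W := AS (fun n => g n / n) (A / 2) (8 * A) with hW
  unfold dl
  set Sd := ∑ i ∈ range I, |ph f I (2 * A) i - ph f I A i| with hSd
  have h7 : Sd * (A / I) ≤ I * (1 + C / k * (A / I) + 3 ^ m * (2 * |(δ : ℝ)| + 4)) + 3 ^ m * (8 * A * W) := by
    have := mul_le_mul_of_nonneg_left h6 (show (0 : ℝ) ≤ 3 ^ m by positivity)
    linarith
  have e : 1 / (I : ℝ) * Sd = (Sd * (A / I)) / A := by field_simp
  rw [e, div_le_iff₀ hA0]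
  refine h7.trans (le_of_eq ?_)
  field_simp
  ring

/-- many levels -/
theorem dl_sumC {d : ℤ} (hd : Odd d) (hd3 : IsCoprime d 3) (hdd : d * d = 1) (m : ℕ) {δ : ℤ} (hδ : Odd δ) :
    ∃ E : ℝ, 0 < E ∧ ∀ k : ℕ, 100 ≤ k → |(δ : ℝ)| ≤ k → ∀ f : ℤ → ℝ, InvF d f → ∀ I : ℕ, 1 ≤ I → ∀ B : ℝ, 0 < B →
      6 * (k : ℝ) ≤ Real.log (B / I) → ∀ c : ℤ,
      ∑ j ∈ range (4 * k), dl f I (B * 2 ^ j)
        ≤ E + 32 * 3 ^ m * AS (fun n => cb f m c δ n / n) (B / 2) (B * 2 ^ (4 * k + 2)) := by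
  obtain ⟨C, c₀, hC, hc₀, h⟩ := dl_leC hd hd3 hdd m hδ
  refine ⟨2 * c₀ + 4 * C, by positivity, ?_⟩
  intro k hk hδk f hf I hI B hB0 hL c
  have hk100 : (100 : ℝ) ≤ k := by exact_mod_cast hk
  have hk0 : (0 : ℝ) < k := by linarith
  have hI1 : (1 : ℝ) ≤ I := by exact_mod_cast hI
  have hI0 : (0 : ℝ) < I := by linarith
  have hBI0 : B / I ≠ 0 := by
    intro h0
    rw [h0, Real.log_zero] at hL
    linarith
  have hBI1 : Real.exp (6 * k) ≤ |B / I| := by
    rw [← Real.le_log_iff_exp_le (abs_pos.2 hBI0), Real.log_abs]; exact hL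
  set g := cb f m c δ with hg
  have hg0 : ∀ n, 0 ≤ g n := cb_nonneg f m c δ
  have hBIpos : 0 < B / I := by positivity
  rw [abs_of_pos hBIpos] at hBI1
  have hIB : (I : ℝ) / B ≤ 1 := by
    rw [div_le_one hB0]
    rw [le_div_iff₀ hI0] at hBI1
    have := Real.add_one_le_exp (6 * (k : ℝ))
    nlinarith
  have hBk : 2 * |(δ : ℝ)| ≤ B := by
    rw [le_div_iff₀ hI0] at hBI1
    have := Real.add_one_le_exp (6 * (k : ℝ))
    nlinarith
  have hpow : ∀ j : ℕ, (1 : ℝ) ≤ 2 ^ j := fun j => one_le_pow₀ (by norm_num)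
  set G : ℤ → ℝ := fun n => g n / n with hG
  have h1 : ∀ j ∈ range (4 * k), dl f I (B * 2 ^ j) ≤ c₀ * (I / B) * (1 / 2 ^ j) + C / k
      + 8 * 3 ^ m * AS G (B * 2 ^ j / 2) (8 * (B * 2 ^ j)) := by
    intro j _
    have h3 := h k hk f hf I hI (B * 2 ^ j) (hBk.trans (le_mul_of_one_le_right hB0.le (hpow j))) (by
      have e : B * 2 ^ j / I = B / I * 2 ^ j := by ring
      rw [e]
      have h4 : Real.log (B / I) ≤ Real.log (B / I * 2 ^ j) :=
        Real.log_le_log hBIpos (le_mul_of_one_le_right hBIpos.le (hpow j))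
      linarith) c
    refine h3.trans (le_of_eq ?_)
    congr 2
    field_simp
  refine (sum_le_sum h1).trans ?_
  rw [sum_add_distrib, sum_add_distrib, ← mul_sum, ← mul_sum, sum_const, card_range, nsmul_eq_mul]
  have h2 := sum_half_pow (4 * k)
  have hGnn : ∀ x : ℤ, B / 2 ≤ x → 0 ≤ G x := fun x hx => div_nonneg (hg0 x) (by linarith)
  -- blocks
  have hblock : ∀ (i J : ℕ), ∑ j ∈ range J, AS G (B / 2 * 2 ^ (j + i)) (B / 2 * 2 ^ (j + i + 1))
      = AS G (B / 2 * 2 ^ i) (B / 2 * 2 ^ (J + i)) := by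
    intro i J
    have := AS_cells G (fun j => B / 2 * 2 ^ (j + i)) (fun a b hab => by
      simp only
      apply mul_le_mul_of_nonneg_left _ (by positivity)
      exact pow_le_pow_right₀ (by norm_num) (by omega)) J
    simp only [zero_add] at this
    rw [← this]
    apply sum_congr rfl
    intro j _
    rw [show j + 1 + i = j + i + 1 by ring]
  have hfour : ∀ j : ℕ, AS G (B * 2 ^ j / 2) (8 * (B * 2 ^ j))
      = ∑ i ∈ range 4, AS G (B / 2 * 2 ^ (j + i)) (B / 2 * 2 ^ (j + i + 1)) := by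
    intro j
    have := AS_cells G (fun i => B / 2 * 2 ^ (j + i)) (fun a b hab => by
      simp only
      apply mul_le_mul_of_nonneg_left _ (by positivity)
      exact pow_le_pow_right₀ (by norm_num) (by omega)) 4
    simp only [add_zero] at this
    have e1 : B * 2 ^ j / 2 = B / 2 * 2 ^ j := by ring
    have e2 : 8 * (B * 2 ^ j) = B / 2 * 2 ^ (j + 4) := by rw [pow_add]; ring
    rw [e1, e2, ← this]
    apply sum_congr rfl
    intro i _
    rw [show j + (i + 1) = j + i + 1 by ring]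
  have h3 : ∑ j ∈ range (4 * k), AS G (B * 2 ^ j / 2) (8 * (B * 2 ^ j)) ≤ 4 * AS G (B / 2) (B * 2 ^ (4 * k + 2)) := by
    rw [sum_congr rfl fun j _ => hfour j, sum_comm]
    have h4 : ∀ i ∈ range 4, ∑ j ∈ range (4 * k), AS G (B / 2 * 2 ^ (j + i)) (B / 2 * 2 ^ (j + i + 1))
        ≤ AS G (B / 2) (B * 2 ^ (4 * k + 2)) := by
      intro i hi
      rw [mem_range] at hi
      rw [hblock]
      apply AS_mono_set hGnn
      · exact le_mul_of_one_le_right (by positivity) (hpow i)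
      · have e : B * 2 ^ (4 * k + 2) = B / 2 * 2 ^ (4 * k + 3) := by
          rw [show 4 * k + 3 = 4 * k + 2 + 1 by ring, pow_succ]; ring
        rw [e]
        apply mul_le_mul_of_nonneg_left _ (by positivity)
        exact pow_le_pow_right₀ (by norm_num) (by omega)
    have := sum_le_sum h4
    rw [sum_const, card_range, nsmul_eq_mul] at this
    push_cast at this
    exact this
  have h4 : c₀ * (I / B) * ∑ i ∈ range (4 * k), (1 : ℝ) / 2 ^ i ≤ c₀ * 1 * 2 := by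
    apply mul_le_mul _ h2 (sum_nonneg fun i _ => by positivity) (by positivity)
    exact mul_le_mul_of_nonneg_left hIB hc₀.le
  have h5 : ((4 * k : ℕ) : ℝ) * (C / k) = 4 * C := by
    push_cast; field_simp
  have h6 := mul_le_mul_of_nonneg_left h3 (show (0 : ℝ) ≤ 8 * 3 ^ m by positivity)
  rw [h5]
  linarith

end Pool.Agent.KS6_32.CL
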