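import Pool.Agent.KS6_32.BD.Main
import Pool.Agent.KS6_32.CL.Iter

/-! The lower bound for every function that controls the distances of the levels. -/

set_option autoImplicit false

namespace Pool.Agent.KS6_32.CL

open Pool.Agent.H320R2.PD Pool.Agent.H499R2.ND Pool.Agent.H499R2.CO Pool.Agent.W41.FU Pool.Agent.W41 Finset
open Pool.Agent.Y965.SI Pool.Agent.KS6_32.BD

/-- THE LOWER BOUND, uniform in the invariant set. -/
theorem lowerC {k₀ : ℕ} {E K : ℝ} (hE : 0 ≤ E) (hK : 0 < K) {s : ℤ} (hs : s = 1 ∨ s = -1) {δ₁ : ℝ} (hδ₁ : 0 < δ₁) :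
    ∃ c : ℝ, 0 < c ∧ ∀ M : ℝ, ∃ M' : ℝ, ∀ S : Set ℤ, Inv 1 S → ∀ D : ℝ, HD s S D → δ₁ ≤ D → D ≤ 1 - δ₁ →
      ∀ g : ℤ → ℝ, Ctl k₀ E K (fun x => ind s S x - D) g → c ≤ UG g (max M 0) M' := by
  rcases le_or_gt δ₁ (1 / 2) with hsmall | hlarge
  swap
  · refine ⟨1, one_pos, fun _ => ⟨0, fun S _ D _ h1 h2 _ _ => ?_⟩⟩
    exfalso; linarith
  have hs1 : Odd s := by rcases hs with rfl | rfl <;> decide
  have hs3 : IsCoprime s 3 := by
    rcases hs with rfl | rfl
    · exact isCoprime_one_left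
    · exact isCoprime_one_left.neg_left
  have hss : s * s = 1 := by rcases hs with rfl | rfl <;> norm_num
  obtain ⟨θ, hθ, hθ1, Le, hLe, hen⟩ := energy hs1 hss (show 0 < δ₁ / 16 by positivity) (by linarith)
  obtain ⟨Y0, hY0⟩ := energy_ind hs hδ₁
  obtain ⟨C, hC, hit⟩ := iterate_up (k₀ := k₀) hE hK.le hs1 hs3 hss
  set R : ℕ := ⌈2400 / θ⌉₊ with hR
  have hR1 : 2400 / θ ≤ R := Nat.le_ceil _
  have hR0 : (0 : ℝ) < R := lt_of_lt_of_le (by positivity) hR1
  set q : ℝ := √ (800 / θ) with hq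
  have hq0 : 0 < q := Real.sqrt_pos.2 (by positivity)
  refine ⟨δ₁ / (32 * (6 * K * q * R)), by positivity, ?_⟩
  intro M
  -- choice of `k`
  obtain ⟨k, hk⟩ := exists_nat_ge (max (max (max (100 : ℝ) k₀) Le) (max (max (Real.log (max Y0 1)) (Real.log (max M 1)))
    ((R * (2 * C) / (δ₁ / 32)) ^ 4)))
  have hk100R : (100 : ℝ) ≤ k := ((le_max_left _ _).trans ((le_max_left _ _).trans (le_max_left _ _))).trans hk
  have hkk₀R : (k₀ : ℝ) ≤ k := ((le_max_right _ _).trans ((le_max_left _ _).trans (le_max_left _ _))).trans hk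
  have hkk₀ : k₀ ≤ k := by exact_mod_cast hkk₀R
  have hkLe : Le ≤ k := ((le_max_right _ _).trans (le_max_left _ _)).trans hk
  have hkY : Real.log (max Y0 1) ≤ k := (((le_max_left _ _).trans (le_max_left _ _)).trans (le_max_right _ _)).trans hk
  have hkM : Real.log (max M 1) ≤ k := (((le_max_right _ _).trans (le_max_left _ _)).trans (le_max_right _ _)).trans hk
  have hkC : (R * (2 * C) / (δ₁ / 32)) ^ 4 ≤ (k : ℝ) := ((le_max_right _ _).trans (le_max_right _ _)).trans hk
  have hk100 : 100 ≤ k := by exact_mod_cast hk100R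
  have hk0 : (0 : ℝ) < k := by linarith
  have hr1 := rt_ge_one (show 1 ≤ k by omega)
  have hr0 : 0 < rt k := by linarith
  have hrC : R * (2 * C) / (δ₁ / 32) ≤ rt k := by
    by_contra hcon
    push Not at hcon
    have h1 : rt k ^ 4 < (R * (2 * C) / (δ₁ / 32)) ^ 4 := pow_lt_pow_left₀ hcon hr0.le (by norm_num)
    rw [rt_pow] at h1
    linarith
  set L : ℝ := 40 * k / θ with hL
  have hθL : θ * L = 40 * k := by rw [hL]; field_simp
  have hLk : 40 * (k : ℝ) ≤ L := by
    rw [hL, le_div_iff₀ hθ]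
    nlinarith
  have hL0 : 0 < L := by linarith
  set X : ℝ := Real.exp (L * (1 - θ / 2)) with hX
  have hX2 : 2 ≤ X := by
    have h1 := Real.add_one_le_exp (L * (1 - θ / 2))
    have h2 : L * (1 - θ / 2) = L - 20 * k := by linarith
    rw [hX]; linarith
  set I : ℕ := ⌊X⌋₊ with hI
  have hI1 : (I : ℝ) ≤ X := Nat.floor_le (by positivity)
  have hI2 : X / 2 ≤ I := by
    have := Nat.lt_floor_add_one X
    rw [hI]; linarith
  have hI1R : (1 : ℝ) ≤ I := by linarith
  have hIN : 1 ≤ I := by exact_mod_cast hI1R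
  have hI0 : (0 : ℝ) < I := by linarith
  have hlogX : Real.log X = L - 20 * k := by
    rw [hX, Real.log_exp]; linarith
  have hlogI1 : Real.log I ≤ L - 20 * k := by
    rw [← hlogX]; exact Real.log_le_log hI0 hI1
  have hlogI2 : L - 20 * k - 1 ≤ Real.log I := by
    have h1 := Real.log_le_log (by positivity) hI2
    rw [Real.log_div (by positivity) (by norm_num), hlogX] at h1
    have := Real.log_two_lt_d9
    linarith
  obtain ⟨A₁, hA₁⟩ := top hs hIN (show 0 < δ₁ / 32 by positivity) (by linarith)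
  -- choice of `J`
  obtain ⟨J, hJ⟩ : ∃ J : ℕ, Real.log (max A₁ 1) ≤ 16 ^ J * L := by
    obtain ⟨J, hJ⟩ := pow_unbounded_of_one_lt (Real.log (max A₁ 1) / L) (show (1 : ℝ) < 16 by norm_num)
    refine ⟨J, ?_⟩
    rw [div_lt_iff₀ hL0] at hJ
    exact hJ.le
  refine ⟨Real.exp (16 ^ (J + 1) * L), ?_⟩
  intro S hS D hD hD1 hD2 g hg
  set f : ℤ → ℝ := fun x => ind s S x - D with hf
  have hfI : InvF s f := by
    refine ⟨fun x => ?_, fun x => ?_⟩
    · have := ind_01 s S x
      rw [hf, abs_le]; constructor <;> simp only <;> linarith [this.1, this.2]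
    · rw [hf]
      simp only
      rw [ind_inv hs hS]
  have hbase : ∀ A : ℝ, 0 < A → L ≤ Real.log A → Real.log A ≤ L + k → δ₁ / 8 ≤ me f I k A := by
    intro A hA h1 h2
    unfold me
    rw [le_div_iff₀ hk0]
    have h3 : ∀ m ∈ range k, δ₁ / 8 ≤ en f I (A * 2 ^ m) := by
      intro m hm
      rw [mem_range] at hm
      have hmR : (m : ℝ) ≤ k := by exact_mod_cast hm.le
      have hm0 : (0 : ℝ) ≤ m := Nat.cast_nonneg m
      set Y := A * 2 ^ m with hY
      have hYpos : 0 < Y := by positivity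
      have l21 := Real.log_two_gt_d9
      have l22 := Real.log_two_lt_d9
      have hlogY : Real.log Y = Real.log A + m * Real.log 2 := by
        rw [hY, Real.log_mul hA.ne' (by positivity), Real.log_pow]
      have hm1 : (m : ℝ) * Real.log 2 ≤ k := by
        calc (m : ℝ) * Real.log 2 ≤ k * 1 := mul_le_mul hmR (by linarith) (by linarith) hk0.le
          _ = k := mul_one _
      have hm2 : 0 ≤ (m : ℝ) * Real.log 2 := by positivity
      have hlogYI : Real.log (Y / I) = Real.log Y - Real.log I := Real.log_div hYpos.ne' hI0.ne'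
      have h4 := hen f hfI Y I hYpos hIN (by rw [hlogYI]; linarith) (by
        rw [hlogYI]
        have h5 : θ * L ≤ θ * Real.log Y := mul_le_mul_of_nonneg_left (by linarith) hθ.le
        linarith)
      have hYY : Y0 ≤ Y := by
        have h5 : Real.log (max Y0 1) ≤ Real.log Y := by linarith
        have h6 := (Real.log_le_log_iff (lt_of_lt_of_le one_pos (le_max_right Y0 1)) hYpos).1 h5
        exact (le_max_left _ _).trans h6
      have h5 := hY0 S hS D hD hD1 hD2 D Y hYY
      have h6 : δ₁ / 4 ≤ 2 / Y * OS (fun x => f x ^ 2) Y (2 * Y) := by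
        have h7 := mul_le_mul_of_nonneg_left h5 (show 0 ≤ 2 / Y by positivity)
        refine le_trans (le_of_eq ?_) h7
        field_simp
      have h7 : δ₁ / 8 ≤ 1 / (I : ℝ) * ∑ i ∈ range I, av f (Y * (I + i) / I) (Y * (I + (i + 1)) / I) ^ 2 := by linarith
      exact h7
    have h4 := sum_le_sum h3
    rw [sum_const, card_range, nsmul_eq_mul] at h4
    linarith
  have hmain := hit k hk100 hkk₀ f g hfI hg I hIN L (by linarith) (by linarith) (δ₁ / 8) hbase R (by
    have h1 := mul_le_mul_of_nonneg_left hR1 (show (0 : ℝ) ≤ 0.27 * k by positivity)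
    refine le_trans ?_ h1
    rw [hL]
    have e : 0.27 * (k : ℝ) * (2400 / θ) = 648 * (k / θ) := by ring
    have e2 : 16 * (40 * (k : ℝ) / θ) = 640 * (k / θ) := by ring
    rw [e, e2]
    have : 0 < (k : ℝ) / θ := by positivity
    linarith) J (Real.exp (16 ^ J * L)) (Real.exp_pos _) (by rw [Real.log_exp]) (by
      rw [Real.log_exp]
      apply mul_le_mul_of_nonneg_left _ (by positivity)
      linarith)
  have hratio : 20 * L / k = 800 / θ := by rw [hL]; field_simp; ring
  rw [hratio, ← hq] at hmain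
  -- the top
  have htop : me f I (16 ^ J * k) (Real.exp (16 ^ J * L)) ≤ δ₁ / 32 := by
    unfold me
    have hpos : (0 : ℝ) < ((16 ^ J * k : ℕ) : ℝ) := by
      have : 0 < 16 ^ J * k := Nat.mul_pos (by positivity) (by omega)
      exact_mod_cast this
    rw [div_le_iff₀ hpos]
    have h1 : ∀ m ∈ range (16 ^ J * k), en f I (Real.exp (16 ^ J * L) * 2 ^ m) ≤ δ₁ / 32 := by
      intro m _
      apply hA₁ S hS D hD (by linarith) (by linarith)
      have h2 : max A₁ 1 ≤ Real.exp (16 ^ J * L) := by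
        rwa [← Real.log_le_iff_le_exp (lt_of_lt_of_le one_pos (le_max_right _ _))]
      have h3 : Real.exp (16 ^ J * L) ≤ Real.exp (16 ^ J * L) * 2 ^ m :=
        le_mul_of_one_le_right (Real.exp_pos _).le (one_le_pow₀ (by norm_num))
      exact (le_max_left _ _).trans (h2.trans h3)
    have h2 := sum_le_sum h1
    rw [sum_const, card_range, nsmul_eq_mul] at h2
    linarith
  -- conclusion
  have hUU : UG g (Real.exp (L / 2)) (Real.exp (16 ^ (J + 1) * L)) ≤ UG g (max M 0) (Real.exp (16 ^ (J + 1) * L)) := by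
    apply UG_mono hg.1 (le_max_right _ _) _ le_rfl
    have h1 : max M 1 ≤ Real.exp (L / 2) := by
      rw [← Real.log_le_iff_le_exp (lt_of_lt_of_le one_pos (le_max_right _ _))]
      linarith
    exact max_le ((le_max_left _ _).trans h1) (Real.exp_pos _).le
  have h1 : R * (2 * C / rt k) ≤ δ₁ / 32 := by
    have e : R * (2 * C / rt k) = R * (2 * C) / rt k := by ring
    rw [e, div_le_iff₀ hr0]
    rw [div_le_iff₀ (by positivity)] at hrC
    linarith
  have h2 : δ₁ / 32 ≤ 6 * K * q * R * UG g (Real.exp (L / 2)) (Real.exp (16 ^ (J + 1) * L)) := by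
    have e : R * (2 * C / rt k + 6 * K * q * UG g (Real.exp (L / 2)) (Real.exp (16 ^ (J + 1) * L)))
        = R * (2 * C / rt k) + 6 * K * q * R * UG g (Real.exp (L / 2)) (Real.exp (16 ^ (J + 1) * L)) := by ring
    rw [e] at hmain
    linarith
  refine le_trans ?_ hUU
  rw [div_le_iff₀ (by positivity)]
  linarith

end Pool.Agent.KS6_32.CL
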