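import Pool.Agent.KS6_32.BD.Fin
import Pool.Agent.KS6_32.CL.Main
import Pool.Graph.R_seed8.H319R3.LV.LV3

/-! Both signs of the differences of an invariant set in a class mod `3 ^ m` have a divergent series. -/

set_option autoImplicit false

namespace Pool.Agent.KS6_32.CL

open Finset Filter Topology
open Pool.Agent.H320R2.PD Pool.Agent.H499R2.ND Pool.Agent.H499R2.CO Pool.Agent.W41.FU Pool.Agent.W41
open Pool.Agent.Y965.SI Pool.Agent.KS6_32.BD Pool.Agent.H319R3.LV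

/-- the `n ≥ 1` in the class of `c` with `s n` in `S` and `s (n + δ)` outside -/
def Pd (s : ℤ) (S : Set ℤ) (m : ℕ) (c δ : ℤ) : Set ℕ :=
  {n : ℕ | 1 ≤ n ∧ (3 : ℤ) ^ m ∣ n - c ∧ s * n ∈ S ∧ s * (n + δ) ∉ S}

/-- convergence with the exponent `σ` -/
def Cv (σ : ℝ) (B : Set ℕ) : Prop := Summable (B.indicator fun n : ℕ => 1 / ((n : ℝ) * Real.log n ^ σ))

theorem inv_side {s : ℤ} (hs : s = 1 ∨ s = -1) {S : Set ℤ} (hS : Inv 1 S) : Inv s {x : ℤ | s * x ∈ S} := by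
  intro x
  show s * x ∈ S ↔ s * Td s x ∈ S
  rw [hS (s * x)]
  have e : Td 1 (s * x) = s * Td s x := by
    unfold Td
    rcases hs with rfl | rfl
    · simp
    · by_cases h : x % 2 = 0
      · rw [if_pos h, if_pos (by omega)]; omega
      · rw [if_neg h, if_neg (by omega)]; omega
  rw [e]

open Classical in
theorem half_card {s : ℤ} (hs : s = 1 ∨ s = -1) {S : Set ℤ} (hS : Inv 1 S) (m : ℕ) (c δ : ℤ) :
    ∃ K : ℝ, 0 < K ∧ ∃ j₀ : ℕ, ∀ j : ℕ, j₀ ≤ j →
      (((Ico (2 ^ j) (2 ^ (j + 1))).filter fun n : ℕ => n ∈ Pd s Sᶜ m c δ).card : ℝ)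
        ≤ ((Ico (2 ^ j) (2 ^ (j + 1))).filter fun n : ℕ => n ∈ Pd s S m c δ).card + K * (2 ^ j / (j : ℝ) ^ 2) := by
  have hs1 : Odd s := by rcases hs with rfl | rfl <;> decide
  have hs3 : IsCoprime s 3 := by
    rcases hs with rfl | rfl
    · exact isCoprime_one_left
    · exact isCoprime_one_left.neg_left
  obtain ⟨K, hK, c₀, hc₀, hc₀1, H⟩ := equi_all_lin 2 hs1 hs3
  have l2 := Real.log_two_gt_d9
  have hV := inv_side hs hS
  set V : Set ℤ := {x : ℤ | s * x ∈ S} with hVdef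
  -- `j ^ 2 ≤ C 2 ^ j`
  obtain ⟨j₁, hj₁⟩ : ∃ j₁ : ℕ, ∀ j : ℕ, j₁ ≤ j → (j : ℝ) ^ 2 ≤ 2 ^ j := by
    refine ⟨4, fun j hj => ?_⟩
    have : j ^ 2 ≤ 2 ^ j := by
      induction j, hj using Nat.le_induction with
      | base => norm_num
      | succ n hn ih =>
        have h1 : (n + 1) ^ 2 ≤ 2 * n ^ 2 := by nlinarith
        calc (n + 1) ^ 2 ≤ 2 * n ^ 2 := h1
          _ ≤ 2 * 2 ^ n := by omega
          _ = 2 ^ (n + 1) := by ring
    exact_mod_cast this
  refine ⟨4 * K + 2 * |(δ : ℝ)| + 1, by positivity, max (max j₁ 4000) ⌈2 * (m : ℝ) / c₀⌉₊, ?_⟩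
  intro j hj
  have hja : j₁ ≤ j := ((le_max_left _ _).trans (le_max_left _ _)).trans hj
  have hjb : 4000 ≤ j := ((le_max_right _ _).trans (le_max_left _ _)).trans hj
  have hjc : 2 * (m : ℝ) / c₀ ≤ j := (Nat.le_ceil _).trans (by exact_mod_cast (le_max_right _ _).trans hj)
  rw [div_le_iff₀ hc₀] at hjc
  have hjbR : (4000 : ℝ) ≤ j := by exact_mod_cast hjb
  have hj0 : (0 : ℝ) < j := by linarith
  have hlog : Real.log ((2 : ℝ) ^ j) = j * Real.log 2 := by rw [Real.log_pow]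
  have hlog1 : (j : ℝ) / 2 ≤ Real.log ((2 : ℝ) ^ j) := by rw [hlog]; nlinarith
  have hH := H V hV ((2 : ℝ) ^ j) (by positivity) (by linarith) m (by
    have := mul_le_mul_of_nonneg_left hlog1 hc₀.le
    linarith) (c + δ) c
  set Bk : Finset ℕ := Ico (2 ^ j) (2 ^ (j + 1)) with hBk
  set X1 := Bk.filter fun n : ℕ => (3 : ℤ) ^ m ∣ n - c ∧ (n : ℤ) + δ ∈ V with hX1
  set X2 := Bk.filter fun n : ℕ => (3 : ℤ) ^ m ∣ n - c ∧ (n : ℤ) ∈ V with hX2
  have hpos : ∀ n ∈ Bk, 1 ≤ n := by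
    intro n hn
    rw [hBk, mem_Ico] at hn
    exact (Nat.one_le_two_pow).trans hn.1
  have e1 : X1.card = (X1.filter fun n : ℕ => (n : ℤ) ∈ V).card + (X1.filter fun n : ℕ => ¬ (n : ℤ) ∈ V).card :=
    (card_filter_add_card_filter_not _).symm
  have e2 : X2.card = (X2.filter fun n : ℕ => (n : ℤ) + δ ∈ V).card + (X2.filter fun n : ℕ => ¬ (n : ℤ) + δ ∈ V).card :=
    (card_filter_add_card_filter_not _).symm
  have e3 : (X1.filter fun n : ℕ => (n : ℤ) ∈ V) = (X2.filter fun n : ℕ => (n : ℤ) + δ ∈ V) := by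
    ext n
    simp only [hX1, hX2, mem_filter]
    tauto
  have e4 : (X1.filter fun n : ℕ => ¬ (n : ℤ) ∈ V) = Bk.filter fun n : ℕ => n ∈ Pd s Sᶜ m c δ := by
    ext n
    simp only [hX1, mem_filter]
    constructor
    · rintro ⟨⟨h1, h2, h3⟩, h4⟩
      exact ⟨h1, hpos n h1, h2, h4, fun h => h h3⟩
    · rintro ⟨h1, -, h2, h3, h4⟩
      refine ⟨⟨h1, h2, ?_⟩, h3⟩
      by_contra hcon
      exact h4 hcon
  have e5 : (X2.filter fun n : ℕ => ¬ (n : ℤ) + δ ∈ V) = Bk.filter fun n : ℕ => n ∈ Pd s S m c δ := by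
    ext n
    simp only [hX2, mem_filter]
    constructor
    · rintro ⟨⟨h1, h2, h3⟩, h4⟩
      exact ⟨h1, hpos n h1, h2, h3, h4⟩
    · rintro ⟨h1, -, h2, h3, h4⟩
      exact ⟨⟨h1, h2, h3⟩, h4⟩
  rw [e3, e4] at e1
  rw [e5] at e2
  -- the first count
  have h1 : X1.card ≤ (wc V ((2 : ℝ) ^ j) (2 * (2 : ℝ) ^ j) (3 ^ m) (c + δ)).card + 2 * δ.natAbs := by
    have hinj : Function.Injective fun n : ℕ => (n : ℤ) + δ := by
      intro a b hab
      simp only at hab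
      omega
    rw [← card_image_of_injective X1 hinj]
    have hsub : (X1.image fun n : ℕ => (n : ℤ) + δ) ⊆ wc V ((2 : ℝ) ^ j) (2 * (2 : ℝ) ^ j) (3 ^ m) (c + δ)
        ∪ (Ico ((2 : ℤ) ^ j - δ.natAbs) (2 ^ j) ∪ Ico ((2 : ℤ) ^ (j + 1)) (2 ^ (j + 1) + δ.natAbs)) := by
      intro x hx
      rw [mem_image] at hx
      obtain ⟨n, hn, rfl⟩ := hx
      rw [hX1, mem_filter, hBk, mem_Ico] at hn
      obtain ⟨⟨h1, h2⟩, h3, h4⟩ := hn
      have h1' : (2 : ℤ) ^ j ≤ n := by exact_mod_cast h1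
      have h2' : (n : ℤ) < 2 ^ (j + 1) := by exact_mod_cast h2
      rw [mem_union, mem_union, mem_wc, mem_Ico, mem_Ico]
      by_cases h5 : (2 : ℤ) ^ j ≤ n + δ
      · by_cases h6 : (n : ℤ) + δ < 2 ^ (j + 1)
        · left
          refine ⟨⟨by exact_mod_cast h5, ?_⟩, h4, ?_⟩
          · have : ((n : ℤ) + δ : ℤ) < 2 * 2 ^ j := by rw [pow_succ] at h6; linarith
            exact_mod_cast this
          · rwa [show (n : ℤ) + δ - (c + δ) = n - c by ring]
        · right; right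
          constructor <;> omega
      · right; left
        constructor <;> omega
    refine (card_le_card hsub).trans ((card_union_le _ _).trans ?_)
    apply Nat.add_le_add_left
    refine (card_union_le _ _).trans ?_
    rw [Int.card_Ico, Int.card_Ico]
    omega
  have h2 : (wc V ((2 : ℝ) ^ j) (2 * (2 : ℝ) ^ j) (3 ^ m) c).card ≤ X2.card := by
    apply card_le_card_of_injOn (fun x => x.toNat)
    · intro x hx
      rw [mem_coe, mem_wc] at hx
      obtain ⟨⟨h1, h2⟩, h3, h4⟩ := hx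
      have h1' : (2 : ℤ) ^ j ≤ x := by exact_mod_cast h1
      have h2' : x < 2 * 2 ^ j := by exact_mod_cast h2
      have hx0 : 0 < x := lt_of_lt_of_le (by positivity) h1'
      have e : ((x.toNat : ℕ) : ℤ) = x := by omega
      rw [mem_coe, hX2, mem_filter, hBk, mem_Ico, e]
      refine ⟨⟨?_, ?_⟩, h4, h3⟩
      · have : ((2 ^ j : ℕ) : ℤ) ≤ (x.toNat : ℤ) := by rw [e]; push_cast; exact h1'
        exact_mod_cast this
      · have : (x.toNat : ℤ) < ((2 ^ (j + 1) : ℕ) : ℤ) := by rw [e]; push_cast; rw [pow_succ]; linarith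
        exact_mod_cast this
    · intro x hx y hy hxy
      rw [mem_coe, mem_wc] at hx hy
      have h1' : (2 : ℤ) ^ j ≤ x := by exact_mod_cast hx.1.1
      have h2' : (2 : ℤ) ^ j ≤ y := by exact_mod_cast hy.1.1
      have : (0 : ℤ) < 2 ^ j := by positivity
      simp only at hxy
      omega
  have h3 : K / Real.log ((2 : ℝ) ^ j) ^ 2 * ((2 : ℝ) ^ j / 3 ^ m) ≤ 4 * K * (2 ^ j / (j : ℝ) ^ 2) := by
    have h4 : K / Real.log ((2 : ℝ) ^ j) ^ 2 ≤ K / ((j : ℝ) / 2) ^ 2 :=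
      div_le_div_of_nonneg_left hK.le (by positivity) (pow_le_pow_left₀ (by positivity) hlog1 2)
    have h5 : (2 : ℝ) ^ j / 3 ^ m ≤ 2 ^ j := div_le_self (by positivity) (one_le_pow₀ (by norm_num))
    calc K / Real.log ((2 : ℝ) ^ j) ^ 2 * ((2 : ℝ) ^ j / 3 ^ m) ≤ K / ((j : ℝ) / 2) ^ 2 * 2 ^ j :=
          mul_le_mul h4 h5 (by positivity) (by positivity)
      _ = 4 * K * (2 ^ j / (j : ℝ) ^ 2) := by field_simp; ring
  have h4 : (2 * δ.natAbs : ℝ) ≤ 2 * |(δ : ℝ)| * (2 ^ j / (j : ℝ) ^ 2) := by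
    have e : (δ.natAbs : ℝ) = |(δ : ℝ)| := by
      rw [← Int.cast_abs, Int.abs_eq_natAbs]; simp
    rw [e]
    have h5 : 1 ≤ (2 : ℝ) ^ j / (j : ℝ) ^ 2 := by
      rw [one_le_div (by positivity)]
      exact hj₁ j hja
    exact le_mul_of_one_le_right (by positivity) h5
  have h5 : (0 : ℝ) ≤ 2 ^ j / (j : ℝ) ^ 2 := by positivity
  have h1R : (X1.card : ℝ) ≤ (wc V ((2 : ℝ) ^ j) (2 * (2 : ℝ) ^ j) (3 ^ m) (c + δ)).card + 2 * δ.natAbs := by
    exact_mod_cast h1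
  have h2R : ((wc V ((2 : ℝ) ^ j) (2 * (2 : ℝ) ^ j) (3 ^ m) c).card : ℝ) ≤ X2.card := by exact_mod_cast h2
  have e1R : (X1.card : ℝ) = (X2.filter fun n : ℕ => (n : ℤ) + δ ∈ V).card + (Bk.filter fun n : ℕ => n ∈ Pd s Sᶜ m c δ).card := by
    exact_mod_cast e1
  have e2R : (X2.card : ℝ) = (X2.filter fun n : ℕ => (n : ℤ) + δ ∈ V).card + (Bk.filter fun n : ℕ => n ∈ Pd s S m c δ).card := by
    exact_mod_cast e2
  linarith

open Classical in
theorem blk_up (B : Set ℕ) {j : ℕ} (hj : 1 ≤ j) :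
    ∑ n ∈ Ico (2 ^ j) (2 ^ (j + 1)), B.indicator (fun n : ℕ => 1 / ((n : ℝ) * Real.log n ^ ((1 : ℝ) / 2))) n
      ≤ (((Ico (2 ^ j) (2 ^ (j + 1))).filter fun n : ℕ => n ∈ B).card : ℝ) * (1 / (2 ^ j * √ (j * Real.log 2))) := by
  have hj0 : (0 : ℝ) < j := by exact_mod_cast hj
  have l2 := Real.log_two_gt_d9
  have hlog0 : 0 < (j : ℝ) * Real.log 2 := by positivity
  have h1 : ∀ n ∈ Ico (2 ^ j) (2 ^ (j + 1)), B.indicator (fun n : ℕ => 1 / ((n : ℝ) * Real.log n ^ ((1 : ℝ) / 2))) n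
      ≤ if n ∈ B then 1 / (2 ^ j * √ (j * Real.log 2)) else 0 := by
    intro n hn
    rw [mem_Ico] at hn
    by_cases hB : n ∈ B
    · rw [Set.indicator_of_mem hB, if_pos hB, ← Real.sqrt_eq_rpow]
      have h2 : (2 : ℝ) ^ j ≤ n := by exact_mod_cast hn.1
      have h3 : (j : ℝ) * Real.log 2 ≤ Real.log n := by
        have := Real.log_le_log (by positivity) h2
        rwa [Real.log_pow] at this
      apply one_div_le_one_div_of_le (by positivity)
      exact mul_le_mul h2 (Real.sqrt_le_sqrt h3) (by positivity) (by positivity)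
    · rw [Set.indicator_of_notMem hB, if_neg hB]
  refine (sum_le_sum h1).trans ?_
  rw [← sum_filter, sum_const, nsmul_eq_mul]

open Classical in
theorem blk_low (B : Set ℕ) {j : ℕ} (hj : 1 ≤ j) :
    (((Ico (2 ^ j) (2 ^ (j + 1))).filter fun n : ℕ => n ∈ B).card : ℝ) * (1 / (4 * (2 ^ j * √ (j * Real.log 2)))) ≤
    ∑ n ∈ Ico (2 ^ j) (2 ^ (j + 1)), B.indicator (fun n : ℕ => 1 / ((n : ℝ) * Real.log n ^ ((1 : ℝ) / 2))) n := by
  have hj0 : (0 : ℝ) < j := by exact_mod_cast hj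
  have hj1 : (1 : ℝ) ≤ j := by exact_mod_cast hj
  have l2 := Real.log_two_gt_d9
  have hlog0 : 0 < (j : ℝ) * Real.log 2 := by positivity
  have h1 : ∀ n ∈ Ico (2 ^ j) (2 ^ (j + 1)), (if n ∈ B then 1 / (4 * (2 ^ j * √ (j * Real.log 2))) else 0)
      ≤ B.indicator (fun n : ℕ => 1 / ((n : ℝ) * Real.log n ^ ((1 : ℝ) / 2))) n := by
    intro n hn
    rw [mem_Ico] at hn
    by_cases hB : n ∈ B
    · rw [Set.indicator_of_mem hB, if_pos hB, ← Real.sqrt_eq_rpow]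
      have h2 : (n : ℝ) ≤ 2 * 2 ^ j := by
        have h : (n : ℝ) ≤ 2 ^ (j + 1) := by exact_mod_cast hn.2.le
        rw [pow_succ] at h; linarith
      have h0 : (2 : ℝ) ^ j ≤ n := by exact_mod_cast hn.1
      have hn0 : (0 : ℝ) < n := lt_of_lt_of_le (by positivity) h0
      have h3 : Real.log n ≤ 4 * (j * Real.log 2) := by
        have := Real.log_le_log hn0 h2
        rw [Real.log_mul (by norm_num) (by positivity), Real.log_pow] at this
        nlinarith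
      have h4 : √ (Real.log n) ≤ 2 * √ (j * Real.log 2) := by
        refine (Real.sqrt_le_sqrt h3).trans ?_
        rw [Real.sqrt_mul (by norm_num), show √ (4 : ℝ) = 2 by
          rw [show (4 : ℝ) = 2 ^ 2 by norm_num, Real.sqrt_sq (by norm_num)]]
      have h5 : 0 < Real.log n := by
        have := Real.log_le_log (by positivity) h0
        rw [Real.log_pow] at this
        linarith
      apply one_div_le_one_div_of_le (by positivity)
      calc (n : ℝ) * √ (Real.log n) ≤ (2 * 2 ^ j) * (2 * √ (j * Real.log 2)) :=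
            mul_le_mul h2 h4 (Real.sqrt_nonneg _) (by positivity)
        _ = 4 * (2 ^ j * √ (j * Real.log 2)) := by ring
    · rw [Set.indicator_of_notMem hB, if_neg hB]
  refine le_trans ?_ (sum_le_sum h1)
  rw [← sum_filter, sum_const, nsmul_eq_mul]

theorem blocks_of_summable {f : ℕ → ℝ} (hf : ∀ n, 0 ≤ f n) (h : Summable f) :
    Summable fun j : ℕ => ∑ n ∈ Ico (2 ^ j) (2 ^ (j + 1)), f n := by
  refine summable_of_sum_range_le (c := ∑' n, f n) (fun j => sum_nonneg fun n _ => hf n) fun J => ?_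
  have key : ∀ J : ℕ, ∑ n ∈ range (2 ^ J), f n
      = f 0 + ∑ j ∈ range J, ∑ n ∈ Ico (2 ^ j) (2 ^ (j + 1)), f n := by
    intro J
    induction J with
    | zero => simp
    | succ J ih =>
      rw [sum_range_succ, ← add_assoc, ← ih, range_eq_Ico, range_eq_Ico,
        sum_Ico_consecutive _ (Nat.zero_le _) (Nat.pow_le_pow_right (by norm_num) (Nat.le_succ J))]
  have h1 := h.sum_le_tsum (range (2 ^ J)) fun n _ => hf n
  rw [key] at h1
  have := hf 0
  linarith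

theorem half_conv {s : ℤ} (hs : s = 1 ∨ s = -1) {S : Set ℤ} (hS : Inv 1 S) (m : ℕ) (c δ : ℤ)
    (h : Cv (1 / 2) (Pd s S m c δ)) : Cv (1 / 2) (Pd s Sᶜ m c δ) := by
  obtain ⟨K, hK, j₀, hcard⟩ := half_card hs hS m c δ
  have hb := blocks_of_summable (wt_nonneg _ _) h
  apply summable_of_blocks (wt_nonneg _ _)
  have hs2 : Summable fun j : ℕ => 2 * K * (1 / (j : ℝ) ^ 2) :=
    (Real.summable_one_div_nat_pow.2 (by norm_num)).mul_left _
  have hs3 := (hb.mul_left 4).add hs2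
  refine hs3.of_norm_bounded_eventually_nat ?_
  filter_upwards [eventually_ge_atTop (max j₀ 1)] with j hj
  have hja : j₀ ≤ j := (le_max_left _ _).trans hj
  have hjb : 1 ≤ j := (le_max_right _ _).trans hj
  have hj1 : (1 : ℝ) ≤ j := by exact_mod_cast hjb
  have l2 := Real.log_two_gt_d9
  rw [Real.norm_of_nonneg (sum_nonneg fun n _ => wt_nonneg _ _ n)]
  have h1 := hcard j hja
  have h2 := blk_up (Pd s Sᶜ m c δ) hjb
  have h3 := blk_low (Pd s S m c δ) hjb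
  have hpos : 0 < (2 : ℝ) ^ j * √ (j * Real.log 2) := by positivity
  set w : ℝ := 1 / (2 ^ j * √ (j * Real.log 2)) with hw
  have hw0 : 0 < w := by positivity
  have e : 1 / (4 * (2 ^ j * √ (j * Real.log 2))) = w / 4 := by rw [hw]; field_simp
  rw [e] at h3
  have h4 := mul_le_mul_of_nonneg_right h1 hw0.le
  have h5 : K * (2 ^ j / (j : ℝ) ^ 2) * w ≤ 2 * K * (1 / (j : ℝ) ^ 2) := by
    have h6 : (1 : ℝ) / 2 ≤ √ (j * Real.log 2) := by
      apply Real.le_sqrt_of_sq_le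
      nlinarith
    have h7 : (2 : ℝ) ^ j * w ≤ 2 := by
      rw [hw, mul_one_div, div_le_iff₀ hpos]
      have : (0 : ℝ) < 2 ^ j := by positivity
      nlinarith
    calc K * (2 ^ j / (j : ℝ) ^ 2) * w = K * (1 / (j : ℝ) ^ 2) * (2 ^ j * w) := by ring
      _ ≤ K * (1 / (j : ℝ) ^ 2) * 2 := mul_le_mul_of_nonneg_left h7 (by positivity)
      _ = 2 * K * (1 / (j : ℝ) ^ 2) := by ring
  linarith

theorem cb_val (s : ℤ) (S : Set ℤ) (m : ℕ) (c δ : ℤ) {n : ℕ} (hn : 1 ≤ n) :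
    cb (ind s S) m c δ n / ((n : ℝ) * √ (Real.log n)) ≤
      (Pd s S m c δ).indicator (fun n : ℕ => 1 / ((n : ℝ) * Real.log n ^ ((1 : ℝ) / 2))) n
      + (Pd s Sᶜ m c δ).indicator (fun n : ℕ => 1 / ((n : ℝ) * Real.log n ^ ((1 : ℝ) / 2))) n := by
  have h1 := wt_nonneg (Pd s S m c δ) (1 / 2) n
  have h2 := wt_nonneg (Pd s Sᶜ m c δ) (1 / 2) n
  unfold cb
  split_ifs with h
  · obtain ⟨-, hc⟩ := h
    unfold ind
    by_cases h3 : s * (n : ℤ) ∈ S <;> by_cases h4 : s * ((n : ℤ) + δ) ∈ S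
    · simp only [h3, h4, if_true, sub_self, abs_zero, zero_div]
      linarith
    · have : n ∈ Pd s S m c δ := ⟨hn, hc, h3, h4⟩
      rw [Set.indicator_of_mem this, ← Real.sqrt_eq_rpow]
      simp only [h3, h4, if_true, if_false, zero_sub, abs_neg, abs_one]
      linarith
    · have : n ∈ Pd s Sᶜ m c δ := ⟨hn, hc, h3, fun h => h h4⟩
      rw [Set.indicator_of_mem (s := Pd s Sᶜ m c δ) this, ← Real.sqrt_eq_rpow]
      simp only [h3, h4, if_true, if_false, sub_zero, abs_one]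
      linarith
    · simp only [h3, h4, if_false, sub_self, abs_zero, zero_div]
      linarith
  · rw [zero_div]; linarith

theorem UG_nat (g : ℤ → ℝ) (M M' : ℕ) : UG g M M' = ∑ n ∈ Ico M M', g n / ((n : ℝ) * √ (Real.log n)) := by
  unfold UG AS
  rw [Int.ceil_natCast, Int.ceil_natCast]
  refine sum_bij' (fun x _ => x.toNat) (fun m _ => (m : ℤ)) ?_ ?_ ?_ ?_ ?_
  · intro x hx; rw [mem_Ico] at hx ⊢; omega
  · intro m hm; rw [mem_Ico] at hm ⊢; omega
  · intro x hx; rw [mem_Ico] at hx; omega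
  · intro m _; simp
  · intro x hx
    rw [mem_Ico] at hx
    have e : ((x.toNat : ℕ) : ℤ) = x := by omega
    have e2 : ((x.toNat : ℕ) : ℝ) = x := by exact_mod_cast e
    rw [e2, e]

/-- BOTH SIGNS. -/
theorem Pd_div {s : ℤ} (hs : s = 1 ∨ s = -1) {S : Set ℤ} (hS : Inv 1 S) (h1 : ∃ x ∈ S, 0 < s * x)
    (h2 : ∃ x ∉ S, 0 < s * x) (m : ℕ) (c : ℤ) {δ : ℤ} (hδ : Odd δ) : ¬ Cv (1 / 2) (Pd s S m c δ) := by
  intro hsum
  have hsum2 := half_conv hs hS m c δ hsum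
  have hs1 : Odd s := by rcases hs with rfl | rfl <;> decide
  have hs3 : IsCoprime s 3 := by
    rcases hs with rfl | rfl
    · exact isCoprime_one_left
    · exact isCoprime_one_left.neg_left
  have hss : s * s = 1 := by rcases hs with rfl | rfl <;> norm_num
  obtain ⟨D, -, -, hD⟩ := dens_side (d := 1) odd_one (by norm_num) hs hS
  obtain ⟨x, hx, hx0⟩ := h1
  obtain ⟨y, hy, hy0⟩ := h2
  have hD0 := one_pos hs hS hx hx0 hD
  have hD1 := one_lt hs hS hy hy0 hD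
  obtain ⟨E, hE, hdl⟩ := dl_sumC hs1 hs3 hss m hδ
  obtain ⟨c₁, hc₁, H⟩ := lowerC (k₀ := ⌈|(δ : ℝ)|⌉₊) hE.le (show (0 : ℝ) < 32 * 3 ^ m by positivity) hs
    (show 0 < min D (1 - D) from lt_min hD0 (by linarith))
  have hall := hsum.add hsum2
  rw [summable_iff_vanishing_norm] at hall
  obtain ⟨F, hF⟩ := hall c₁ hc₁
  obtain ⟨M, hM⟩ : ∃ M : ℕ, ∀ n ∈ F, n < M := ⟨F.sup id + 1, fun n hn => by
    have := le_sup (f := id) hn
    simp only [id] at this
    omega⟩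
  obtain ⟨M', hM'⟩ := H ((max M 1 : ℕ) : ℝ)
  have h3 := hM' S hS D hD (min_le_left _ _) (by linarith [min_le_right D (1 - D)]) (cb (ind s S) m c δ) (by
    refine ⟨cb_nonneg _ _ _ _, ?_⟩
    intro k hk hk0 I hI B hB hL
    have hfI : InvF s (fun x => ind s S x - D) := by
      have hD0' : 0 ≤ D := hD0.le
      have hD1' : D ≤ 1 := by linarith
      refine ⟨fun x => ?_, fun x => ?_⟩
      · have := ind_01 s S x
        rw [abs_le]; constructor <;> linarith [this.1, this.2]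
      · simp only
        rw [ind_inv hs hS]
    have h4 := hdl k hk ((Nat.le_ceil _).trans (by exact_mod_cast hk0)) _ hfI I hI B hB hL c
    refine h4.trans (le_of_eq ?_)
    have e : cb (fun x => ind s S x - D) m c δ = cb (ind s S) m c δ := by
      ext n
      unfold cb
      simp only [sub_sub_sub_cancel_right]
    rw [e])
  have hmax : max ((max M 1 : ℕ) : ℝ) 0 = ((max M 1 : ℕ) : ℝ) := max_eq_left (Nat.cast_nonneg _)
  rw [hmax] at h3
  have h4 : UG (cb (ind s S) m c δ) ((max M 1 : ℕ) : ℝ) M' ≤ UG (cb (ind s S) m c δ) ((max M 1 : ℕ) : ℝ) (⌈M'⌉₊ : ℝ) :=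
    UG_mono (cb_nonneg _ _ _ _) (Nat.cast_nonneg _) le_rfl (Nat.le_ceil _)
  rw [UG_nat] at h4
  have h5 := hF (Ico (max M 1) ⌈M'⌉₊) (by
    rw [Finset.disjoint_left]
    intro n hn hn'
    rw [mem_Ico] at hn
    have := hM n hn'
    omega)
  rw [Real.norm_eq_abs] at h5
  have h6 := le_abs_self (∑ b ∈ Ico (max M 1) ⌈M'⌉₊,
    ((Pd s S m c δ).indicator (fun n : ℕ => 1 / ((n : ℝ) * Real.log n ^ ((1 : ℝ) / 2))) b
      + (Pd s Sᶜ m c δ).indicator (fun n : ℕ => 1 / ((n : ℝ) * Real.log n ^ ((1 : ℝ) / 2))) b))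
  have h7 : ∑ n ∈ Ico (max M 1) ⌈M'⌉₊, cb (ind s S) m c δ n / ((n : ℝ) * √ (Real.log n)) ≤
      ∑ b ∈ Ico (max M 1) ⌈M'⌉₊,
    ((Pd s S m c δ).indicator (fun n : ℕ => 1 / ((n : ℝ) * Real.log n ^ ((1 : ℝ) / 2))) b
      + (Pd s Sᶜ m c δ).indicator (fun n : ℕ => 1 / ((n : ℝ) * Real.log n ^ ((1 : ℝ) / 2))) b) := by
    apply sum_le_sum
    intro n hn
    rw [mem_Ico] at hn
    exact cb_val s S m c δ ((le_max_right _ _).trans hn.1)
  linarith

end Pool.Agent.KS6_32.CL
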