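import Pool.Agent.KS6_32.CL.Iso

/-! The number of patterns of invariant sets: combinatorics. -/

set_option autoImplicit false

namespace Pool.Agent.KS6_32.CL

open Finset
open Pool.Agent.H499R2.ND (Td)

/-! ### The number of odd terms -/

theorem od_per (t : ℕ) : ∀ x j : ℤ, od t (x + 2 ^ t * j) = od t x := by
  induction t with
  | zero => intro x j; rfl
  | succ t ih =>
    intro x j
    by_cases h : x % 2 = 0
    · have h2 : (x + 2 ^ (t + 1) * j) % 2 = 0 := by
        rw [pow_succ, show x + 2 ^ t * 2 * j = x + 2 * (2 ^ t * j) by ring, Int.add_mul_emod_self_left]; exact h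
      have e : Td 1 (x + 2 ^ (t + 1) * j) = Td 1 x + 2 ^ t * j := by
        apply Td_ev
        have : Td 1 x = x / 2 := by unfold Td; rw [if_pos h]
        rw [this, pow_succ]
        have h2 : x = 2 * (x / 2) := by omega
        linear_combination h2
      simp only [od, h, h2, if_true, e, ih]
    · have h2 : ¬ (x + 2 ^ (t + 1) * j) % 2 = 0 := by
        rw [pow_succ, show x + 2 ^ t * 2 * j = x + 2 * (2 ^ t * j) by ring, Int.add_mul_emod_self_left]; exact h
      have h3 : x = 2 * (x / 2) + 1 := by omega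
      have e : Td 1 (x + 2 ^ (t + 1) * j) = Td 1 x + 2 ^ t * (3 * j) := by
        have e1 : Td 1 x = 3 * (x / 2) + 2 := Td_od h3
        rw [Td_od (y := x / 2 + 2 ^ t * j) (by rw [pow_succ]; linear_combination h3), e1]
        ring
      simp only [od, h, h2, if_false, e, ih]

theorem od_last (t : ℕ) : ∀ x : ℤ, od (t + 1) x = od t x + (if (Td 1)^[t] x % 2 = 0 then 0 else 1) := by
  induction t with
  | zero => intro x; simp [od]
  | succ t ih =>
    intro x
    have h := ih (Td 1 x)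
    rw [Function.iterate_succ_apply]
    calc od (t + 1 + 1) x = (if x % 2 = 0 then 0 else 1) + od (t + 1) (Td 1 x) := rfl
      _ = (if x % 2 = 0 then 0 else 1) + (od t (Td 1 x) + (if (Td 1)^[t] (Td 1 x) % 2 = 0 then 0 else 1)) := by rw [h]
      _ = od (t + 1) x + (if (Td 1)^[t] (Td 1 x) % 2 = 0 then 0 else 1) := by
          rw [← add_assoc]; rfl

theorem range_T (t : ℕ) : ∀ r : ℤ, 0 ≤ r → r < 2 ^ t → 0 ≤ (Td 1)^[t] r ∧ (Td 1)^[t] r < 3 ^ od t r := by
  induction t with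
  | zero => intro r h0 h1; simp [od] at *; omega
  | succ t ih =>
    intro r h0 h1
    have h2t : (0 : ℤ) < 2 ^ t := by positivity
    obtain ⟨r', ε, hr, hr0, hr1, hε⟩ : ∃ r' ε : ℤ, r = r' + 2 ^ t * ε ∧ 0 ≤ r' ∧ r' < 2 ^ t ∧ (ε = 0 ∨ ε = 1) := by
      rw [pow_succ] at h1
      by_cases h : r < 2 ^ t
      · exact ⟨r, 0, by ring, h0, h, Or.inl rfl⟩
      · exact ⟨r - 2 ^ t, 1, by ring, by linarith, by linarith, Or.inr rfl⟩
    obtain ⟨g1, g2⟩ := ih r' hr0 hr1
    have hv : (Td 1)^[t] r = (Td 1)^[t] r' + 3 ^ od t r' * ε := by rw [hr, Td_aff]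
    have ho : od t r = od t r' := by rw [hr, od_per]
    have h3 : (0 : ℤ) < 3 ^ od t r' := by positivity
    rw [od_last, Function.iterate_succ_apply', ho]
    set v := (Td 1)^[t] r with hvdef
    have hv0 : 0 ≤ v := by rcases hε with h | h <;> rw [hv, h] <;> linarith
    have hv1 : v < 2 * 3 ^ od t r' := by rcases hε with h | h <;> rw [hv, h] <;> linarith
    unfold Td
    by_cases h : v % 2 = 0
    · rw [if_pos h, if_pos h, add_zero]
      constructor <;> omega
    · rw [if_neg h, if_neg h, pow_succ]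
      constructor <;> omega

/-- the moments of the number of odd terms -/
theorem od_mom (x : ℝ) (t : ℕ) : ∑ r ∈ range (2 ^ t), x ^ od t (r : ℤ) = (1 + x) ^ t := by
  induction t with
  | zero => simp [od]
  | succ t ih =>
    rw [pow_succ, mul_two, sum_range_add, ← sum_add_distrib, pow_succ, ← ih, sum_mul]
    apply sum_congr rfl
    intro r _
    have e : (((2 ^ t + r : ℕ)) : ℤ) = (r : ℤ) + 2 ^ t * 1 := by push_cast; ring
    have h3 : (3 : ℤ) ^ od t (r : ℤ) % 2 = 1 := by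
      have : Odd ((3 : ℤ) ^ od t (r : ℤ)) := Odd.pow (by decide)
      exact Int.odd_iff.1 this
    rw [e, od_last, od_last, Td_aff, od_per, mul_one]
    by_cases h : (Td 1)^[t] (r : ℤ) % 2 = 0
    · rw [if_pos h, if_neg (by omega)]
      rw [add_zero, pow_succ]; ring
    · rw [if_neg h, if_pos (by omega)]
      rw [add_zero, pow_succ]; ring

/-! ### Words -/

/-- invariant colourings -/
def Fv : Set (ℤ → Bool) := {f | ∀ x, f (Td 1 x) = f x}

theorem Fv_iter {f : ℤ → Bool} (hf : f ∈ Fv) (t : ℕ) : ∀ x, f ((Td 1)^[t] x) = f x := by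
  induction t with
  | zero => intro x; rfl
  | succ t ih => intro x; rw [Function.iterate_succ_apply, ih, hf]

open Classical in
/-- the words of length `m` -/
noncomputable def Lg (m : ℕ) : Finset (Fin m → Bool) := univ.filter fun w => ∃ f ∈ Fv, ∃ x : ℤ, ∀ i : Fin m, w i = f (x + (i : ℕ))

open Classical in
/-- the words of length `2 ^ t` on the aligned windows -/
noncomputable def Al (t : ℕ) : Finset (Fin (2 ^ t) → Bool) :=
  univ.filter fun w => ∃ f ∈ Fv, ∃ x : ℤ, ∀ i : Fin (2 ^ t), w i = f (2 ^ t * x + (i : ℕ))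

theorem mem_Lg {m : ℕ} {w : Fin m → Bool} : w ∈ Lg m ↔ ∃ f ∈ Fv, ∃ x : ℤ, ∀ i : Fin m, w i = f (x + (i : ℕ)) := by
  classical
  unfold Lg; rw [mem_filter]; simp only [mem_univ, true_and]

theorem mem_Al {t : ℕ} {w : Fin (2 ^ t) → Bool} : w ∈ Al t ↔ ∃ f ∈ Fv, ∃ x : ℤ, ∀ i : Fin (2 ^ t), w i = f (2 ^ t * x + (i : ℕ)) := by
  classical
  unfold Al; rw [mem_filter]; simp only [mem_univ, true_and]

theorem Lg_pos (m : ℕ) : 1 ≤ (Lg m).card := by
  apply Nat.one_le_iff_ne_zero.2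
  apply card_ne_zero_of_mem (a := fun _ => true)
  rw [mem_Lg]
  exact ⟨fun _ => true, fun _ => rfl, 0, fun _ => rfl⟩

theorem Al_pos (t : ℕ) : 1 ≤ (Al t).card := by
  apply Nat.one_le_iff_ne_zero.2
  apply card_ne_zero_of_mem (a := fun _ => true)
  rw [mem_Al]
  exact ⟨fun _ => true, fun _ => rfl, 0, fun _ => rfl⟩

theorem Lg_mono {m m' : ℕ} (h : m ≤ m') : (Lg m).card ≤ (Lg m').card := by
  classical
  have hsub : Lg m ⊆ (Lg m').image fun w : Fin m' → Bool => fun i : Fin m => w (Fin.castLE h i) := by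
    intro w hw
    rw [mem_Lg] at hw
    obtain ⟨f, hf, x, hx⟩ := hw
    rw [mem_image]
    refine ⟨fun i => f (x + (i : ℕ)), mem_Lg.2 ⟨f, hf, x, fun _ => rfl⟩, ?_⟩
    funext i
    rw [hx i]; rfl
  exact (card_le_card hsub).trans card_image_le

/-- general windows from aligned windows -/
theorem Lg_le (t : ℕ) : (Lg (2 ^ t)).card ≤ 2 ^ t * ((Al t).card * (Al t).card) := by
  classical
  have h2t : (0 : ℤ) < 2 ^ t := by positivity
  have hpos : 0 < 2 ^ t := by positivity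
  set Φ : Fin (2 ^ t) × (Fin (2 ^ t) → Bool) × (Fin (2 ^ t) → Bool) → (Fin (2 ^ t) → Bool) := fun p i =>
    if h : (p.1 : ℕ) + i < 2 ^ t then p.2.1 ⟨p.1 + i, h⟩ else p.2.2 ⟨(p.1 + i - 2 ^ t) % 2 ^ t, Nat.mod_lt _ hpos⟩ with hΦ
  have hsub : Lg (2 ^ t) ⊆ (univ ×ˢ (Al t ×ˢ Al t)).image Φ := by
    intro w hw
    rw [mem_Lg] at hw
    obtain ⟨f, hf, N, hN⟩ := hw
    have h1 := Int.emod_nonneg N h2t.ne'
    have h2 := Int.emod_lt_of_pos N h2t
    have h3 := Int.emod_add_mul_ediv N (2 ^ t)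
    have hr : (N % 2 ^ t).toNat < 2 ^ t := by
      have : ((N % 2 ^ t).toNat : ℤ) < ((2 ^ t : ℕ) : ℤ) := by push_cast; omega
      exact_mod_cast this
    rw [mem_image]
    refine ⟨(⟨(N % 2 ^ t).toNat, hr⟩, fun i => f (2 ^ t * (N / 2 ^ t) + (i : ℕ)),
      fun i => f (2 ^ t * (N / 2 ^ t + 1) + (i : ℕ))), ?_, ?_⟩
    · rw [mem_product, mem_product]
      exact ⟨mem_univ _, mem_Al.2 ⟨f, hf, _, fun _ => rfl⟩, mem_Al.2 ⟨f, hf, _, fun _ => rfl⟩⟩
    · funext i
      rw [hΦ]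
      simp only
      rw [hN i]
      have hi := i.2
      by_cases h : (N % 2 ^ t).toNat + (i : ℕ) < 2 ^ t
      · rw [dif_pos h]
        congr 1
        push_cast
        rw [Int.toNat_of_nonneg h1]
        linarith
      · rw [dif_neg h]
        congr 1
        have e : ((N % 2 ^ t).toNat + (i : ℕ) - 2 ^ t) % 2 ^ t = (N % 2 ^ t).toNat + (i : ℕ) - 2 ^ t :=
          Nat.mod_eq_of_lt (by omega)
        have e2 : ((((N % 2 ^ t).toNat + (i : ℕ) - 2 ^ t : ℕ)) : ℤ) = N % 2 ^ t + (i : ℕ) - 2 ^ t := by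
          rw [Nat.cast_sub (by omega)]
          push_cast
          rw [Int.toNat_of_nonneg h1]
        rw [e, e2]
        linarith
  refine (card_le_card hsub).trans (card_image_le.trans (le_of_eq ?_))
  rw [card_product, card_product, card_univ, Fintype.card_fin]

/-- the residues with many odd terms -/
noncomputable def Bg (t s : ℕ) : Finset ℕ := (range (2 ^ t)).filter fun r => s < od t (r : ℤ)

/-- aligned windows from windows of the lengths `3 ^ o` -/
theorem Al_le (t s : ℕ) : (Al t).card ≤ (∏ o ∈ range (s + 1), (Lg (3 ^ o)).card) * 2 ^ (Bg t s).card := by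
  classical
  set Φ : (∀ o : Fin (s + 1), (Fin (3 ^ (o : ℕ)) → Bool)) × ({r // r ∈ Bg t s} → Bool) → (Fin (2 ^ t) → Bool) := fun p i =>
    if h : od t ((i : ℕ) : ℤ) ≤ s ∧ ((Td 1)^[t] ((i : ℕ) : ℤ)).toNat < 3 ^ od t ((i : ℕ) : ℤ) then
      p.1 ⟨od t ((i : ℕ) : ℤ), by omega⟩ ⟨((Td 1)^[t] ((i : ℕ) : ℤ)).toNat, h.2⟩
    else if h' : (i : ℕ) ∈ Bg t s then p.2 ⟨i, h'⟩ else true with hΦ
  have hsub : Al t ⊆ ((Fintype.piFinset fun o : Fin (s + 1) => Lg (3 ^ (o : ℕ))) ×ˢ
      (univ : Finset ({r // r ∈ Bg t s} → Bool))).image Φ := by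
    intro w hw
    rw [mem_Al] at hw
    obtain ⟨f, hf, x, hx⟩ := hw
    rw [mem_image]
    refine ⟨(fun o i => f (3 ^ (o : ℕ) * x + (i : ℕ)), fun r => f (2 ^ t * x + (r : ℕ))), ?_, ?_⟩
    · rw [mem_product]
      refine ⟨?_, mem_univ _⟩
      rw [Fintype.mem_piFinset]
      intro o
      exact mem_Lg.2 ⟨f, hf, _, fun _ => rfl⟩
    · funext i
      rw [hΦ]
      simp only
      rw [hx i]
      have hi : ((i : ℕ) : ℤ) < 2 ^ t := by exact_mod_cast i.2
      obtain ⟨g1, g2⟩ := range_T t ((i : ℕ) : ℤ) (by positivity) hi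
      have g3 : ((Td 1)^[t] ((i : ℕ) : ℤ)).toNat < 3 ^ od t ((i : ℕ) : ℤ) := by
        have : (((Td 1)^[t] ((i : ℕ) : ℤ)).toNat : ℤ) < ((3 ^ od t ((i : ℕ) : ℤ) : ℕ) : ℤ) := by push_cast; omega
        exact_mod_cast this
      by_cases h : od t ((i : ℕ) : ℤ) ≤ s
      · rw [dif_pos ⟨h, g3⟩]
        rw [← Fv_iter hf t (2 ^ t * x + (i : ℕ)), add_comm (2 ^ t * x), Td_aff, Int.toNat_of_nonneg g1, add_comm]
      · rw [dif_neg (fun h' => h h'.1)]
        have : (i : ℕ) ∈ Bg t s := by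
          unfold Bg
          rw [mem_filter, mem_range]
          exact ⟨i.2, by omega⟩
        rw [dif_pos this]
  refine (card_le_card hsub).trans (card_image_le.trans (le_of_eq ?_))
  rw [card_product, Fintype.card_piFinset, card_univ]
  congr 1
  · rw [Finset.prod_range]
  · simp

theorem Bg_card {x y : ℝ} (hx : 1 ≤ x) (t s : ℕ) (hs : y ≤ s + 1) : ((Bg t s).card : ℝ) * x ^ y ≤ (1 + x) ^ t := by
  rw [← od_mom x t]
  have hx0 : 0 < x := by linarith
  unfold Bg
  calc (((range (2 ^ t)).filter fun r : ℕ => s < od t (r : ℤ)).card : ℝ) * x ^ y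
      = ∑ r ∈ (range (2 ^ t)).filter (fun r : ℕ => s < od t (r : ℤ)), x ^ y := by rw [sum_const, nsmul_eq_mul]
    _ ≤ ∑ r ∈ (range (2 ^ t)).filter (fun r : ℕ => s < od t (r : ℤ)), x ^ od t (r : ℤ) := by
        apply sum_le_sum
        intro r hr
        rw [mem_filter] at hr
        rw [← Real.rpow_natCast x (od t (r : ℤ))]
        apply Real.rpow_le_rpow_of_exponent_le hx
        have : ((s + 1 : ℕ) : ℝ) ≤ od t (r : ℤ) := by exact_mod_cast hr.2
        push_cast at this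
        linarith
    _ ≤ ∑ r ∈ range (2 ^ t), x ^ od t (r : ℤ) :=
        sum_le_sum_of_subset_of_nonneg (filter_subset _ _) fun r _ _ => by positivity

end Pool.Agent.KS6_32.CL
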