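import Pool.Agent.KS6_32.CL.Cplx

/-! The number of patterns of invariant sets: growth. -/

set_option autoImplicit false

namespace Pool.Agent.KS6_32.CL

open Finset Filter Topology

theorem ev_exp {b : ℝ} (hb : 0 < b) (C : ℝ) : ∃ N : ℕ, ∀ t : ℕ, N ≤ t → C * (t : ℝ) ^ 2 ≤ Real.exp (b * t) := by
  have h := tendsto_exp_mul_div_rpow_atTop 2 b hb
  have h2 := (h.eventually (eventually_ge_atTop C)).and (eventually_gt_atTop 0)
  obtain ⟨N, hN⟩ := eventually_atTop.1 ((tendsto_natCast_atTop_atTop (R := ℝ)).eventually h2)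
  refine ⟨N, fun t ht => ?_⟩
  obtain ⟨h3, h4⟩ := hN t ht
  rw [le_div_iff₀ (by positivity)] at h3
  refine le_trans (le_of_eq ?_) h3
  rw [← Real.rpow_natCast]; norm_num

theorem growth {a : ℕ → ℝ} (ha0 : ∀ t, 0 ≤ a t) {κ γ h : ℝ} (hκ1 : κ < 1) (hγh : h < γ) (hγ : 0 < γ)
    (hrec : ∀ t : ℕ, ∃ T : ℕ, (T : ℝ) ≤ κ * t + 1 ∧ a t ≤ (t + 1) * (T + 2 * a T) + Real.exp (h * t)) :
    ∃ K : ℝ, 0 ≤ K ∧ ∀ t : ℕ, a t ≤ K * Real.exp (γ * t) := by
  obtain ⟨N1, h1⟩ := ev_exp hγ 8
  obtain ⟨N2, h2⟩ := ev_exp (show 0 < γ - h by linarith) 4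
  obtain ⟨N3, h3⟩ := ev_exp (show 0 < γ * (1 - κ) by nlinarith) (8 * Real.exp γ)
  obtain ⟨N4, h4⟩ := exists_nat_gt (1 / (1 - κ))
  set N := N1 + N2 + N3 + N4 + 1 with hN
  have hsum0 : 0 ≤ ∑ t ∈ range N, a t := sum_nonneg fun t _ => ha0 t
  refine ⟨1 + ∑ t ∈ range N, a t, by positivity, ?_⟩
  set K := 1 + ∑ t ∈ range N, a t with hK
  have hK1 : 1 ≤ K := by rw [hK]; linarith
  intro t
  induction t using Nat.strong_induction_on with
  | _ t ih =>
    rcases Nat.lt_or_ge t N with hlt | hge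
    · have h5 : a t ≤ ∑ t ∈ range N, a t := single_le_sum (fun t _ => ha0 t) (mem_range.2 hlt)
      have h6 : 1 ≤ Real.exp (γ * t) := Real.one_le_exp (by positivity)
      calc a t ≤ K := by rw [hK]; linarith
        _ ≤ K * Real.exp (γ * t) := le_mul_of_one_le_right (by linarith) h6
    · obtain ⟨T, hT, ha⟩ := hrec t
      have ht1 : (1 : ℝ) ≤ t := by
        have : 1 ≤ t := by omega
        exact_mod_cast this
      have hTt : T < t := by
        have h5 : (N4 : ℝ) ≤ t := by
          have : N4 ≤ t := by omega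
          exact_mod_cast this
        have h6 : 1 / (1 - κ) < t := lt_of_lt_of_le h4 h5
        rw [div_lt_iff₀ (by linarith)] at h6
        have : (T : ℝ) < t := by linarith
        exact_mod_cast this
      have hT2 := ih T hTt
      have g1 := h1 t (by omega)
      have g2 := h2 t (by omega)
      have g3 := h3 t (by omega)
      have hE : 0 < Real.exp (γ * t) := Real.exp_pos _
      have ht2 : (t : ℝ) ≤ t ^ 2 := by nlinarith
      have e1 : ((t : ℝ) + 1) * t ≤ Real.exp (γ * t) / 4 := by nlinarith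
      have e2 : Real.exp (h * t) ≤ Real.exp (γ * t) / 4 := by
        have e : Real.exp (γ * t) = Real.exp ((γ - h) * t) * Real.exp (h * t) := by rw [← Real.exp_add]; congr 1; ring
        rw [e]
        have h7 : 4 ≤ Real.exp ((γ - h) * t) := by nlinarith
        have h8 := Real.exp_pos (h * t)
        nlinarith
      have e3 : ((t : ℝ) + 1) * (2 * a T) ≤ K * Real.exp (γ * t) / 2 := by
        have h7 : Real.exp (γ * T) ≤ Real.exp (γ * κ * t) * Real.exp γ := by
          rw [← Real.exp_add]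
          apply Real.exp_le_exp.2
          have := mul_le_mul_of_nonneg_left hT hγ.le
          linarith
        have h8 : Real.exp (γ * t) = Real.exp (γ * (1 - κ) * t) * Real.exp (γ * κ * t) := by
          rw [← Real.exp_add]; congr 1; ring
        have h9 : 4 * (t + 1) * Real.exp γ ≤ Real.exp (γ * (1 - κ) * t) := by
          have : 4 * ((t : ℝ) + 1) ≤ 8 * t ^ 2 := by nlinarith
          calc 4 * (t + 1) * Real.exp γ ≤ 8 * t ^ 2 * Real.exp γ := mul_le_mul_of_nonneg_right this (Real.exp_pos _).le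
            _ = 8 * Real.exp γ * t ^ 2 := by ring
            _ ≤ _ := g3
        have h10 : 0 < Real.exp (γ * κ * t) := Real.exp_pos _
        calc ((t : ℝ) + 1) * (2 * a T) ≤ (t + 1) * (2 * (K * (Real.exp (γ * κ * t) * Real.exp γ))) := by
              apply mul_le_mul_of_nonneg_left _ (by linarith)
              apply mul_le_mul_of_nonneg_left _ (by norm_num)
              exact hT2.trans (mul_le_mul_of_nonneg_left h7 (by linarith))
          _ = K * ((4 * (t + 1) * Real.exp γ) * Real.exp (γ * κ * t)) / 2 := by ring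
          _ ≤ K * (Real.exp (γ * (1 - κ) * t) * Real.exp (γ * κ * t)) / 2 := by
              apply div_le_div_of_nonneg_right _ (by norm_num)
              apply mul_le_mul_of_nonneg_left _ (by linarith)
              exact mul_le_mul_of_nonneg_right h9 h10.le
          _ = K * Real.exp (γ * t) / 2 := by rw [← h8]
      have e4 : Real.exp (γ * t) ≤ K * Real.exp (γ * t) := le_mul_of_one_le_left hE.le hK1
      have e5 : ((t : ℝ) + 1) * T ≤ (t + 1) * t := by
        apply mul_le_mul_of_nonneg_left _ (by linarith)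
        exact_mod_cast hTt.le
      linarith

/-! ### The recursion -/

/-- the entropy bound of the number of residues with many odd terms -/
theorem Bg_ent {θ : ℝ} (h1 : 1 / 2 ≤ θ) (h2 : θ < 1) (t s : ℕ) (hs : θ * t ≤ s + 1) :
    ((Bg t s).card : ℝ) ≤ Real.exp (Real.binEntropy θ * t) := by
  have hθ0 : 0 < θ := by linarith
  have hθ1 : 0 < 1 - θ := by linarith
  have hx : 1 ≤ θ / (1 - θ) := by rw [one_le_div hθ1]; linarith
  have hx0 : 0 < θ / (1 - θ) := by positivity
  have h := Bg_card hx t s hs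
  rw [← le_div_iff₀ (by positivity)] at h
  refine h.trans (le_of_eq ?_)
  have e1 : 1 + θ / (1 - θ) = (1 - θ)⁻¹ := by field_simp; ring
  rw [e1, ← Real.exp_log (show 0 < ((1 - θ)⁻¹) ^ t by positivity), Real.rpow_def_of_pos hx0, ← Real.exp_sub, Real.log_pow,
    Real.log_inv, Real.log_div hθ0.ne' hθ1.ne']
  congr 1
  unfold Real.binEntropy
  rw [Real.log_inv, Real.log_inv]
  ring

theorem log_Lg (t : ℕ) : Real.log (Lg (2 ^ t)).card ≤ t + 2 * Real.log (Al t).card := by
  have h1 := Lg_le t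
  have h2 : ((Lg (2 ^ t)).card : ℝ) ≤ 2 ^ t * ((Al t).card * (Al t).card) := by exact_mod_cast h1
  have hA : (0 : ℝ) < (Al t).card := by exact_mod_cast Al_pos t
  have hL : (0 : ℝ) < (Lg (2 ^ t)).card := by exact_mod_cast Lg_pos (2 ^ t)
  have h3 := Real.log_le_log hL h2
  rw [Real.log_mul (by positivity) (by positivity), Real.log_mul hA.ne' hA.ne', Real.log_pow] at h3
  have l2 := Real.log_two_lt_d9
  have : (t : ℝ) * Real.log 2 ≤ t * 1 := mul_le_mul_of_nonneg_left (by linarith) (Nat.cast_nonneg t)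
  linarith

theorem rec_Al {θ : ℝ} (h1 : 1 / 2 ≤ θ) (h2 : θ < 1) (t : ℕ) : ∃ T : ℕ, (T : ℝ) ≤ θ * (Real.log 3 / Real.log 2) * t + 1 ∧
    Real.log (Al t).card ≤ (t + 1) * (T + 2 * Real.log (Al T).card) + Real.exp (Real.binEntropy θ * t) := by
  have l2 := Real.log_two_gt_d9
  have l2' := Real.log_two_lt_d9
  have l3 : 0 < Real.log 3 := Real.log_pos (by norm_num)
  have ht0 : (0 : ℝ) ≤ t := Nat.cast_nonneg t
  have hθt : 0 ≤ θ * t := by positivity
  set κ := θ * (Real.log 3 / Real.log 2) with hκ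
  have hκ0 : 0 ≤ κ * t := by positivity
  set T := ⌈κ * t⌉₊ with hT
  set s := ⌊θ * t⌋₊ with hs
  refine ⟨T, (Nat.ceil_lt_add_one hκ0).le, ?_⟩
  have hs1 : θ * t ≤ s + 1 := (Nat.lt_floor_add_one _).le
  have hs2 : (s : ℝ) ≤ θ * t := Nat.floor_le hθt
  have hst : (s : ℝ) ≤ t := by nlinarith
  have hA := Al_le t s
  have hAR : ((Al t).card : ℝ) ≤ (∏ o ∈ range (s + 1), ((Lg (3 ^ o)).card : ℝ)) * 2 ^ (Bg t s).card := by exact_mod_cast hA
  have hA0 : (0 : ℝ) < (Al t).card := by exact_mod_cast Al_pos t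
  have hL0 : ∀ m, (0 : ℝ) < (Lg m).card := fun m => by exact_mod_cast Lg_pos m
  have h3 := Real.log_le_log hA0 hAR
  rw [Real.log_mul (prod_ne_zero_iff.2 fun o _ => (hL0 _).ne') (by positivity), Real.log_prod (fun o _ => (hL0 _).ne'),
    Real.log_pow] at h3
  have h4 : ∀ o ∈ range (s + 1), Real.log (Lg (3 ^ o)).card ≤ T + 2 * Real.log (Al T).card := by
    intro o ho
    rw [mem_range] at ho
    have hoR : (o : ℝ) ≤ s := by
      have : o ≤ s := by omega
      exact_mod_cast this
    have h5 : 3 ^ o ≤ 2 ^ T := by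
      have h6 : (o : ℝ) * Real.log 3 ≤ T * Real.log 2 := by
        have h7 : κ * t ≤ T := Nat.le_ceil _
        have h8 : (o : ℝ) * (Real.log 3 / Real.log 2) ≤ T := by
          refine le_trans ?_ h7
          calc (o : ℝ) * (Real.log 3 / Real.log 2) ≤ (θ * t) * (Real.log 3 / Real.log 2) :=
                mul_le_mul_of_nonneg_right (hoR.trans hs2) (by positivity)
            _ = κ * t := by rw [hκ]; ring
        rw [mul_div_assoc', div_le_iff₀ (by linarith)] at h8
        exact h8
      rw [← Real.log_pow, ← Real.log_pow] at h6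
      have h7 := (Real.log_le_log_iff (by positivity) (by positivity)).1 h6
      exact_mod_cast h7
    have h6 : ((Lg (3 ^ o)).card : ℝ) ≤ (Lg (2 ^ T)).card := by exact_mod_cast Lg_mono h5
    exact (Real.log_le_log (hL0 _) h6).trans (log_Lg T)
  have h5 := sum_le_sum h4
  rw [sum_const, card_range, nsmul_eq_mul] at h5
  have hTa : 0 ≤ T + 2 * Real.log (Al T).card := by
    have : 0 ≤ Real.log ((Al T).card : ℝ) := Real.log_nonneg (by exact_mod_cast Al_pos T)
    positivity
  have h6 : ((s + 1 : ℕ) : ℝ) * (T + 2 * Real.log (Al T).card) ≤ (t + 1) * (T + 2 * Real.log (Al T).card) := by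
    apply mul_le_mul_of_nonneg_right _ hTa
    push_cast; linarith
  have h7 := Bg_ent h1 h2 t s hs1
  have h8 : ((Bg t s).card : ℝ) * Real.log 2 ≤ Real.exp (Real.binEntropy θ * t) := by
    have h9 : (0 : ℝ) ≤ (Bg t s).card := Nat.cast_nonneg _
    calc ((Bg t s).card : ℝ) * Real.log 2 ≤ (Bg t s).card * 1 := mul_le_mul_of_nonneg_left (by linarith) h9
      _ ≤ _ := by rw [mul_one]; exact h7
  linarith

theorem log23 : 1 / 2 < Real.log 2 / Real.log 3 ∧ Real.log 2 / Real.log 3 < 1 := by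
  have l2 : 0 < Real.log 2 := Real.log_pos (by norm_num)
  have l3 : 0 < Real.log 3 := Real.log_pos (by norm_num)
  constructor
  · rw [lt_div_iff₀ l3]
    have h1 : Real.log 3 < Real.log 4 := Real.log_lt_log (by norm_num) (by norm_num)
    have h2 : Real.log 4 = 2 * Real.log 2 := by
      rw [show (4 : ℝ) = 2 ^ (2 : ℕ) by norm_num, Real.log_pow]; push_cast; ring
    linarith
  · rw [div_lt_one l3]
    exact Real.log_lt_log (by norm_num) (by norm_num)

/-- ZERO ENTROPY -/
theorem few_words {β : ℝ} (hβ : Real.binEntropy (Real.log 2 / Real.log 3) / Real.log 2 < β) :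
    ∃ C : ℝ, 0 < C ∧ ∀ m : ℕ, 1 ≤ m → ((Lg m).card : ℝ) ≤ Real.exp (C * (m : ℝ) ^ β) := by
  obtain ⟨g1, g2⟩ := log23
  have l2 : 0 < Real.log 2 := Real.log_pos (by norm_num)
  have l3 : 0 < Real.log 3 := Real.log_pos (by norm_num)
  have l2g := Real.log_two_gt_d9
  have l2' := Real.log_two_lt_d9
  set p := Real.log 2 / Real.log 3 with hp
  rw [div_lt_iff₀ l2] at hβ
  have hent : 0 < Real.binEntropy p := Real.binEntropy_pos (by linarith) g2
  have hβ0 : 0 < β := by
    by_contra hcon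
    push Not at hcon
    have : β * Real.log 2 ≤ 0 := mul_nonpos_of_nonpos_of_nonneg hcon l2.le
    linarith
  -- choice of `θ`
  obtain ⟨θ, hθ1, hθ2, hθ3⟩ : ∃ θ : ℝ, 1 / 2 ≤ θ ∧ θ < p ∧ Real.binEntropy θ < β * Real.log 2 := by
    have hcont : ContinuousAt Real.binEntropy p := Real.binEntropy_continuous.continuousAt
    have hev : ∀ᶠ x in 𝓝 p, Real.binEntropy x < β * Real.log 2 := hcont.eventually_lt_const hβ
    have hev2 : ∀ᶠ x in 𝓝 p, 1 / 2 < x := eventually_gt_nhds g1
    obtain ⟨x, hx⟩ := ((hev.and hev2).filter_mono nhdsWithin_le_nhds |>.and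
      (self_mem_nhdsWithin : ∀ᶠ x in 𝓝[<] p, x ∈ Set.Iio p)).exists
    exact ⟨x, hx.1.2.le, hx.2, hx.1.1⟩
  have hκ1 : θ * (Real.log 3 / Real.log 2) < 1 := by
    have : θ * (Real.log 3 / Real.log 2) < p * (Real.log 3 / Real.log 2) := mul_lt_mul_of_pos_right hθ2 (by positivity)
    have e : p * (Real.log 3 / Real.log 2) = 1 := by rw [hp]; field_simp
    linarith
  have hγ : 0 < β * Real.log 2 := by positivity
  obtain ⟨K, hK, hgr⟩ := growth (a := fun t => Real.log (Al t).card) (fun t => Real.log_nonneg (by exact_mod_cast Al_pos t))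
    hκ1 hθ3 hγ (fun t => rec_Al hθ1 (by linarith) t)
  -- a linear term is dominated
  obtain ⟨N, hN⟩ := ev_exp hγ 1
  have hexp : ∀ t : ℕ, (t : ℝ) ≤ (N + 1) * Real.exp (β * Real.log 2 * t) := by
    intro t
    have h1 : 1 ≤ Real.exp (β * Real.log 2 * t) := Real.one_le_exp (by positivity)
    rcases Nat.lt_or_ge t N with h | h
    · have h2 : (t : ℝ) ≤ N := by exact_mod_cast h.le
      have h3 : (0 : ℝ) ≤ N := Nat.cast_nonneg N
      nlinarith
    · have h2 := hN t h
      have h3 : (t : ℝ) ≤ (t : ℝ) ^ 2 := by exact_mod_cast Nat.le_self_pow (by norm_num) t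
      have h4 : (0 : ℝ) ≤ N := Nat.cast_nonneg N
      nlinarith
  refine ⟨((N + 1) + 2 * K) * Real.exp (β * Real.log 2), by positivity, fun m hm => ?_⟩
  set t := Nat.clog 2 m with ht
  have h1 : m ≤ 2 ^ t := Nat.le_pow_clog (by norm_num) m
  have hL0 : ∀ m, (0 : ℝ) < (Lg m).card := fun m => by exact_mod_cast Lg_pos m
  have h2 : Real.log (Lg m).card ≤ t + 2 * Real.log (Al t).card :=
    (Real.log_le_log (hL0 _) (by exact_mod_cast Lg_mono h1)).trans (log_Lg t)
  have h3 : t + 2 * Real.log (Al t).card ≤ ((N + 1) + 2 * K) * Real.exp (β * Real.log 2 * t) := by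
    have h4 := hgr t
    have h5 := hexp t
    linarith
  have hm0 : (0 : ℝ) < m := by exact_mod_cast hm
  have h4 : Real.exp (β * Real.log 2 * t) ≤ Real.exp (β * Real.log 2) * (m : ℝ) ^ β := by
    rw [Real.rpow_def_of_pos hm0, ← Real.exp_add]
    apply Real.exp_le_exp.2
    have h5 : (t : ℝ) * Real.log 2 ≤ Real.log 2 + Real.log m := by
      rcases Nat.eq_or_lt_of_le hm with h | h
      · rw [ht, ← h]
        simp
        positivity
      · have h6 : 2 ^ (t - 1) < m := by
          have := Nat.pow_pred_clog_lt_self (b := 2) (by norm_num) (show 1 < m from h)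
          simpa using this
        have h7 : 0 < t := Nat.clog_pos (by norm_num) (by omega)
        have h8 : ((2 : ℝ)) ^ (t - 1) < m := by exact_mod_cast h6
        have h9 := (Real.log_lt_log (by positivity) h8).le
        rw [Real.log_pow] at h9
        have h10 : (((t - 1 : ℕ)) : ℝ) = t - 1 := by
          rw [Nat.cast_sub h7]; norm_num
        rw [h10] at h9
        linarith
    nlinarith
  have h5 : Real.log (Lg m).card ≤ ((N + 1) + 2 * K) * Real.exp (β * Real.log 2) * (m : ℝ) ^ β := by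
    have h6 : (0 : ℝ) ≤ (N + 1) + 2 * K := by positivity
    calc Real.log (Lg m).card ≤ ((N + 1) + 2 * K) * Real.exp (β * Real.log 2 * t) := h2.trans h3
      _ ≤ ((N + 1) + 2 * K) * (Real.exp (β * Real.log 2) * (m : ℝ) ^ β) := mul_le_mul_of_nonneg_left h4 h6
      _ = _ := by ring
  calc ((Lg m).card : ℝ) = Real.exp (Real.log (Lg m).card) := (Real.exp_log (hL0 m)).symm
    _ ≤ _ := Real.exp_le_exp.2 h5

end Pool.Agent.KS6_32.CL
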