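import Pool.Agent.KS6_32.CL.E2

/-! Equidistribution in the classes modulo `3 ^ m` in short intervals. -/

set_option autoImplicit false

namespace Pool.Agent.KS6_32.CL

open Pool.Agent.H320R2.PD Pool.Agent.H499R2.ND Pool.Agent.H499R2.CO Pool.Agent.W41.FU Finset
open Pool.Agent.Y965.SI Pool.Agent.KS6_32.BD

/-- the size of the mixing defect -/
theorem DM_le (m : ℕ) : ∃ C : ℝ, 0 < C ∧ ∀ k : ℕ, 100 ≤ k → DM (3 * k) k m (k / 2) ≤ C / k := by
  obtain ⟨C, hC, hmix⟩ := mix 8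
  refine ⟨C * ((1 + m) * (3 ^ 8 + m ^ 8)), by positivity, ?_⟩
  intro k hk
  have hk100 : (100 : ℝ) ≤ k := by exact_mod_cast hk
  have hk0 : (0 : ℝ) < k := by linarith
  have hm0 : (0 : ℝ) ≤ m := Nat.cast_nonneg m
  have h1 := hmix k m (k / 2) (3 * k) (by omega) (by omega) (by omega) le_rfl
  refine h1.trans ?_
  have hm' : (k : ℝ) / 3 ≤ ((k / 2 : ℕ) : ℝ) := by
    have h2 : k ≤ 3 * (k / 2) := by omega
    have h3 : (k : ℝ) ≤ 3 * ((k / 2 : ℕ) : ℝ) := by exact_mod_cast h2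
    linarith
  have hm'0 : (0 : ℝ) < ((k / 2 : ℕ) : ℝ) := by linarith [show (0 : ℝ) < k / 3 by positivity]
  have h2 : (1 / ((k / 2 : ℕ) : ℝ)) ^ 8 ≤ (3 / (k : ℝ)) ^ 8 := by
    apply pow_le_pow_left₀ (by positivity)
    rw [div_le_div_iff₀ hm'0 hk0]
    linarith
  have h3 : (1 / ((k / 2 : ℕ) : ℝ)) ^ 8 + ((m : ℝ) / k) ^ 8 ≤ (3 ^ 8 + m ^ 8) / k ^ 8 := by
    rw [div_pow, div_pow] at *
    rw [add_div]
    linarith
  have h4 : ((k : ℝ) + m) ≤ k * (1 + m) := by nlinarith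
  calc ((k : ℝ) + m) * (C * ((1 / ((k / 2 : ℕ) : ℝ)) ^ 8 + ((m : ℝ) / k) ^ 8))
      ≤ (k * (1 + m)) * (C * ((3 ^ 8 + m ^ 8) / k ^ 8)) := by
        apply mul_le_mul h4 (mul_le_mul_of_nonneg_left h3 hC.le) (by positivity) (by positivity)
    _ = C * ((1 + m) * (3 ^ 8 + m ^ 8)) / k * (1 / k ^ 6) := by field_simp
    _ ≤ C * ((1 + m) * (3 ^ 8 + m ^ 8)) / k * 1 := by
        apply mul_le_mul_of_nonneg_left _ (by positivity)
        rw [div_le_one (by positivity)]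
        exact one_le_pow₀ (by linarith)
    _ = _ := mul_one _

/-- EQUIDISTRIBUTION in short intervals -/
theorem class_near {d : ℤ} (hd : Odd d) (hd3 : IsCoprime d 3) (hdd : d * d = 1) (m : ℕ) :
    ∃ C : ℝ, 0 < C ∧ ∀ k : ℕ, 100 ≤ k → ∀ f : ℤ → ℝ, InvF d f → ∀ a b : ℝ, a ≤ b → 4 * (k : ℝ) ≤ Real.log (b - a) →
      ∀ c : ℤ, |3 ^ m * WS f a b m 1 c - OS f a b| ≤ C / k * (b - a) := by
  obtain ⟨C1, hC1, hD1⟩ := DM_le m
  obtain ⟨C0, hC0, hD0⟩ := DM_le 0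
  have hd1 : |(d : ℝ)| = 1 := by
    have h7 : (d : ℝ) * d = 1 := by exact_mod_cast hdd
    have h8 : |(d : ℝ)| * |(d : ℝ)| = 1 := by rw [← abs_mul, h7, abs_one]
    nlinarith [abs_nonneg (d : ℝ)]
  refine ⟨(1 + 3 ^ m) * (C1 + C0) + 38400 + 10 * (1 + 3 ^ m), by positivity, ?_⟩
  intro k hk f hf a b hab hL c
  have hk100 : (100 : ℝ) ≤ k := by exact_mod_cast hk
  have hk1 : 1 ≤ k := by omega
  have hkpos : (0 : ℝ) < k := by linarith
  set ℓ := b - a with hℓ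
  set L := Real.log ℓ with hLdef
  have hLpos : 0 < L := by linarith
  have hℓpos : 0 < ℓ := by
    by_contra hcon
    have h1 : ℓ = 0 := le_antisymm (not_lt.1 hcon) (by rw [hℓ]; linarith)
    rw [hLdef, h1, Real.log_zero] at hLpos
    exact lt_irrefl _ hLpos
  have hexpL : Real.exp L = ℓ := Real.exp_log hℓpos
  set X : ℝ := (2 : ℝ) ^ (41 * k / 20) with hX
  have hX1 : 1 ≤ X := one_le_pow₀ (by norm_num)
  have hXe : X ≤ Real.exp (1.43 * k) := by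
    have := (two_pow_le (t := (k : ℝ)) (η := 1) (k := k) (by linarith)).1
    rw [one_mul] at this
    exact this
  have hXl : X ≤ 1 / k * ℓ := by
    rw [← hexpL]
    have h2 : Real.exp (1.43 * k) ≤ Real.exp (-k + L) := Real.exp_le_exp.2 (by linarith)
    have h3 := exp_neg_le_inv hkpos
    have h4 : Real.exp (-k + L) = Real.exp (-k) * Real.exp L := Real.exp_add _ _
    have h5 : Real.exp (-(k : ℝ)) * Real.exp L ≤ 1 / k * Real.exp L :=
      mul_le_mul_of_nonneg_right h3 (Real.exp_pos _).le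
    linarith
  have hk1' : 1 / (k : ℝ) ≤ 1 := by rw [div_le_one hkpos]; linarith
  have hXl1 : X ≤ ℓ := hXl.trans (by
    calc 1 / (k : ℝ) * ℓ ≤ 1 * ℓ := mul_le_mul_of_nonneg_right hk1' hℓpos.le
      _ = ℓ := one_mul _)
  have hTm : 41 * k / 20 ≤ k * (3 * k) :=
    (show 41 * k / 20 ≤ 3 * k by omega).trans (Nat.le_mul_of_pos_left (3 * k) hk1)
  have hmass := mass_GW k
  set GG := GW (3 * k) k ((39 * k + 19) / 20) (41 * k / 20) with hGG
  have hmass2 : 3 * Real.exp (-(k / 12800 : ℝ)) ≤ 38400 / k := by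
    have h1 := exp_neg_le_inv (x := (k / 12800 : ℝ)) (by positivity)
    rw [one_div_div] at h1
    have : 3 * (12800 / (k : ℝ)) = 38400 / k := by ring
    linarith
  have hs1 := stageC hd hd3 hf hab (3 * k) k m (k / 2) ((39 * k + 19) / 20) (41 * k / 20) c hk1 (by omega) hTm
  have hs0 := stageC hd hd3 hf hab (3 * k) k 0 (k / 2) ((39 * k + 19) / 20) (41 * k / 20) 0 hk1 (by omega) hTm
  rw [← hGG, ← hX, ← hℓ, hd1] at hs1 hs0
  have hOS : OS f a b = WS f a b 0 1 0 := rfl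
  rw [← hOS] at hs0
  set MM := ∑ w ∈ GG, WS f (a * 3 ^ k / 2 ^ w.sum) (b * 3 ^ k / 2 ^ w.sum) (k / 2) (2 ^ w.sum) (d * Wo w) with hMM
  have hmain : (3 : ℝ) ^ m * (MM / 3 ^ (k + m - k / 2)) = MM / 3 ^ (k + 0 - k / 2) := by
    have e : k + m - k / 2 = (k + 0 - k / 2) + m := by omega
    rw [e, pow_add]
    field_simp
  have hDm := hD1 k hk
  have hD0' := hD0 k hk
  have hDm0 := DM_nonneg (3 * k) k m (k / 2)
  have hD00 := DM_nonneg (3 * k) k 0 (k / 2)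
  set P := DM (3 * k) k m (k / 2) with hP
  set Q := DM (3 * k) k 0 (k / 2) with hQ
  have h3m : (1 : ℝ) ≤ 3 ^ m := one_le_pow₀ (by norm_num)
  have hmassle : 1 - ∑ w ∈ GG, wwt w ≤ 38400 / k := by linarith
  -- first
  have hE1 : |3 ^ m * WS f a b m 1 c - 3 ^ m * (MM / 3 ^ (k + m - k / 2))|
      ≤ (ℓ / 2 + 3 ^ m * X) * P + ℓ / 2 * (38400 / k) + 3 ^ m * (1 + 4 * X) := by
    rw [← mul_sub, abs_mul, abs_of_pos (show (0 : ℝ) < 3 ^ m by positivity)]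
    refine (mul_le_mul_of_nonneg_left hs1 (by positivity)).trans ?_
    have e1 : (3 : ℝ) ^ m * ((ℓ / (2 * 3 ^ m) + X) * P + ℓ / (2 * 3 ^ m) * (1 - ∑ w ∈ GG, wwt w) + 1 + (1 + 3) * X)
        = (ℓ / 2 + 3 ^ m * X) * P + ℓ / 2 * (1 - ∑ w ∈ GG, wwt w) + 3 ^ m * (1 + 4 * X) := by
      field_simp; ring
    rw [e1]
    have := mul_le_mul_of_nonneg_left hmassle (show 0 ≤ ℓ / 2 by positivity)
    linarith
  have hE0 : |OS f a b - MM / 3 ^ (k + 0 - k / 2)| ≤ (ℓ / 2 + X) * Q + ℓ / 2 * (38400 / k) + (1 + 4 * X) := by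
    refine hs0.trans ?_
    rw [pow_zero, mul_one]
    have := mul_le_mul_of_nonneg_left hmassle (show 0 ≤ ℓ / 2 by positivity)
    linarith
  rw [hmain] at hE1
  have h5 := abs_sub_le (3 ^ m * WS f a b m 1 c) (MM / 3 ^ (k + 0 - k / 2)) (OS f a b)
  rw [abs_sub_comm (MM / 3 ^ (k + 0 - k / 2)) (OS f a b)] at h5
  have h6 : (ℓ / 2 + 3 ^ m * X) * P ≤ (1 + 3 ^ m) * ℓ * (C1 / k) := by
    apply mul_le_mul _ hDm hDm0 (by positivity)
    have := mul_le_mul_of_nonneg_left hXl1 (show (0 : ℝ) ≤ 3 ^ m by positivity)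
    linarith
  have h7 : (ℓ / 2 + X) * Q ≤ (1 + 3 ^ m) * ℓ * (C0 / k) := by
    apply mul_le_mul _ hD0' hD00 (by positivity)
    nlinarith
  have h8 : (3 : ℝ) ^ m * (1 + 4 * X) ≤ 3 ^ m * (5 * (1 / k * ℓ)) := by
    apply mul_le_mul_of_nonneg_left _ (by positivity)
    linarith
  have h9 : (1 + 4 * X) ≤ 5 * (1 / k * ℓ) := by linarith
  have e : ((1 + 3 ^ m) * (C1 + C0) + 38400 + 10 * (1 + 3 ^ m)) / (k : ℝ) * ℓ
      = (1 + 3 ^ m) * ℓ * (C1 / k) + (1 + 3 ^ m) * ℓ * (C0 / k) + ℓ * (38400 / k) + 10 * (1 + 3 ^ m) * (1 / k * ℓ) := by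
    ring
  rw [e]
  have h10 : 0 < 1 / (k : ℝ) * ℓ := by positivity
  nlinarith

/-- the same for the classes `u x ≡ v` -/
theorem class_near' {d : ℤ} (hd : Odd d) (hd3 : IsCoprime d 3) (hdd : d * d = 1) (m : ℕ) :
    ∃ C : ℝ, 0 < C ∧ ∀ k : ℕ, 100 ≤ k → ∀ f : ℤ → ℝ, InvF d f → ∀ a b : ℝ, a ≤ b → 4 * (k : ℝ) ≤ Real.log (b - a) →
      ∀ u v : ℤ, IsCoprime u 3 → |3 ^ m * WS f a b m u v - OS f a b| ≤ C / k * (b - a) := by
  obtain ⟨C, hC, h⟩ := class_near hd hd3 hdd m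
  refine ⟨C, hC, ?_⟩
  intro k hk f hf a b hab hL u v hu
  obtain ⟨p, q', hpq⟩ : IsCoprime u ((3 : ℤ) ^ m) := hu.pow_right
  have hcop : IsCoprime ((3 : ℤ) ^ m) u := ⟨q', p, by linarith⟩
  have key : ∀ x : ℤ, (3 : ℤ) ^ m ∣ u * x - v ↔ (3 : ℤ) ^ m ∣ 1 * x - p * v := by
    intro x
    have h1 : u * p = 1 - q' * 3 ^ m := by linarith
    constructor
    · intro h
      apply hcop.dvd_of_dvd_mul_left
      have : u * (1 * x - p * v) = (u * x - v) + 3 ^ m * (q' * v) := by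
        calc u * (1 * x - p * v) = u * x - (u * p) * v := by ring
          _ = _ := by rw [h1]; ring
      rw [this]
      exact dvd_add h (dvd_mul_right _ _)
    · intro h
      have : u * x - v = u * (1 * x - p * v) - 3 ^ m * (q' * v) := by
        have h2 : u * (1 * x - p * v) = u * x - (u * p) * v := by ring
        rw [h2, h1]; ring
      rw [this]
      exact dvd_sub (h.mul_left u) (dvd_mul_right _ _)
  have hc : cls Set.univ a b m u v = cls Set.univ a b m 1 (p * v) := by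
    ext x
    rw [mem_cls, mem_cls, key]
  have hWS : WS f a b m u v = WS f a b m 1 (p * v) := by unfold WS; rw [hc]
  rw [hWS]
  exact h k hk f hf a b hab hL (p * v)

end Pool.Agent.KS6_32.CL
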