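import Pool.Agent.KS6_32.BD.Fin

/-! Steering of two affine forms under the map `T` to two forms with the same leading coefficient and an odd
difference. -/

set_option autoImplicit false

namespace Pool.Agent.KS6_32.CL

open Pool.Agent.H320R2.PD Pool.Agent.H499R2.ND

/-- On some class the two forms `3 ^ k x + u` and `3 ^ l x + v` are sent to forms with odd difference. -/
def GP (k : ℕ) (u : ℤ) (l : ℕ) (v : ℤ) : Prop :=
  ∃ (t : ℕ) (r : ℤ) (m : ℕ) (a δ : ℤ), Odd δ ∧ ∀ y : ℤ,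
    (Td 1)^[t] (3 ^ k * (2 ^ t * y + r) + u) = 3 ^ m * y + a ∧
    (Td 1)^[t] (3 ^ l * (2 ^ t * y + r) + v) = 3 ^ m * y + a + δ

theorem GP_symm {k : ℕ} {u : ℤ} {l : ℕ} {v : ℤ} (h : GP k u l v) : GP l v k u := by
  obtain ⟨t, r, m, a, δ, hδ, h⟩ := h
  refine ⟨t, r, m, a + δ, -δ, hδ.neg, fun y => ⟨?_, ?_⟩⟩
  · rw [(h y).2]; ring
  · rw [(h y).1]; ring

theorem GP_step {k : ℕ} {u : ℤ} {l : ℕ} {v : ℤ} {k' : ℕ} {u' : ℤ} {l' : ℕ} {v' ε : ℤ}
    (h1 : ∀ y : ℤ, Td 1 (3 ^ k * (2 * y + ε) + u) = 3 ^ k' * y + u')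
    (h2 : ∀ y : ℤ, Td 1 (3 ^ l * (2 * y + ε) + v) = 3 ^ l' * y + v') (h : GP k' u' l' v') : GP k u l v := by
  obtain ⟨t, r, m, a, δ, hδ, h⟩ := h
  refine ⟨t + 1, 2 * r + ε, m, a, δ, hδ, fun y => ?_⟩
  have e : (2 : ℤ) ^ (t + 1) * y + (2 * r + ε) = 2 * (2 ^ t * y + r) + ε := by rw [pow_succ]; ring
  rw [Function.iterate_succ_apply, Function.iterate_succ_apply, e, h1, h2]
  exact h y

theorem Td_ev {x y : ℤ} (h : x = 2 * y) : Td 1 x = y := by
  unfold Td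
  rw [if_pos (by omega)]; omega

theorem Td_od {x y : ℤ} (h : x = 2 * y + 1) : Td 1 x = 3 * y + 2 := by
  unfold Td
  rw [if_neg (by omega)]; omega

theorem par (k : ℕ) (u : ℤ) : ∃ ε w : ℤ, 3 ^ k * ε + u = 2 * w := by
  rcases Int.even_or_odd u with ⟨w, hw⟩ | ⟨w, hw⟩
  · exact ⟨0, w, by rw [hw]; ring⟩
  · have h3 : Odd ((3 : ℤ) ^ k) := Odd.pow (by decide)
    obtain ⟨z, hz⟩ := h3
    exact ⟨1, z + w + 1, by rw [hw, hz]; ring⟩

theorem par1 (k : ℕ) (u : ℤ) : ∃ ε w : ℤ, 3 ^ k * ε + u = 2 * w + 1 := by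
  obtain ⟨ε, w, h⟩ := par k (u - 1)
  exact ⟨ε, w, by linarith⟩

/-- good differences -/
def Gd (j : ℕ) (δ : ℤ) : Prop := ∀ (k : ℕ) (u : ℤ), GP k u (k + j) (3 ^ j * u + δ)

theorem M0 {j : ℕ} {δ : ℤ} (h : Gd j δ) : Gd j (2 * δ) := by
  intro k u
  obtain ⟨ε, w, hw⟩ := par k u
  refine GP_step (k' := k) (u' := w) (l' := k + j) (v' := 3 ^ j * w + δ) (ε := ε) (fun y => ?_) (fun y => ?_) (h k w)
  · apply Td_ev
    linear_combination hw
  · apply Td_ev
    rw [pow_add]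
    linear_combination 3 ^ j * hw

theorem M1 {j : ℕ} {h e : ℤ} (hj : (3 : ℤ) ^ j = 2 * h + 1) (hg : Gd j (3 * e - h)) : Gd j (2 * e) := by
  intro k u
  obtain ⟨ε, w, hw⟩ := par1 k u
  refine GP_step (k' := k + 1) (u' := 3 * w + 2) (l' := k + 1 + j) (v' := 3 ^ j * (3 * w + 2) + (3 * e - h)) (ε := ε)
    (fun y => ?_) (fun y => ?_) (hg (k + 1) (3 * w + 2))
  · rw [Td_od (y := 3 ^ k * y + w) (by linear_combination hw), pow_succ]; ring
  · rw [Td_od (y := 3 ^ (k + j) * y + 3 ^ j * w + h + e) (by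
      rw [pow_add]
      linear_combination 3 ^ j * hw + hj), pow_add, pow_add]
    linear_combination (-2) * hj

theorem M2 {j : ℕ} {δ g : ℤ} (hδ : 3 ^ (j + 1) + δ = 2 * g) (hg : Gd j (g - 2 * 3 ^ j)) : Gd (j + 1) δ := by
  intro k u
  obtain ⟨ε, w, hw⟩ := par1 k u
  refine GP_step (k' := k + 1) (u' := 3 * w + 2) (l' := k + 1 + j) (v' := 3 ^ j * (3 * w + 2) + (g - 2 * 3 ^ j)) (ε := ε)
    (fun y => ?_) (fun y => ?_) (hg (k + 1) (3 * w + 2))
  · rw [Td_od (y := 3 ^ k * y + w) (by linear_combination hw), pow_succ]; ring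
  · apply Td_ev
    rw [pow_add, pow_add, pow_add, pow_one] at *
    linear_combination (3 ^ j * 3) * hw + hδ

theorem M3 {j : ℕ} {δ g : ℤ} (hδ : δ = 2 * g + 1) (hg : Gd (j + 1) (3 * g + 2)) : Gd j δ := by
  intro k u
  obtain ⟨ε, w, hw⟩ := par k u
  refine GP_step (k' := k) (u' := w) (l' := k + (j + 1)) (v' := 3 ^ (j + 1) * w + (3 * g + 2)) (ε := ε)
    (fun y => ?_) (fun y => ?_) (hg k w)
  · apply Td_ev
    linear_combination hw
  · rw [Td_od (y := 3 ^ (k + j) * y + 3 ^ j * w + g) (by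
      rw [pow_add]
      linear_combination 3 ^ j * hw + hδ), pow_add, pow_add, pow_add, pow_one]
    ring

theorem Gd_odd0 {δ : ℤ} (h : Odd δ) : Gd 0 δ := by
  intro k u
  refine ⟨0, 0, k, u, δ, h, fun y => ⟨by simp, ?_⟩⟩
  simp only [pow_zero, one_mul, add_zero, Function.iterate_zero, id_eq]
  ring

/-- from the odd differences to all differences different from `0` -/
theorem Gd_ne {j : ℕ} (h : ∀ δ : ℤ, Odd δ → Gd j δ) : ∀ δ : ℤ, δ ≠ 0 → Gd j δ := by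
  have key : ∀ n : ℕ, ∀ δ : ℤ, δ.natAbs = n → δ ≠ 0 → Gd j δ := by
    intro n
    induction n using Nat.strong_induction_on with
    | _ n ih =>
      intro δ hn h0
      rcases Int.even_or_odd δ with he | ho
      · obtain ⟨e, he⟩ := he
        have e2 : δ = 2 * e := by omega
        rw [e2]
        exact M0 (ih e.natAbs (by omega) e rfl (by omega))
      · exact h δ ho
  intro δ h0
  exact key _ δ rfl h0

theorem Gd_zero : ∀ δ : ℤ, δ ≠ 0 → Gd 0 δ := Gd_ne fun _ h => Gd_odd0 h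

theorem Gd_of_ne {j : ℕ} (hj : 1 ≤ j) (h : ∀ δ : ℤ, δ ≠ 0 → Gd j δ) : ∀ δ : ℤ, Gd j δ := by
  intro δ
  by_cases h0 : δ = 0
  · have h3 : Odd ((3 : ℤ) ^ j) := Odd.pow (by decide)
    obtain ⟨w, hw⟩ := h3
    have h3' : (3 : ℤ) ≤ 3 ^ j := by
      calc (3 : ℤ) = 3 ^ 1 := by norm_num
        _ ≤ 3 ^ j := pow_le_pow_right₀ (by norm_num) hj
    have h1 := M1 (e := 0) hw (h _ (by omega))
    rw [h0]
    simpa using h1
  · exact h δ h0

theorem pow3_odd (j : ℕ) : Odd ((3 : ℤ) ^ j) := Odd.pow (by decide)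

theorem Gd_succ {j : ℕ} (h : ∀ δ : ℤ, Gd j δ) : ∀ δ : ℤ, Gd (j + 1) δ := by
  apply Gd_of_ne (by omega)
  apply Gd_ne
  intro δ hδ
  obtain ⟨g, hg⟩ := (pow3_odd (j + 1)).add_odd hδ
  exact M2 (g := g) (by rw [hg]; ring) (h _)

theorem Gd_one : ∀ δ : ℤ, Gd 1 δ := by
  have hneg : Gd 1 (-1) := M2 (g := 1) (by norm_num) (Gd_odd0 (by decide))
  have h21 : Gd 2 1 := M2 (j := 1) (g := 5) (by norm_num) (by norm_num; exact hneg)
  have h22 : Gd 2 2 := by simpa using M0 h21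
  have h11 : Gd 1 1 := M3 (g := 0) (by norm_num) (by norm_num; exact h22)
  apply Gd_of_ne le_rfl
  apply Gd_ne
  intro δ hδ
  by_cases h1 : δ = 1
  · rw [h1]; exact h11
  · obtain ⟨w, hw⟩ := hδ
    refine M2 (g := w + 2) (by rw [hw]; ring) (Gd_zero _ ?_)
    simp only [pow_zero]
    omega

theorem Gd_all : ∀ j : ℕ, 1 ≤ j → ∀ δ : ℤ, Gd j δ := by
  intro j hj
  induction j, hj using Nat.le_induction with
  | base => exact Gd_one
  | succ n _ ih => exact Gd_succ ih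

/-- STEERING. -/
theorem steer (a : ℕ) (p : ℤ) (b : ℕ) (q : ℤ) (h : (a, p) ≠ (b, q)) : GP a p b q := by
  have key : ∀ (a : ℕ) (p : ℤ) (b : ℕ) (q : ℤ), a ≤ b → (a, p) ≠ (b, q) → GP a p b q := by
    intro a p b q hab h
    obtain ⟨j, rfl⟩ := Nat.exists_eq_add_of_le hab
    have hG : Gd j (q - 3 ^ j * p) := by
      rcases Nat.eq_zero_or_pos j with rfl | hj
      · apply Gd_zero
        intro h0
        apply h
        simp only [pow_zero, one_mul] at h0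
        have : q = p := by omega
        rw [this]; rfl
      · exact Gd_all j hj _
    have h1 := hG a p
    rwa [show (3 : ℤ) ^ j * p + (q - 3 ^ j * p) = q by ring] at h1
  rcases le_total a b with hab | hab
  · exact key a p b q hab h
  · exact GP_symm (key b q a p hab fun h1 => h h1.symm)

end Pool.Agent.KS6_32.CL
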