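import Pool.Graph.R_pool_sql_team_seeded_3997aac3.Results.MP_d02c56_nt.ArratiaFlow
import Pool.Agent.KS6_32.CL.Steer

/-! Classes of integers that are isolated from their neighbours: the trajectories of all the neighbours up to the
distance `K` merge, and stay apart from the trajectory of the integer itself. -/

set_option autoImplicit false

namespace Pool.Agent.KS6_32.CL

open Finset
open Pool.Agent.H499R2.ND (Td)
open Pool.Agent.Q74.KP (NG Erf pf NG_unique NG_three pf_zero pf_pos pf_succ avg_pair pf_lim)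

theorem Td_AR : Pool.Agent.Q74.AR.Td = Td := rfl

theorem NG_two (t : ℕ) (a : Fin 2 → ℤ) (ha : Monotone a) : NG (fun _ => 1) t a = pf t (a 1 - a 0) := by
  refine NG_unique (fun t a => pf t (a 1 - a 0)) ?_ ?_ ?_ t a ha
  · intro t a ha hi
    rw [Function.not_injective_iff] at hi
    obtain ⟨i, j, hij, hne⟩ := hi
    have h : a 0 = a 1 := by
      fin_cases i <;> fin_cases j <;> simp at hij hne <;> omega
    simp only [h, sub_self, pf_zero]
  · intro a ha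
    have h01 : a 0 < a 1 := ha (by decide)
    rw [pf_pos (by omega)]
  · intro t a ha
    have h01 : a 0 < a 1 := ha (by decide)
    rw [avg_pair (by decide) (pf t) a, pf_succ t (by omega)]

/-- the value of a walker -/
def Vw (t : ℕ) (a : ℕ) (b n : ℤ) : ℤ := (Td 1)^[t] (3 ^ a * n + b)

theorem inj2 (f : Fin 2 → ℤ) : Function.Injective f ↔ f 0 ≠ f 1 := by
  constructor
  · intro h h01
    exact absurd (h h01) (by decide)
  · intro h i j hij
    fin_cases i <;> fin_cases j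
    · rfl
    · exact absurd hij h
    · exact absurd hij.symm h
    · rfl

theorem inj3 (f : Fin 3 → ℤ) : Function.Injective f ↔ f 0 ≠ f 1 ∧ f 0 ≠ f 2 ∧ f 1 ≠ f 2 := by
  constructor
  · intro h
    exact ⟨fun h01 => absurd (h h01) (by decide), fun h01 => absurd (h h01) (by decide),
      fun h01 => absurd (h h01) (by decide)⟩
  · rintro ⟨h1, h2, h3⟩ i j hij
    fin_cases i <;> fin_cases j
    · rfl
    · exact absurd hij h1
    · exact absurd hij h2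
    · exact absurd hij.symm h1
    · rfl
    · exact absurd hij h3
    · exact absurd hij.symm h2
    · exact absurd hij.symm h3
    · rfl

open Classical in
/-- the probability of two clusters -/
theorem clusters {ε : ℝ} (hε : 0 < ε) : ∃ ρ : ℝ, 0 < ρ ∧ ∃ t₀ K₀ : ℕ, ∀ t : ℕ, t₀ ≤ t →
    ∀ (a0 a1 a2 : ℕ) (b0 b1 b2 : ℤ), a0 ≤ a1 → a1 ≤ a2 → ((a2 : ℝ) - a0) * Real.log t ≤ ρ * t →
    |(b1 : ℝ) - 3 ^ (a1 - a0) * b0| ≤ 3 ^ (a1 - a0) * Real.exp (ρ * t) →
    |(b2 : ℝ) - 3 ^ (a2 - a1) * b1| ≤ 3 ^ (a2 - a1) * Real.exp (ρ * t) →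
    |(b2 : ℝ) - 3 ^ (a2 - a0) * b0| ≤ 3 ^ (a2 - a0) * Real.exp (ρ * t) →
    ∀ L : ℕ, K₀ * 2 ^ t ≤ L →
      (pf t ((a2 : ℤ) - a0) - pf t ((a2 : ℤ) - a1) - ε) * L ≤
        (((Ico (0 : ℤ) L).filter fun n : ℤ => Vw t a0 b0 n ≠ Vw t a1 b1 n ∧ Vw t a1 b1 n = Vw t a2 b2 n).card : ℝ) := by
  obtain ⟨ρ₂, hρ₂, t₂, K₂, H2⟩ := Pool.Agent.Results.MP_d02c56_nt.ArratiaFlow.result.1 2 0 (ε / 3) le_rfl (by positivity)
  obtain ⟨ρ₃, hρ₃, t₃, K₃, H3⟩ := Pool.Agent.Results.MP_d02c56_nt.ArratiaFlow.result.1 3 0 (ε / 3) le_rfl (by positivity)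
  refine ⟨min ρ₂ ρ₃, lt_min hρ₂ hρ₃, t₂ + t₃ + 1, K₂ + K₃, ?_⟩
  intro t ht a0 a1 a2 b0 b1 b2 h01 h12 hsp hb01 hb12 hb02 L hL
  have ht0 : (0 : ℝ) < t := by
    have : 0 < t := by omega
    exact_mod_cast this
  have hlogt : 0 ≤ Real.log t := Real.log_natCast_nonneg t
  have hL2 : K₂ * 2 ^ t ≤ L := le_trans (Nat.mul_le_mul_right _ (by omega)) hL
  have hL3 : K₃ * 2 ^ t ≤ L := le_trans (Nat.mul_le_mul_right _ (by omega)) hL
  have h02 : a0 ≤ a2 := h01.trans h12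
  have h01R : (a0 : ℝ) ≤ a1 := by exact_mod_cast h01
  have h12R : (a1 : ℝ) ≤ a2 := by exact_mod_cast h12
  have hexp : ∀ ρ : ℝ, min ρ₂ ρ₃ ≤ ρ → Real.exp (min ρ₂ ρ₃ * t) ≤ Real.exp (ρ * t) := fun ρ h =>
    Real.exp_le_exp.2 (mul_le_mul_of_nonneg_right h ht0.le)
  have hspr : ∀ ρ : ℝ, min ρ₂ ρ₃ ≤ ρ → ∀ x y : ℝ, (a0 : ℝ) ≤ x → y ≤ a2 → (y - x) * Real.log t ≤ ρ * t := by
    intro ρ h x y hx hy
    calc (y - x) * Real.log t ≤ ((a2 : ℝ) - a0) * Real.log t := mul_le_mul_of_nonneg_right (by linarith) hlogt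
      _ ≤ min ρ₂ ρ₃ * t := hsp
      _ ≤ ρ * t := mul_le_mul_of_nonneg_right h ht0.le
  have hdiag : ∀ ρ : ℝ, ∀ (a : ℕ) (b : ℤ), |(b : ℝ) - 3 ^ (a - a) * b| ≤ 3 ^ (a - a) * Real.exp (ρ * t) := by
    intro ρ a b
    rw [Nat.sub_self, pow_zero, one_mul, sub_self, abs_zero]; positivity
  have hsame : ∀ ρ : ℝ, min ρ₂ ρ₃ ≤ ρ → ∀ (a a' : ℕ) (b b' : ℤ), a ≤ a' → a' ≤ a →
      |(b' : ℝ) - 3 ^ (a' - a) * b| ≤ 3 ^ (a' - a) * Real.exp (min ρ₂ ρ₃ * t) →
      |(b : ℝ) - 3 ^ (a - a') * b'| ≤ 3 ^ (a - a') * Real.exp (ρ * t) := by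
    intro ρ hρ a a' b b' h1 h2 h
    have e : a' = a := le_antisymm h2 h1
    subst e
    rw [Nat.sub_self, pow_zero, one_mul, one_mul] at h ⊢
    rw [abs_sub_comm]
    exact h.trans (hexp ρ hρ)
  have hmk : ∀ ρ : ℝ, min ρ₂ ρ₃ ≤ ρ → ∀ (a a' : ℕ) (b b' : ℤ),
      |(b' : ℝ) - 3 ^ (a' - a) * b| ≤ 3 ^ (a' - a) * Real.exp (min ρ₂ ρ₃ * t) →
      |(b' : ℝ) - 3 ^ (a' - a) * b| ≤ 3 ^ (a' - a) * Real.exp (ρ * t) := by
    intro ρ hρ a a' b b' h
    exact h.trans (mul_le_mul_of_nonneg_left (hexp ρ hρ) (by positivity))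
  have m2 := min_le_left ρ₂ ρ₃
  have m3 := min_le_right ρ₂ ρ₃
  obtain ⟨g2, -, -⟩ := H2 t (by omega) ![a0, a1] ![b0, b1] (by
      intro i j
      apply hspr ρ₂ m2
      · fin_cases i <;> simp <;> first | exact h01 | exact h02
      · fin_cases j <;> simp
        · exact h02
        · exact h12) (by
      intro i j hij
      fin_cases i <;> fin_cases j
      · exact hdiag _ _ _
      · exact hmk ρ₂ m2 _ _ _ _ hb01
      · exact hsame ρ₂ m2 a0 a1 b0 b1 h01 hij hb01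
      · exact hdiag _ _ _) 1 (by norm_num) 1 0 (by norm_num) 0 L hL2
  obtain ⟨g3, -, g3c⟩ := H3 t (by omega) ![a0, a1, a2] ![b0, b1, b2] (by
      intro i j
      apply hspr ρ₃ m3
      · fin_cases i <;> simp <;> first | exact h01 | exact h02
      · fin_cases j <;> simp <;> first | exact h02 | exact h12) (by
      intro i j hij
      fin_cases i <;> fin_cases j
      · exact hdiag _ _ _
      · exact hmk ρ₃ m3 _ _ _ _ hb01
      · exact hmk ρ₃ m3 _ _ _ _ hb02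
      · exact hsame ρ₃ m3 a0 a1 b0 b1 h01 hij hb01
      · exact hdiag _ _ _
      · exact hmk ρ₃ m3 _ _ _ _ hb12
      · exact hsame ρ₃ m3 a0 a2 b0 b2 h02 hij hb02
      · exact hsame ρ₃ m3 a1 a2 b1 b2 h12 hij hb12
      · exact hdiag _ _ _) 1 (by norm_num) 1 0 (by norm_num) 0 L hL3
  have k2 := g2 (fun _ => 1) (fun _ => by rw [abs_one]) (fun x y => by rw [sub_self, abs_zero, zero_mul])
  have k3 := g3 (fun _ => 1) (fun _ => by rw [abs_one]) (fun x y => by rw [sub_self, abs_zero, zero_mul])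
  have k4 := g3c 0 1 2 h01 h12
  rw [Pool.Agent.Q158.Pair.ncard_eq] at k4
  rw [NG_two t _ (by
    intro i j hij
    fin_cases i <;> fin_cases j <;> simp at hij ⊢ <;> omega)] at k2
  rw [NG_three t _ (by
    intro i j hij
    fin_cases i <;> fin_cases j <;> simp at hij ⊢ <;> omega)] at k3
  simp only [inj2, inj3] at k2 k3
  simp only [one_mul, add_zero, zero_add, Matrix.cons_val_zero, Matrix.cons_val_one, Matrix.cons_val] at k2 k3 k4
  set W := Ico (0 : ℤ) L with hW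
  have e2 : ∑ n ∈ W, (if (Pool.Agent.Q74.AR.Td 1)^[t] (3 ^ a0 * n + b0) ≠ (Pool.Agent.Q74.AR.Td 1)^[t] (3 ^ a1 * n + b1)
      then (1 : ℝ) else 0) = ((W.filter fun n : ℤ => Vw t a0 b0 n ≠ Vw t a1 b1 n).card : ℝ) := by
    rw [card_filter]; push_cast; rfl
  have e3 : ∑ n ∈ W, (if (Pool.Agent.Q74.AR.Td 1)^[t] (3 ^ a0 * n + b0) ≠ (Pool.Agent.Q74.AR.Td 1)^[t] (3 ^ a1 * n + b1) ∧
      (Pool.Agent.Q74.AR.Td 1)^[t] (3 ^ a0 * n + b0) ≠ (Pool.Agent.Q74.AR.Td 1)^[t] (3 ^ a2 * n + b2) ∧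
      (Pool.Agent.Q74.AR.Td 1)^[t] (3 ^ a1 * n + b1) ≠ (Pool.Agent.Q74.AR.Td 1)^[t] (3 ^ a2 * n + b2)
      then (1 : ℝ) else 0) = ((W.filter fun n : ℤ => Vw t a0 b0 n ≠ Vw t a1 b1 n ∧ Vw t a0 b0 n ≠ Vw t a2 b2 n ∧
        Vw t a1 b1 n ≠ Vw t a2 b2 n).card : ℝ) := by
    rw [card_filter]; push_cast; rfl
  rw [e2] at k2
  rw [e3] at k3
  have hsub : (W.filter fun n : ℤ => Vw t a0 b0 n ≠ Vw t a1 b1 n) ⊆
      (W.filter fun n : ℤ => Vw t a0 b0 n ≠ Vw t a1 b1 n ∧ Vw t a1 b1 n = Vw t a2 b2 n) ∪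
      ((W.filter fun n : ℤ => Vw t a0 b0 n ≠ Vw t a1 b1 n ∧ Vw t a0 b0 n ≠ Vw t a2 b2 n ∧
        Vw t a1 b1 n ≠ Vw t a2 b2 n) ∪
      (W.filter fun n : ℤ => Vw t a0 b0 n = Vw t a2 b2 n ∧ Vw t a1 b1 n ≠ Vw t a0 b0 n)) := by
    intro n hn
    rw [mem_filter] at hn
    rw [mem_union, mem_union, mem_filter, mem_filter, mem_filter]
    by_cases h5 : Vw t a1 b1 n = Vw t a2 b2 n
    · left; exact ⟨hn.1, hn.2, h5⟩
    · by_cases h6 : Vw t a0 b0 n = Vw t a2 b2 n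
      · right; right; exact ⟨hn.1, h6, fun h => hn.2 h.symm⟩
      · right; left; exact ⟨hn.1, hn.2, h6, h5⟩
  have hc := (card_le_card hsub).trans ((card_union_le _ _).trans (Nat.add_le_add_left (card_union_le _ _) _))
  have hcR : ((W.filter fun n : ℤ => Vw t a0 b0 n ≠ Vw t a1 b1 n).card : ℝ) ≤
      (W.filter fun n : ℤ => Vw t a0 b0 n ≠ Vw t a1 b1 n ∧ Vw t a1 b1 n = Vw t a2 b2 n).card +
      ((W.filter fun n : ℤ => Vw t a0 b0 n ≠ Vw t a1 b1 n ∧ Vw t a0 b0 n ≠ Vw t a2 b2 n ∧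
        Vw t a1 b1 n ≠ Vw t a2 b2 n).card +
      (W.filter fun n : ℤ => Vw t a0 b0 n = Vw t a2 b2 n ∧ Vw t a1 b1 n ≠ Vw t a0 b0 n).card) := by
    exact_mod_cast hc
  have k4' : ((W.filter fun n : ℤ => Vw t a0 b0 n = Vw t a2 b2 n ∧ Vw t a1 b1 n ≠ Vw t a0 b0 n).card : ℝ) ≤ ε / 3 * L := by
    refine le_trans (le_of_eq ?_) k4
    rfl
  have f2 := (abs_le.1 k2).1
  have f3 := (abs_le.1 k3).2
  linarith

/-- the number of odd terms -/
def od : ℕ → ℤ → ℕ
  | 0, _ => 0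
  | t + 1, x => (if x % 2 = 0 then 0 else 1) + od t (Td 1 x)

theorem Td_aff (t : ℕ) : ∀ x j : ℤ, (Td 1)^[t] (x + 2 ^ t * j) = (Td 1)^[t] x + 3 ^ od t x * j := by
  induction t with
  | zero => intro x j; simp [od]
  | succ t ih =>
    intro x j
    rw [Function.iterate_succ_apply, Function.iterate_succ_apply]
    by_cases h : x % 2 = 0
    · have e : Td 1 (x + 2 ^ (t + 1) * j) = Td 1 x + 2 ^ t * j := by
        apply Td_ev
        have : Td 1 x = x / 2 := by unfold Td; rw [if_pos h]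
        rw [this, pow_succ]
        have h2 : x = 2 * (x / 2) := by omega
        linear_combination h2
      rw [e, ih]
      simp only [od, h, if_true, zero_add]
    · have h2 : x = 2 * (x / 2) + 1 := by omega
      have e : Td 1 (x + 2 ^ (t + 1) * j) = Td 1 x + 2 ^ t * (3 * j) := by
        have e1 : Td 1 x = 3 * (x / 2) + 2 := Td_od h2
        rw [Td_od (y := x / 2 + 2 ^ t * j) (by rw [pow_succ]; linear_combination h2), e1]
        ring
      rw [e, ih]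
      simp only [od, h, if_false]
      rw [pow_add]
      ring

theorem od_le (t : ℕ) : ∀ x : ℤ, od t x ≤ t := by
  induction t with
  | zero => intro x; simp [od]
  | succ t ih =>
    intro x
    have := ih (Td 1 x)
    simp only [od]
    split_ifs <;> omega

theorem Td_abs (x : ℤ) : |Td 1 x| ≤ 2 * |x| := by
  unfold Td
  split_ifs with h
  · rw [abs_le]; have h1 := le_abs_self x; have h2 := neg_abs_le x; constructor <;> omega
  · rw [abs_le]; have h1 := le_abs_self x; have h2 := neg_abs_le x; constructor <;> omega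

theorem Td_iter_abs (t : ℕ) : ∀ x : ℤ, |(Td 1)^[t] x| ≤ 2 ^ t * |x| := by
  induction t with
  | zero => intro x; simp
  | succ t ih =>
    intro x
    rw [Function.iterate_succ_apply]
    have h1 := ih (Td 1 x)
    have h2 := mul_le_mul_of_nonneg_left (Td_abs x) (show (0 : ℤ) ≤ 2 ^ t by positivity)
    rw [pow_succ]; linarith

theorem Td_ne {x : ℤ} (h : x ≠ 0) : Td 1 x ≠ 0 := by
  unfold Td
  split_ifs with h1 <;> omega

theorem od_low (t : ℕ) : ∀ x : ℤ, x ≠ 0 → 2 ^ t ≤ |x| * 4 ^ od t x := by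
  induction t with
  | zero => intro x hx; simp only [od, pow_zero, mul_one]; exact Int.one_le_abs hx
  | succ t ih =>
    intro x hx
    have h1 := ih (Td 1 x) (Td_ne hx)
    by_cases h : x % 2 = 0
    · have e : Td 1 x = x / 2 := by unfold Td; rw [if_pos h]
      have h2 : x = 2 * (x / 2) := by omega
      simp only [od, h, if_true, zero_add]
      rw [e] at h1 ⊢
      have h3 : |x| = 2 * |x / 2| := by
        conv_lhs => rw [h2]
        rw [abs_mul]; norm_num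
      rw [h3, pow_succ]; linarith
    · simp only [od, h, if_false]
      have h3 : |Td 1 x| * 2 ≤ 4 * |x| := by have := Td_abs x; linarith
      have h4 := mul_le_mul_of_nonneg_right h3 (show (0 : ℤ) ≤ 4 ^ od t (Td 1 x) by positivity)
      rw [pow_succ, pow_add, pow_one]; linarith

open Classical in
theorem cross {ε : ℝ} (hε : 0 < ε) : ∃ ρ : ℝ, 0 < ρ ∧ ∃ t₀ K₀ : ℕ, ∀ t : ℕ, t₀ ≤ t →
    ∀ (a0 a1 a2 : ℕ) (b0 b1 b2 : ℤ), a0 ≤ a1 → a1 ≤ a2 →
    |(b1 : ℝ) - 3 ^ (a1 - a0) * b0| ≤ 3 ^ (a1 - a0) * Real.exp (ρ * t) →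
    |(b2 : ℝ) - 3 ^ (a2 - a1) * b1| ≤ 3 ^ (a2 - a1) * Real.exp (ρ * t) →
    |(b2 : ℝ) - 3 ^ (a2 - a0) * b0| ≤ 3 ^ (a2 - a0) * Real.exp (ρ * t) →
    ∀ L : ℕ, K₀ * 2 ^ t ≤ L →
      (((Ico (0 : ℤ) L).filter fun n : ℤ => Vw t a0 b0 n = Vw t a2 b2 n ∧ Vw t a1 b1 n ≠ Vw t a0 b0 n).card : ℝ) ≤ ε * L := by
  obtain ⟨ρ, hρ, t₀, K₀, H⟩ := Pool.Agent.Q74.KP.no_cross hε
  refine ⟨ρ, hρ, t₀, K₀, ?_⟩
  intro t ht a0 a1 a2 b0 b1 b2 h01 h12 hb01 hb12 hb02 L hL
  have h := H t ht ![a0, a1, a2] ![b0, b1, b2] (by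
      intro i j hij
      fin_cases i <;> fin_cases j <;> simp at hij ⊢ <;> omega) (by
      intro i j hij
      push_cast
      fin_cases i <;> fin_cases j
      · exact absurd hij (by decide)
      · exact hb01
      · exact hb02
      · exact absurd hij (by decide)
      · exact absurd hij (by decide)
      · exact hb12
      · exact absurd hij (by decide)
      · exact absurd hij (by decide)
      · exact absurd hij (by decide)) 1 (by norm_num) 1 0 (by norm_num) 0 L hL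
  rw [Pool.Agent.Q158.Pair.ncard_eq] at h
  simp only [Pool.Agent.Q74.KP.Vd, Pool.Agent.Q74.KP.Yd, one_mul, add_zero, zero_add, Matrix.cons_val_zero,
    Matrix.cons_val_one, Matrix.cons_val] at h
  refine le_trans (le_of_eq ?_) h
  rfl

theorem Erf_diff {x y : ℝ} (hy : 0 ≤ y) (hx : x ≤ 1) (hxy : 1 / 3 ≤ x - y) : 0.13 ≤ Erf x - Erf y := by
  unfold Erf
  have hcont : Continuous fun u : ℝ => Real.exp (-u ^ 2) := by fun_prop
  have e : (2 / √Real.pi * ∫ u in (0 : ℝ)..x, Real.exp (-u ^ 2)) - (2 / √Real.pi * ∫ u in (0 : ℝ)..y, Real.exp (-u ^ 2))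
      = 2 / √Real.pi * ∫ u in y..x, Real.exp (-u ^ 2) := by
    rw [← mul_sub, intervalIntegral.integral_interval_sub_left (hcont.intervalIntegrable _ _) (hcont.intervalIntegrable _ _)]
  rw [e]
  have h1 : (x - y) * Real.exp (-1) ≤ ∫ u in y..x, Real.exp (-u ^ 2) := by
    have h2 : ∫ _ in y..x, Real.exp (-1) ≤ ∫ u in y..x, Real.exp (-u ^ 2) := by
      apply intervalIntegral.integral_mono_on (by linarith) (by simp) (hcont.intervalIntegrable _ _)
      intro u hu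
      apply Real.exp_le_exp.2
      have : u ^ 2 ≤ 1 := by
        have h3 : 0 ≤ u := hy.trans hu.1
        have h4 : u ≤ 1 := hu.2.trans hx
        nlinarith
      linarith
    rwa [intervalIntegral.integral_const, smul_eq_mul] at h2
  have h2 : (0.367 : ℝ) ≤ Real.exp (-1) := by
    rw [Real.exp_neg]
    have h3 := Real.exp_one_lt_d9
    rw [← one_div, le_div_iff₀ (Real.exp_pos 1)]
    linarith
  have h3 : √Real.pi ≤ 1.78 := by
    rw [Real.sqrt_le_left (by norm_num)]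
    have := Real.pi_lt_d2
    norm_num at this ⊢
    linarith
  have h4 : 0 < √Real.pi := Real.sqrt_pos.2 Real.pi_pos
  have h5 : (1.12 : ℝ) ≤ 2 / √Real.pi := by
    rw [le_div_iff₀ h4]; linarith
  have h6 : (0.122 : ℝ) ≤ (x - y) * Real.exp (-1) := by nlinarith
  calc (0.13 : ℝ) ≤ 1.12 * 0.122 := by norm_num
    _ ≤ 2 / √Real.pi * ∫ u in y..x, Real.exp (-u ^ 2) := mul_le_mul h5 (h6.trans h1) (by norm_num) (by positivity)

end Pool.Agent.KS6_32.CL
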