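import Pool.Agent.KS6_32.CL.Iso

/-! Classes of integers that are isolated from their neighbours, existence. -/

set_option autoImplicit false

namespace Pool.Agent.KS6_32.CL

open Finset Filter Topology
open Pool.Agent.H499R2.ND (Td)
open Pool.Agent.Q74.KP (NG Erf pf NG_unique NG_three pf_zero pf_pos pf_succ avg_pair pf_lim)

/-- choice of the scale -/
theorem scale (ρ : ℝ) (hρ : 0 < ρ) (t₀ κ : ℕ) : ∃ τ : ℕ, 1 ≤ τ ∧ t₀ ≤ τ ^ 2 ∧ 3 * κ ≤ τ ∧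
    (τ : ℝ) * Real.log ((τ ^ 2 : ℕ) : ℝ) ≤ ρ * ((τ ^ 2 : ℕ) : ℝ) ∧
    2 * ((2 : ℝ) ^ κ * 2 ^ τ) ≤ Real.exp (ρ * ((τ ^ 2 : ℕ) : ℝ)) := by
  have h1 : ∀ᶠ x : ℝ in atTop, 2 * Real.log x ≤ ρ * x := by
    have h := Real.isLittleO_log_id_atTop.bound (show 0 < ρ / 2 by positivity)
    filter_upwards [h, eventually_ge_atTop 1] with x hx hx1
    rw [Real.norm_of_nonneg (Real.log_nonneg hx1), id, Real.norm_of_nonneg (by linarith)] at hx
    linarith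
  have h2 := (tendsto_natCast_atTop_atTop (R := ℝ)).eventually h1
  obtain ⟨N, hN⟩ := eventually_atTop.1 h2
  obtain ⟨M, hM⟩ := exists_nat_ge ((κ + 2) / ρ)
  refine ⟨N + t₀ + 3 * κ + M + 1 + ⌈1 / ρ⌉₊, by omega, ?_, by omega, ?_, ?_⟩
  · calc t₀ ≤ N + t₀ + 3 * κ + M + 1 + ⌈1 / ρ⌉₊ := by omega
      _ ≤ (N + t₀ + 3 * κ + M + 1 + ⌈1 / ρ⌉₊) ^ 2 := Nat.le_self_pow (by norm_num) _
  · have h3 := hN (N + t₀ + 3 * κ + M + 1 + ⌈1 / ρ⌉₊) (by omega)
    set τ := N + t₀ + 3 * κ + M + 1 + ⌈1 / ρ⌉₊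
    push_cast
    rw [Real.log_pow]
    push_cast
    have h4 := mul_le_mul_of_nonneg_left h3 (Nat.cast_nonneg (α := ℝ) τ)
    linarith
  · set τ := N + t₀ + 3 * κ + M + 1 + ⌈1 / ρ⌉₊ with hτ
    have hM1 : (κ + 2 : ℝ) ≤ ρ * M := by
      rw [div_le_iff₀ hρ] at hM; linarith
    have h5 : (1 : ℝ) ≤ ρ * ⌈1 / ρ⌉₊ := by
      have := Nat.le_ceil (1 / ρ)
      rw [div_le_iff₀ hρ] at this; linarith
    have hτ1 : (M : ℝ) + ⌈1 / ρ⌉₊ + 1 ≤ τ := by
      have : M + ⌈1 / ρ⌉₊ + 1 ≤ τ := by omega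
      exact_mod_cast this
    have hτ0 : (1 : ℝ) ≤ τ := by
      have := Nat.cast_nonneg (α := ℝ) M
      have := Nat.cast_nonneg (α := ℝ) ⌈1 / ρ⌉₊
      linarith
    have h6 : (κ : ℝ) + 1 + τ ≤ ρ * τ ^ 2 := by
      have h7 : (κ + 3 : ℝ) ≤ ρ * τ := by
        have := mul_le_mul_of_nonneg_left hτ1 hρ.le
        nlinarith
      have h8 := mul_le_mul_of_nonneg_right h7 (show (0 : ℝ) ≤ τ by linarith)
      have hκ : (0 : ℝ) ≤ κ := Nat.cast_nonneg _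
      nlinarith
    have h7 : 2 * ((2 : ℝ) ^ κ * 2 ^ τ) = Real.exp (Real.log 2 * (κ + 1 + τ)) := by
      have e : Real.log 2 * ((κ : ℝ) + 1 + τ) = Real.log (2 ^ (κ + 1 + τ)) := by
        rw [Real.log_pow]; push_cast; ring
      rw [e, Real.exp_log (by positivity), pow_add, pow_add]; ring
    rw [h7]
    apply Real.exp_le_exp.2
    have l2 := Real.log_two_lt_d9
    have l2' := Real.log_two_gt_d9
    have hκ : (0 : ℝ) ≤ κ := Nat.cast_nonneg _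
    push_cast
    nlinarith

open Classical in
/-- ISOLATED CLASSES. -/
theorem isolated (κ : ℕ) : ∃ (T : ℕ) (R : ℤ) (A : ℕ) (P : ℤ) (B : ℕ) (Q : ℤ), (A, P) ≠ (B, Q) ∧ ∀ y : ℤ,
    (Td 1)^[T] (2 ^ T * y + R) = 3 ^ A * y + P ∧
    ∀ h : ℤ, h ≠ 0 → |h| ≤ 2 ^ κ → (Td 1)^[T] (2 ^ T * y + R + h) = 3 ^ B * y + Q := by
  set H : Finset ℤ := (Icc (-2 ^ κ : ℤ) (2 ^ κ)).erase 0 with hH
  have hmemH : ∀ h : ℤ, h ∈ H ↔ h ≠ 0 ∧ |h| ≤ 2 ^ κ := by
    intro h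
    rw [hH, mem_erase, mem_Icc, abs_le]
  have hHne : H.Nonempty := ⟨1, by
    rw [hmemH]; exact ⟨one_ne_zero, by rw [abs_one]; exact one_le_pow₀ (by norm_num)⟩⟩
  have hHc : 0 < (H.card : ℝ) := by exact_mod_cast hHne.card_pos
  obtain ⟨ρ₁, hρ₁, t₁, K₁, H1⟩ := clusters (show (0 : ℝ) < 0.01 by norm_num)
  obtain ⟨ρ₂, hρ₂, t₂, K₂, H2⟩ := cross (show (0 : ℝ) < 0.01 / H.card by positivity)
  obtain ⟨t₃, H3⟩ := pf_lim (show (0 : ℝ) < 0.01 by norm_num)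
  obtain ⟨τ, hτ1, hτt, hτκ, hτlog, hτexp⟩ := scale (min ρ₁ ρ₂) (lt_min hρ₁ hρ₂) (t₁ + t₂ + t₃) κ
  set t := τ ^ 2 with ht
  have hτ0 : (0 : ℝ) < τ := by exact_mod_cast hτ1
  have htR : (t : ℝ) = (τ : ℝ) ^ 2 := by rw [ht]; push_cast; ring
  have ht0 : (0 : ℝ) ≤ t := Nat.cast_nonneg _
  have hsqrt : √ (t : ℝ) = τ := by rw [htR, Real.sqrt_sq hτ0.le]
  set a : ℤ → ℕ := fun h => od τ h with ha
  set b : ℤ → ℤ := fun h => (Td 1)^[τ] h with hb
  have ha_le : ∀ h, a h ≤ τ := fun h => od_le τ h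
  have ha_low : ∀ h ∈ H, τ ≤ 3 * a h := by
    intro h hh
    rw [hmemH] at hh
    have h1 := od_low τ h hh.1
    have h2 : (2 : ℤ) ^ τ ≤ 2 ^ (κ + 2 * a h) := by
      calc (2 : ℤ) ^ τ ≤ |h| * 4 ^ od τ h := h1
        _ ≤ 2 ^ κ * 4 ^ od τ h := mul_le_mul_of_nonneg_right hh.2 (by positivity)
        _ = 2 ^ (κ + 2 * a h) := by rw [pow_add, pow_mul, ha]; norm_num
    have h3 : τ ≤ κ + 2 * a h := (pow_le_pow_iff_right₀ (by norm_num)).1 h2
    omega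
  have hb_abs : ∀ h : ℤ, |h| ≤ 2 ^ κ → |(b h : ℝ)| ≤ 2 ^ κ * 2 ^ τ := by
    intro h hh
    have h1 := Td_iter_abs τ h
    have h2 : |b h| ≤ 2 ^ κ * 2 ^ τ := by
      calc |b h| ≤ 2 ^ τ * |h| := h1
        _ ≤ 2 ^ τ * 2 ^ κ := mul_le_mul_of_nonneg_left hh (by positivity)
        _ = 2 ^ κ * 2 ^ τ := mul_comm _ _
    exact_mod_cast h2
  have hcst : ∀ ρ : ℝ, min ρ₁ ρ₂ ≤ ρ → ∀ h h' : ℤ, |h| ≤ 2 ^ κ → |h'| ≤ 2 ^ κ → 
      |(b h' : ℝ) - 3 ^ (a h' - a h) * b h| ≤ 3 ^ (a h' - a h) * Real.exp (ρ * t) := by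
    intro ρ hρ h h' hh hh'
    have h3 : (1 : ℝ) ≤ 3 ^ (a h' - a h) := one_le_pow₀ (by norm_num)
    calc |(b h' : ℝ) - 3 ^ (a h' - a h) * b h| ≤ |(b h' : ℝ)| + |3 ^ (a h' - a h) * (b h : ℝ)| := abs_sub _ _
      _ = |(b h' : ℝ)| + 3 ^ (a h' - a h) * |(b h : ℝ)| := by
          rw [abs_mul, abs_of_pos (show (0 : ℝ) < 3 ^ (a h' - a h) by positivity)]
      _ ≤ 2 ^ κ * 2 ^ τ + 3 ^ (a h' - a h) * (2 ^ κ * 2 ^ τ) := 
          add_le_add (hb_abs h' hh') (mul_le_mul_of_nonneg_left (hb_abs h hh) (by positivity))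
      _ ≤ 3 ^ (a h' - a h) * (2 * (2 ^ κ * 2 ^ τ)) := by
          have : (0 : ℝ) ≤ 2 ^ κ * 2 ^ τ := by positivity
          nlinarith
      _ ≤ 3 ^ (a h' - a h) * Real.exp (min ρ₁ ρ₂ * t) := mul_le_mul_of_nonneg_left hτexp (by positivity)
      _ ≤ 3 ^ (a h' - a h) * Real.exp (ρ * t) := by
          apply mul_le_mul_of_nonneg_left _ (by positivity)
          apply Real.exp_le_exp.2
          exact mul_le_mul_of_nonneg_right hρ ht0
  have ha0 : a 0 = 0 := by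
    have : ∀ s : ℕ, od s 0 = 0 := by
      intro s
      induction s with
      | zero => rfl
      | succ s ih =>
        have e : Td 1 0 = 0 := by decide
        simp only [od, e, ih]; norm_num
    exact this τ
  have h0κ : |(0 : ℤ)| ≤ 2 ^ κ := by rw [abs_zero]; positivity
  obtain ⟨h1, h1H, hmin⟩ := exists_min_image H a hHne
  obtain ⟨h2, h2H, hmax⟩ := exists_max_image H a hHne
  have h1κ := ((hmemH h1).1 h1H).2
  have h2κ := ((hmemH h2).1 h2H).2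
  set K₀ := K₁ + K₂ + 20 with hK₀
  set L := K₀ * 2 ^ t with hL
  have hL1 : K₁ * 2 ^ t ≤ L := Nat.mul_le_mul_right _ (by omega)
  have hL2 : K₂ * 2 ^ t ≤ L := Nat.mul_le_mul_right _ (by omega)
  have hLpos : (0 : ℝ) < L := by rw [hL]; positivity
  have g1 := H1 t (by omega) (a 0) (a h1) (a h2) (b 0) (b h1) (b h2) (by rw [ha0]; omega) (hmin h2 h2H) (by
      rw [ha0]
      have h3 : (a h2 : ℝ) ≤ τ := by exact_mod_cast ha_le h2
      have h4 : 0 ≤ Real.log (t : ℝ) := Real.log_natCast_nonneg t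
      calc ((a h2 : ℝ) - (0 : ℕ)) * Real.log t ≤ τ * Real.log t := by
            apply mul_le_mul_of_nonneg_right _ h4
            push_cast; linarith
        _ ≤ min ρ₁ ρ₂ * t := hτlog
        _ ≤ ρ₁ * t := mul_le_mul_of_nonneg_right (min_le_left _ _) ht0) 
      (hcst ρ₁ (min_le_left _ _) 0 h1 h0κ h1κ) (hcst ρ₁ (min_le_left _ _) h1 h2 h1κ h2κ)
      (hcst ρ₁ (min_le_left _ _) 0 h2 h0κ h2κ) L hL1
  -- the numerical bound
  have hnum : (0.1 : ℝ) ≤ pf t ((a h2 : ℤ) - a 0) - pf t ((a h2 : ℤ) - a h1) - 0.01 := by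
    have p1 := H3 t (by omega) ((a h2 : ℤ) - a 0) (by rw [ha0]; omega)
    have p2 := H3 t (by omega) ((a h2 : ℤ) - a h1) (by have := hmin h2 h2H; omega)
    rw [hsqrt] at p1 p2
    have q1 := (abs_le.1 p1.1).1
    have q2 := (abs_le.1 p2.1).2
    have h3 : (a h2 : ℝ) ≤ τ := by exact_mod_cast ha_le h2
    have h4 : (τ : ℝ) ≤ 3 * a h1 := by exact_mod_cast ha_low h1 h1H
    have h5 : (a h1 : ℝ) ≤ a h2 := by exact_mod_cast hmin h2 h2H
    have hE := Erf_diff (x := ((((a h2 : ℤ) - a 0 : ℤ)) : ℝ) / τ) (y := ((((a h2 : ℤ) - a h1 : ℤ)) : ℝ) / τ) (by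
        push_cast
        apply div_nonneg _ hτ0.le
        linarith) (by
        rw [ha0, div_le_one hτ0]; push_cast; linarith) (by
        rw [ha0, ← sub_div, le_div_iff₀ hτ0]; push_cast; linarith)
    linarith
  -- the event
  set E := (Ico (0 : ℤ) L).filter fun n : ℤ => Vw t (a 0) (b 0) n ≠ Vw t (a h1) (b h1) n ∧
    ∀ h ∈ H, Vw t (a h) (b h) n = Vw t (a h1) (b h1) n with hE
  have hEcard : (2 : ℝ) ^ t < E.card := by
    have hsub : ((Ico (0 : ℤ) L).filter fun n : ℤ => Vw t (a 0) (b 0) n ≠ Vw t (a h1) (b h1) n ∧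
        Vw t (a h1) (b h1) n = Vw t (a h2) (b h2) n) ⊆ E ∪ H.biUnion fun h => (Ico (0 : ℤ) L).filter fun n : ℤ =>
          Vw t (a h1) (b h1) n = Vw t (a h2) (b h2) n ∧ Vw t (a h) (b h) n ≠ Vw t (a h1) (b h1) n := by
      intro n hn
      rw [mem_filter] at hn
      rw [mem_union, mem_biUnion, hE, mem_filter]
      by_cases hc : ∀ h ∈ H, Vw t (a h) (b h) n = Vw t (a h1) (b h1) n
      · left; exact ⟨hn.1, hn.2.1, hc⟩
      · right
        push Not at hc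
        obtain ⟨h, hh, hne⟩ := hc
        exact ⟨h, hh, mem_filter.2 ⟨hn.1, hn.2.2, hne⟩⟩
    have hc := (card_le_card hsub).trans ((card_union_le _ _).trans (Nat.add_le_add_left card_biUnion_le _))
    have hcR : (((Ico (0 : ℤ) L).filter fun n : ℤ => Vw t (a 0) (b 0) n ≠ Vw t (a h1) (b h1) n ∧
        Vw t (a h1) (b h1) n = Vw t (a h2) (b h2) n).card : ℝ) ≤ E.card + ∑ h ∈ H,
        (((Ico (0 : ℤ) L).filter fun n : ℤ =>
          Vw t (a h1) (b h1) n = Vw t (a h2) (b h2) n ∧ Vw t (a h) (b h) n ≠ Vw t (a h1) (b h1) n).card : ℝ) := by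
      exact_mod_cast hc
    have hcr : ∀ h ∈ H, (((Ico (0 : ℤ) L).filter fun n : ℤ =>
          Vw t (a h1) (b h1) n = Vw t (a h2) (b h2) n ∧ Vw t (a h) (b h) n ≠ Vw t (a h1) (b h1) n).card : ℝ)
          ≤ 0.01 / H.card * L := by
      intro h hh
      have hhκ := ((hmemH h).1 hh).2
      exact H2 t (by omega) (a h1) (a h) (a h2) (b h1) (b h) (b h2) (hmin h hh) (hmax h hh)
        (hcst ρ₂ (min_le_right _ _) h1 h h1κ hhκ) (hcst ρ₂ (min_le_right _ _) h h2 hhκ h2κ)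
        (hcst ρ₂ (min_le_right _ _) h1 h2 h1κ h2κ) L hL2
    have hs := sum_le_sum hcr
    rw [sum_const, nsmul_eq_mul] at hs
    have e : (H.card : ℝ) * (0.01 / H.card * L) = 0.01 * L := by field_simp
    rw [e] at hs
    have h3 := mul_le_mul_of_nonneg_right hnum hLpos.le
    have h4 : 0.09 * (L : ℝ) ≤ E.card := by linarith
    have h5 : (20 : ℝ) * 2 ^ t ≤ L := by
      rw [hL]; push_cast
      apply mul_le_mul_of_nonneg_right _ (by positivity)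
      rw [hK₀]; push_cast
      have := Nat.cast_nonneg (α := ℝ) K₁
      have := Nat.cast_nonneg (α := ℝ) K₂
      linarith
    have h6 : (0 : ℝ) < 2 ^ t := by positivity
    linarith
  have hEcardN : 2 ^ t < E.card := by exact_mod_cast hEcard
  -- pigeonhole
  have h2t : (0 : ℤ) < 2 ^ t := by positivity
  obtain ⟨n1, hn1, n2, hn2, hne, heq⟩ := exists_ne_map_eq_of_card_lt_of_maps_to (s := E) (t := Ico (0 : ℤ) (2 ^ t))
    (f := fun n => n % 2 ^ t) (by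
      rw [Int.card_Ico]
      have : ((2 : ℤ) ^ t - 0).toNat = 2 ^ t := by
        rw [sub_zero]
        have : ((2 : ℤ) ^ t) = ((2 ^ t : ℕ) : ℤ) := by push_cast; rfl
        rw [this, Int.toNat_natCast]
      rw [this]
      exact hEcardN) (by
      intro n _
      rw [mem_coe, mem_Ico]
      exact ⟨Int.emod_nonneg _ h2t.ne', Int.emod_lt_of_pos _ h2t⟩)
  set r := n1 % 2 ^ t with hr
  set y1 := n1 / 2 ^ t with hy1
  set y2 := n2 / 2 ^ t with hy2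
  have e1 : n1 = r + 2 ^ t * y1 := by rw [hr, hy1]; exact (Int.emod_add_mul_ediv n1 (2 ^ t)).symm
  have e2 : n2 = r + 2 ^ t * y2 := by rw [heq, hy2]; exact (Int.emod_add_mul_ediv n2 (2 ^ t)).symm
  have hy : y1 ≠ y2 := by
    intro h
    apply hne
    rw [e1, e2, h]
  -- the forms
  set AA : ℤ → ℕ := fun h => a h + od t (3 ^ a h * r + b h) with hAA
  set PP : ℤ → ℤ := fun h => (Td 1)^[t] (3 ^ a h * r + b h) with hPP
  have hV : ∀ h y : ℤ, Vw t (a h) (b h) (r + 2 ^ t * y) = 3 ^ AA h * y + PP h := by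
    intro h y
    unfold Vw
    have e : 3 ^ a h * (r + 2 ^ t * y) + b h = (3 ^ a h * r + b h) + 2 ^ t * (3 ^ a h * y) := by ring
    rw [e, Td_aff, hAA, hPP, pow_add]
    ring
  rw [hE, mem_filter] at hn1 hn2
  obtain ⟨-, hn1a, hn1b⟩ := hn1
  obtain ⟨-, hn2a, hn2b⟩ := hn2
  have hforms : ∀ h ∈ H, AA h = AA h1 ∧ PP h = PP h1 := by
    intro h hh
    have f1 := hn1b h hh
    have f2 := hn2b h hh
    rw [e1, hV, hV] at f1
    rw [e2, hV, hV] at f2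
    have f3 : ((3 : ℤ) ^ AA h - 3 ^ AA h1) * (y1 - y2) = 0 := by linear_combination f1 - f2
    rcases mul_eq_zero.1 f3 with f4 | f4
    · have f5 : AA h = AA h1 := by
        have : (3 : ℤ) ^ AA h = 3 ^ AA h1 := by linarith
        exact Int.pow_right_injective (by norm_num) this
      refine ⟨f5, ?_⟩
      rw [f5] at f1
      linarith
    · exact absurd (by linarith) hy
  refine ⟨τ + t, 2 ^ τ * r, AA 0, PP 0, AA h1, PP h1, ?_, ?_⟩
  · intro hcon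
    rw [Prod.mk.injEq] at hcon
    apply hn1a
    rw [e1, hV, hV, hcon.1, hcon.2]
  · intro y
    have key : ∀ h : ℤ, (Td 1)^[τ + t] (2 ^ (τ + t) * y + 2 ^ τ * r + h) = 3 ^ AA h * y + PP h := by
      intro h
      rw [add_comm τ t, Function.iterate_add_apply]
      have e : (2 : ℤ) ^ (t + τ) * y + 2 ^ τ * r + h = h + 2 ^ τ * (r + 2 ^ t * y) := by rw [pow_add]; ring
      rw [e, Td_aff, ← hV]
      unfold Vw
      congr 1
      rw [ha, hb]
      ring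
    refine ⟨by simpa using key 0, ?_⟩
    intro h hh hh2
    obtain ⟨f1, f2⟩ := hforms h ((hmemH h).2 ⟨hh, hh2⟩)
    rw [key, f1, f2]

end Pool.Agent.KS6_32.CL
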