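import Pool.Agent.KS6_32.CL.E3
import Pool.Agent.KS6_32.BD.Near

/-! The averages over the odd integers of the cells `[a, b)` and `[2 a, 2 b)` are close if few integers `n` of ONE
class modulo `3 ^ m` have `f (n + δ) ≠ f n`. -/

set_option autoImplicit false

namespace Pool.Agent.KS6_32.CL

open Pool.Agent.H320R2.PD Pool.Agent.H499R2.ND Pool.Agent.H499R2.CO Pool.Agent.W41.FU Finset
open Pool.Agent.Y965.SI Pool.Agent.KS6_32.BD

theorem AS_abs {g : ℤ → ℝ} (hg : ∀ x, |g x| ≤ 1) {a b : ℝ} (hab : a ≤ b) : |AS g a b| ≤ (b - a) + 1 := by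
  refine le_trans ?_ (AS_card hab)
  unfold AS
  refine (abs_sum_le_sum_abs _ _).trans ?_
  exact sum_le_sum fun x _ => hg x

theorem AS_shift {g : ℤ → ℝ} (hg : ∀ x, |g x| ≤ 1) {a b : ℝ} (hab : a ≤ b) (s : ℝ) :
    |AS g (a + s) (b + s) - AS g a b| ≤ 2 * (|s| + 1) := by
  rcases le_total 0 s with hs | hs
  · have h1 := AS_add g (a := a) (b := a + s) (c := b + s) (by linarith) (by linarith)
    have h2 := AS_add g (a := a) (b := b) (c := b + s) hab (by linarith)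
    have h3 := AS_abs hg (a := a) (b := a + s) (by linarith)
    have h4 := AS_abs hg (a := b) (b := b + s) (by linarith)
    rw [abs_of_nonneg hs]
    rw [abs_le] at *
    constructor <;> linarith [h3.1, h3.2, h4.1, h4.2]
  · have h1 := AS_add g (a := a + s) (b := a) (c := b) (by linarith) hab
    have h2 := AS_add g (a := a + s) (b := b + s) (c := b) (by linarith) (by linarith)
    have h3 := AS_abs hg (a := a + s) (b := a) (by linarith)
    have h4 := AS_abs hg (a := b + s) (b := b) (by linarith)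
    rw [abs_of_nonpos hs]
    rw [abs_le] at *
    constructor <;> linarith [h3.1, h3.2, h4.1, h4.2]

/-- odd and even integers -/
theorem AS_split2 (g : ℤ → ℝ) (a b : ℝ) : AS g a b = OS g a b + AS (fun x => g (2 * x)) (a / 2) (b / 2) := by
  classical
  have h1 : AS g a b = ∑ x ∈ (Ico ⌈a⌉ ⌈b⌉).filter (fun x => Odd x), g x
      + ∑ x ∈ (Ico ⌈a⌉ ⌈b⌉).filter (fun x => ¬ Odd x), g x := by
    unfold AS
    rw [sum_filter_add_sum_filter_not]
  have h2 : OS g a b = ∑ x ∈ (Ico ⌈a⌉ ⌈b⌉).filter (fun x => Odd x), g x := by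
    unfold OS WS
    apply sum_congr _ (fun _ _ => rfl)
    ext x
    rw [mem_odd, mem_filter, mem_win]
  rw [h1, h2]
  congr 1
  unfold AS
  refine sum_bij' (fun x _ => x / 2) (fun x _ => 2 * x) ?_ ?_ ?_ ?_ ?_
  · intro x hx
    rw [mem_filter, mem_win, Int.not_odd_iff_even] at hx
    obtain ⟨t, ht⟩ := hx.2
    have e : x / 2 = t := by omega
    have e2 : (x : ℝ) = t + t := by exact_mod_cast ht
    rw [e, mem_win]
    rw [e2] at hx
    constructor <;> linarith [hx.1.1, hx.1.2]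
  · intro x hx
    rw [mem_win] at hx
    rw [mem_filter, mem_win, Int.not_odd_iff_even]
    push_cast
    refine ⟨⟨by linarith [hx.1], by linarith [hx.2]⟩, ⟨x, by ring⟩⟩
  · intro x hx
    rw [mem_filter, mem_win, Int.not_odd_iff_even] at hx
    obtain ⟨t, ht⟩ := hx.2
    omega
  · intro x _
    omega
  · intro x hx
    rw [mem_filter, mem_win, Int.not_odd_iff_even] at hx
    obtain ⟨t, ht⟩ := hx.2
    congr 1
    omega

/-- the odd integers as shifts of the even integers -/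
theorem OS_AS_shift (g : ℤ → ℝ) (a b : ℝ) {δ : ℤ} (hδ : Odd δ) :
    OS g (2 * a) (2 * b) = AS (fun x => g (2 * x + δ)) (a + -(δ / 2)) (b + -(δ / 2)) := by
  unfold OS WS AS
  obtain ⟨e, he⟩ := hδ
  refine sum_bij' (fun z _ => (z - δ) / 2) (fun x _ => 2 * x + δ) ?_ ?_ ?_ ?_ ?_
  · intro z hz
    rw [mem_odd] at hz
    obtain ⟨t, ht⟩ := hz.2
    have e1 : (z - δ) / 2 = t - e := by omega
    have e2 : ((t - e : ℤ) : ℝ) = ((z : ℝ) - δ) / 2 := by
      rw [ht, he]; push_cast; ring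
    rw [e1, mem_win, e2]
    constructor <;> linarith [hz.1.1, hz.1.2]
  · intro x hx
    rw [mem_win] at hx
    rw [mem_odd]
    push_cast
    exact ⟨⟨by linarith [hx.1], by linarith [hx.2]⟩, ⟨x + e, by rw [he]; ring⟩⟩
  · intro z hz
    rw [mem_odd] at hz
    obtain ⟨t, ht⟩ := hz.2
    omega
  · intro x _
    omega
  · intro z hz
    rw [mem_odd] at hz
    obtain ⟨t, ht⟩ := hz.2
    congr 1
    omega

open Classical in
/-- restriction to a class -/
noncomputable def ic (m : ℕ) (u v : ℤ) (f : ℤ → ℝ) (x : ℤ) : ℝ := if (3 : ℤ) ^ m ∣ u * x - v then f x else 0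

theorem ic_abs (m : ℕ) (u v : ℤ) {f : ℤ → ℝ} (hf : ∀ x, |f x| ≤ 1) (x : ℤ) : |ic m u v f x| ≤ 1 := by
  unfold ic
  split_ifs
  · exact hf x
  · simp

theorem WS_ic (m : ℕ) (u v : ℤ) (f : ℤ → ℝ) (a b : ℝ) : WS f a b m u v = OS (ic m u v f) a b := by
  classical
  unfold OS WS ic
  rw [← sum_filter]
  apply sum_congr _ (fun _ _ => rfl)
  ext x
  rw [mem_filter, mem_odd, mem_cls]
  constructor
  · rintro ⟨h1, h2, -, h3⟩; exact ⟨⟨h1, h2⟩, h3⟩
  · rintro ⟨⟨h1, h2⟩, h3⟩; exact ⟨h1, h2, Set.mem_univ _, h3⟩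

theorem ic_two (m : ℕ) (u v : ℤ) {f : ℤ → ℝ} (h2 : ∀ y, f (2 * y) = f y) :
    (fun x => ic m u v f (2 * x)) = ic m (2 * u) v f := by
  funext x
  unfold ic
  rw [h2, show u * (2 * x) - v = 2 * u * x - v by ring]

theorem AS_ic_iter (m : ℕ) (v : ℤ) {f : ℤ → ℝ} (h2 : ∀ y, f (2 * y) = f y) (a b : ℝ) (u : ℤ) : ∀ I : ℕ,
    AS (ic m u v f) a b = ∑ i ∈ range I, WS f (a / 2 ^ i) (b / 2 ^ i) m (2 ^ i * u) v
      + AS (ic m (2 ^ I * u) v f) (a / 2 ^ I) (b / 2 ^ I) := by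
  intro I
  induction I with
  | zero => simp
  | succ I ih =>
    rw [ih, sum_range_succ, AS_split2 (ic m (2 ^ I * u) v f), ← WS_ic, ic_two m _ v h2]
    have e1 : (2 : ℤ) ^ (I + 1) * u = 2 * (2 ^ I * u) := by ring
    have e2 : ∀ y : ℝ, y / 2 ^ (I + 1) = y / 2 ^ I / 2 := fun y => by rw [pow_succ]; field_simp
    rw [e1, e2, e2]
    ring

theorem AS_iter {f : ℤ → ℝ} (h2 : ∀ y, f (2 * y) = f y) (a b : ℝ) : ∀ I : ℕ,
    AS f a b = ∑ i ∈ range I, OS f (a / 2 ^ i) (b / 2 ^ i) + AS f (a / 2 ^ I) (b / 2 ^ I) := by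
  intro I
  induction I with
  | zero => simp
  | succ I ih =>
    rw [ih, sum_range_succ, AS_split2 f (a / 2 ^ I)]
    have e1 : (fun x => f (2 * x)) = f := by funext x; exact h2 x
    have e2 : ∀ y : ℝ, y / 2 ^ (I + 1) = y / 2 ^ I / 2 := fun y => by rw [pow_succ]; field_simp
    rw [e1, e2, e2]
    ring

theorem cop_two_mul {u : ℤ} (hu : IsCoprime u 3) (i : ℕ) : IsCoprime (2 ^ i * u) 3 :=
  IsCoprime.mul_left (IsCoprime.pow_left ⟨-1, 1, by norm_num⟩) hu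

theorem sum_half_pow (I : ℕ) : ∑ i ∈ range I, (1 : ℝ) / 2 ^ i ≤ 2 := by
  have h : ∀ I : ℕ, ∑ i ∈ range I, (1 : ℝ) / 2 ^ i = 2 - 2 / 2 ^ I := by
    intro I
    induction I with
    | zero => simp
    | succ I ih => rw [sum_range_succ, ih, pow_succ]; field_simp; ring
  rw [h]
  have : (0 : ℝ) < 2 / 2 ^ I := by positivity
  linarith

/-- EQUIDISTRIBUTION in short intervals, all integers -/
theorem class_all_near {d : ℤ} (hd : Odd d) (hd3 : IsCoprime d 3) (hdd : d * d = 1) (m : ℕ) :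
    ∃ C : ℝ, 0 < C ∧ ∀ k : ℕ, 100 ≤ k → ∀ f : ℤ → ℝ, InvF d f → ∀ a b : ℝ, a ≤ b → 5 * (k : ℝ) ≤ Real.log (b - a) →
      ∀ u v : ℤ, IsCoprime u 3 → |3 ^ m * AS (ic m u v f) a b - AS f a b| ≤ C / k * (b - a) := by
  obtain ⟨C, hC, h⟩ := class_near' hd hd3 hdd m
  refine ⟨2 * C + 2 * (3 ^ m + 1), by positivity, ?_⟩
  intro k hk f hf a b hab hL u v hu
  have hk100 : (100 : ℝ) ≤ k := by exact_mod_cast hk
  have hk0 : (0 : ℝ) < k := by linarith
  have h2 := f_two hf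
  have hℓpos : 0 < b - a := by
    by_contra hcon
    have h1 : b - a = 0 := le_antisymm (not_lt.1 hcon) (by linarith)
    rw [h1, Real.log_zero] at hL
    linarith
  have e1 := AS_ic_iter m v h2 a b u k
  have e2 := AS_iter h2 a b k
  have hterm : ∀ i ∈ range k, |3 ^ m * WS f (a / 2 ^ i) (b / 2 ^ i) m (2 ^ i * u) v - OS f (a / 2 ^ i) (b / 2 ^ i)|
      ≤ C / k * (b - a) * (1 / 2 ^ i) := by
    intro i hi
    rw [mem_range] at hi
    have hiR : (i : ℝ) ≤ k := by exact_mod_cast hi.le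
    have e3 : b / 2 ^ i - a / 2 ^ i = (b - a) / 2 ^ i := by ring
    have h3 := h k hk f hf (a / 2 ^ i) (b / 2 ^ i) (div_le_div_of_nonneg_right hab (by positivity)) (by
      rw [e3, Real.log_div hℓpos.ne' (by positivity), Real.log_pow]
      have l2 := Real.log_two_lt_d9
      have l2' := Real.log_two_gt_d9
      have : (i : ℝ) * Real.log 2 ≤ k * 1 := mul_le_mul hiR (by linarith) (by linarith) hk0.le
      linarith) (2 ^ i * u) v (cop_two_mul hu i)
    rw [e3] at h3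
    refine h3.trans (le_of_eq ?_)
    ring
  have hsum := sum_le_sum hterm
  rw [← mul_sum] at hsum
  have hhalf := sum_half_pow k
  have hCk : 0 ≤ C / k * (b - a) := by positivity
  have h3 : |∑ i ∈ range k, (3 ^ m * WS f (a / 2 ^ i) (b / 2 ^ i) m (2 ^ i * u) v - OS f (a / 2 ^ i) (b / 2 ^ i))|
      ≤ C / k * (b - a) * 2 :=
    (abs_sum_le_sum_abs _ _).trans (hsum.trans (mul_le_mul_of_nonneg_left hhalf hCk))
  rw [sum_sub_distrib, ← mul_sum] at h3
  have hab' : a / 2 ^ k ≤ b / 2 ^ k := div_le_div_of_nonneg_right hab (by positivity)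
  have h4 := AS_abs (ic_abs m (2 ^ k * u) v hf.1) hab'
  have h5 := AS_abs hf.1 hab'
  have e3 : b / 2 ^ k - a / 2 ^ k = (b - a) / 2 ^ k := by ring
  rw [e3] at h4 h5
  have h6 : (b - a) / 2 ^ k + 1 ≤ 2 * ((b - a) / k) := by
    have h7 : (b - a) / 2 ^ k ≤ (b - a) / k := by
      apply div_le_div_of_nonneg_left hℓpos.le hk0
      exact_mod_cast Nat.lt_two_pow_self.le
    have h8 : 1 ≤ (b - a) / k := by
      rw [le_div_iff₀ hk0, one_mul]
      have h9 := Real.add_one_le_exp (5 * (k : ℝ))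
      have h10 : Real.exp (5 * (k : ℝ)) ≤ b - a := by
        rw [← Real.exp_log hℓpos]; exact Real.exp_le_exp.2 hL
      linarith
    linarith
  set P := ∑ i ∈ range k, WS f (a / 2 ^ i) (b / 2 ^ i) m (2 ^ i * u) v
  set Q := ∑ i ∈ range k, OS f (a / 2 ^ i) (b / 2 ^ i)
  set R := AS (ic m (2 ^ k * u) v f) (a / 2 ^ k) (b / 2 ^ k)
  set S := AS f (a / 2 ^ k) (b / 2 ^ k)
  rw [e1, e2]
  have e4 : 3 ^ m * (P + R) - (Q + S) = (3 ^ m * P - Q) + 3 ^ m * R - S := by ring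
  rw [e4]
  have h7 : |3 ^ m * R| ≤ 3 ^ m * (2 * ((b - a) / k)) := by
    rw [abs_mul, abs_of_pos (show (0 : ℝ) < 3 ^ m by positivity)]
    exact mul_le_mul_of_nonneg_left (h4.trans h6) (by positivity)
  have h8 := abs_sub ((3 ^ m * P - Q) + 3 ^ m * R) S
  have h9 := abs_add_le (3 ^ m * P - Q) (3 ^ m * R)
  have e5 : (2 * C + 2 * (3 ^ m + 1)) / k * (b - a) = C / k * (b - a) * 2 + 3 ^ m * (2 * ((b - a) / k)) + 2 * ((b - a) / k) := by
    ring
  rw [e5]
  linarith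

open Classical in
/-- the border in a class: `n` even, `n ≡ c` modulo `3 ^ m` -/
noncomputable def cb (f : ℤ → ℝ) (m : ℕ) (c δ : ℤ) (n : ℤ) : ℝ :=
  if Even n ∧ (3 : ℤ) ^ m ∣ n - c then |f (n + δ) - f n| else 0

theorem cb_nonneg (f : ℤ → ℝ) (m : ℕ) (c δ n : ℤ) : 0 ≤ cb f m c δ n := by
  unfold cb
  split_ifs
  · exact abs_nonneg _
  · exact le_rfl

/-- the odd integers of `[2 a, 2 b)` and all integers of `[a, b)` -/
theorem odd_all {d : ℤ} (hd : Odd d) (hd3 : IsCoprime d 3) (hdd : d * d = 1) (m : ℕ) {δ : ℤ} (hδ : Odd δ) :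
    ∃ C : ℝ, 0 < C ∧ ∀ k : ℕ, 100 ≤ k → ∀ f : ℤ → ℝ, InvF d f → ∀ a b : ℝ, a ≤ b → 5 * (k : ℝ) ≤ Real.log (b - a) →
      ∀ c : ℤ, |OS f (2 * a) (2 * b) - AS f a b|
        ≤ C / k * (b - a) + 3 ^ m * (AS (cb f m c δ) (2 * a - δ) (2 * b - δ) + |(δ : ℝ)| + 2) := by
  obtain ⟨C1, hC1, h1⟩ := class_near' hd hd3 hdd m
  obtain ⟨C2, hC2, h2⟩ := class_all_near hd hd3 hdd m
  refine ⟨2 * C1 + C2, by positivity, ?_⟩
  intro k hk f hf a b hab hL c
  have hk100 : (100 : ℝ) ≤ k := by exact_mod_cast hk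
  have hℓpos : 0 < b - a := by
    by_contra hcon
    have h1 : b - a = 0 := le_antisymm (not_lt.1 hcon) (by linarith)
    rw [h1, Real.log_zero] at hL
    linarith
  have e2 : 2 * b - 2 * a = 2 * (b - a) := by ring
  have g1 := h1 k hk f hf (2 * a) (2 * b) (by linarith) (by
    rw [e2, Real.log_mul (by norm_num) hℓpos.ne']
    have := Real.log_two_gt_d9
    linarith) 1 (c + δ) isCoprime_one_left
  rw [e2] at g1
  have g2 := h2 k hk f hf a b hab hL 2 c ⟨-1, 1, by norm_num⟩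
  have f2 := f_two hf
  -- the odd integers of the class
  have e3 : WS f (2 * a) (2 * b) m 1 (c + δ)
      = AS (fun x => ic m 1 (c + δ) f (2 * x + δ)) (a + -(δ / 2)) (b + -(δ / 2)) := by
    rw [WS_ic, OS_AS_shift _ a b hδ]
  have hab' : a + -((δ : ℝ) / 2) ≤ b + -((δ : ℝ) / 2) := by linarith
  have g3 : |AS (fun x => ic m 1 (c + δ) f (2 * x + δ)) (a + -(δ / 2)) (b + -(δ / 2))
      - AS (ic m 2 c f) (a + -(δ / 2)) (b + -(δ / 2))| ≤ AS (cb f m c δ) (2 * a - δ) (2 * b - δ) := by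
    have h3 : AS (fun x => cb f m c δ (2 * x)) (a + -(δ / 2)) (b + -(δ / 2)) ≤ AS (cb f m c δ) (2 * a - δ) (2 * b - δ) := by
      rw [AS_split2 (cb f m c δ) (2 * a - δ)]
      have e4 : (2 * a - (δ : ℝ)) / 2 = a + -(δ / 2) := by ring
      have e5 : (2 * b - (δ : ℝ)) / 2 = b + -(δ / 2) := by ring
      rw [e4, e5]
      have := OS_nonneg (cb_nonneg f m c δ) (2 * a - δ) (2 * b - δ)
      linarith
    refine le_trans ?_ h3
    unfold AS
    rw [← sum_sub_distrib]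
    refine (abs_sum_le_sum_abs _ _).trans ?_
    apply sum_le_sum
    intro x _
    unfold ic cb
    rw [show (1 : ℤ) * (2 * x + δ) - (c + δ) = 2 * x - c by ring]
    have hev : Even (2 * x) := ⟨x, by ring⟩
    by_cases h : (3 : ℤ) ^ m ∣ 2 * x - c
    · rw [if_pos h, if_pos h, if_pos ⟨hev, h⟩, f2]
    · rw [if_neg h, if_neg h, if_neg (fun h' => h h'.2), sub_zero, abs_zero]
  have g4 := AS_shift (ic_abs m 2 c hf.1) hab (-((δ : ℝ) / 2))
  rw [abs_neg, abs_div, abs_of_pos (show (0 : ℝ) < 2 by norm_num)] at g4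
  rw [e3] at g1
  set W := AS (fun x => ic m 1 (c + δ) f (2 * x + δ)) (a + -(δ / 2)) (b + -(δ / 2))
  set V := AS (ic m 2 c f) (a + -(δ / 2)) (b + -(δ / 2))
  set U := AS (ic m 2 c f) a b
  set B := AS (cb f m c δ) (2 * a - δ) (2 * b - δ)
  have g5 : |W - U| ≤ B + |(δ : ℝ)| + 2 := by
    have := abs_sub_le W V U
    linarith
  have g6 : |3 ^ m * W - 3 ^ m * U| ≤ 3 ^ m * (B + |(δ : ℝ)| + 2) := by
    rw [← mul_sub, abs_mul, abs_of_pos (show (0 : ℝ) < 3 ^ m by positivity)]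
    exact mul_le_mul_of_nonneg_left g5 (by positivity)
  have g7 := abs_sub_le (OS f (2 * a) (2 * b)) (3 ^ m * W) (AS f a b)
  have g8 := abs_sub_le (3 ^ m * W) (3 ^ m * U) (AS f a b)
  rw [abs_sub_comm (OS f (2 * a) (2 * b)) (3 ^ m * W)] at g7
  have e6 : (2 * C1 + C2) / k * (b - a) = C1 / k * (2 * (b - a)) + C2 / k * (b - a) := by ring
  rw [e6]
  linarith

end Pool.Agent.KS6_32.CL
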