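import Pool.Agent.KS6_32.CL.Words

/-! The words that never occur in an invariant set. -/

set_option autoImplicit false

namespace Pool.Agent.KS6_32.CL

open Finset Filter Topology
open Pool.Agent.H499R2.ND (Td Inv)

/-- the pattern `w` occurs in `S` at `N` -/
def Oc (S : Set ℤ) (N : ℤ) (w : List Bool) : Prop := ∀ (i : ℕ) (h : i < w.length), w[i] = true ↔ N + i ∈ S

variable {S : Set ℤ}

theorem s_ev (hS : Inv 1 S) {x y : ℤ} (h : x = 2 * y) : x ∈ S ↔ y ∈ S := by rw [hS x, Td_ev h]

theorem s_od (hS : Inv 1 S) {x y : ℤ} (h : x = 2 * y + 1) : x ∈ S ↔ 3 * y + 2 ∈ S := by rw [hS x, Td_od h]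

/-- alternation -/
def Alt (S : Set ℤ) (x y z : ℤ) : Prop := (x ∈ S ↔ y ∉ S) ∧ (y ∈ S ↔ z ∉ S)

theorem no_alt (hS : Inv 1 S) : ∀ n : ℕ, ∀ a : ℤ, a.natAbs = n → ∀ j : ℕ,
    ¬ Alt S (3 ^ j * a - 1) (3 ^ (j + 1) * a - 1) (3 ^ (j + 2) * a - 1) := by
  intro n
  induction n using Nat.strong_induction_on with
  | _ n ih =>
    intro a hn j
    rcases eq_or_ne a 0 with h0 | h0
    · rw [h0]
      rintro ⟨h1, -⟩
      simp only [mul_zero, zero_sub] at h1
      tauto
    rcases Int.even_or_odd a with he | ho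
    · obtain ⟨c, hc⟩ := he
      have h1 : ∀ i : ℕ, 3 ^ i * a - 1 ∈ S ↔ 3 ^ (i + 1) * c - 1 ∈ S := by
        intro i
        rw [s_od hS (y := 3 ^ i * c - 1) (by rw [hc]; ring)]
        rw [show 3 * (3 ^ i * c - 1) + 2 = 3 ^ (i + 1) * c - 1 by rw [pow_succ]; ring]
      have h2 := ih c.natAbs (by omega) c rfl (j + 1)
      intro h3
      apply h2
      unfold Alt at h3 ⊢
      rw [h1 j, h1 (j + 1), h1 (j + 2)] at h3
      exact h3
    · obtain ⟨P, hP⟩ := (pow3_odd j).mul ho
      have e1 : 3 ^ j * a - 1 = 2 * P := by rw [hP]; ring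
      have e2 : 3 ^ (j + 1) * a - 1 = 2 * (3 * P + 1) := by
        rw [pow_succ]; linear_combination 3 * hP
      have e3 : 3 ^ (j + 2) * a - 1 = 2 * (9 * P + 4) := by
        rw [pow_add]; linear_combination 9 * hP
      unfold Alt
      rw [s_ev hS e1, s_ev hS e2, s_ev hS e3]
      rintro ⟨h1, h2⟩
      rcases Int.even_or_odd' P with ⟨c, hc | hc⟩
      · rw [s_od hS (x := 3 * P + 1) (y := 3 * c) (by rw [hc]; ring),
          s_ev hS (x := 9 * P + 4) (y := 3 * (3 * c) + 2) (by rw [hc]; ring)] at h2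
        tauto
      · rw [s_od hS hc, s_ev hS (x := 3 * P + 1) (y := 3 * c + 2) (by rw [hc]; ring)] at h1
        tauto

/-- no alternation at the positions `5` mod `8` -/
theorem no_alt8 (hS : Inv 1 S) {N : ℤ} (h : N % 8 = 5) : ¬ Alt S N (N + 1) (N + 2) := by
  obtain ⟨a, ha⟩ : ∃ a : ℤ, N = 8 * a - 3 := ⟨(N + 3) / 8, by omega⟩
  have h1 : N ∈ S ↔ 3 ^ 1 * a - 1 ∈ S := by
    rw [s_od hS (y := 4 * a - 2) (by rw [ha]; ring), s_ev hS (y := 6 * a - 2) (by ring),
      s_ev hS (y := 3 * a - 1) (by ring), pow_one]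
  have h2 : N + 1 ∈ S ↔ 3 ^ 2 * a - 1 ∈ S := by
    rw [s_ev hS (y := 4 * a - 1) (by rw [ha]; ring), s_od hS (y := 2 * a - 1) (by ring),
      s_od hS (y := 3 * a - 1) (by ring)]
    rw [show 3 * (3 * a - 1) + 2 = 3 ^ 2 * a - 1 by ring]
  have h3 : N + 2 ∈ S ↔ 3 ^ 3 * a - 1 ∈ S := by
    rw [s_od hS (y := 4 * a - 1) (by rw [ha]; ring), s_od hS (y := 6 * a - 1) (by ring),
      s_od hS (y := 9 * a - 1) (by ring)]
    rw [show 3 * (9 * a - 1) + 2 = 3 ^ 3 * a - 1 by ring]
  have h4 := no_alt hS _ a rfl 1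
  unfold Alt at h4 ⊢
  rwa [h1, h2, h3]

/-- two letters of `w` that differ belong to trajectories that merge on the class of `r` -/
def dm (t : ℕ) (w : List Bool) (r : ℤ) : Bool :=
  (List.range w.length).any fun i => (List.range w.length).any fun j =>
    (w.getD i false != w.getD j false) && (rs t 0 (r + i) == rs t 0 (r + j))

theorem dm_no (hS : Inv 1 S) {t : ℕ} {w : List Bool} {N : ℤ} (h : dm t w (N % 2 ^ t) = true) : ¬ Oc S N w := by
  intro ho
  unfold dm at h
  simp only [List.any_eq_true, List.mem_range, Bool.and_eq_true, beq_iff_eq, bne_iff_ne, ne_eq] at h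
  obtain ⟨i, hi, j, hj, h1, h2⟩ := h
  apply h1
  have e : ∀ (i : ℕ) (hi : i < w.length), w.getD i false = w[i] := by
    intro i hi
    rw [List.getD_eq_getElem?_getD, List.getElem?_eq_getElem hi]; rfl
  rw [e i hi, e j hj]
  have hN : ∀ k : ℤ, N + k = 2 ^ t * (N / 2 ^ t) + (N % 2 ^ t + k) := by
    intro k
    have := Int.emod_add_mul_ediv N (2 ^ t)
    linarith
  have f1 := ho i hi
  have f2 := ho j hj
  rw [inv_T hS t, hN, rs_aff rfl] at f1 f2
  rw [h2] at f1
  rw [Bool.eq_iff_iff, f1, f2]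

theorem alt_of (w : List Bool) {N : ℤ} (ho : Oc S N w) (k : ℕ) (hk : k + 2 < w.length) (h1 : w[k] = ! w[k + 1])
    (h2 : w[k + 1] = ! w[k + 2]) : Alt S (N + k) (N + k + 1) (N + k + 2) := by
  have f0 := ho k (by omega)
  have f1 := ho (k + 1) (by omega)
  have f2 := ho (k + 2) hk
  push_cast at f1 f2
  rw [← add_assoc] at f1 f2
  unfold Alt
  rw [← f0, ← f1, ← f2, h1, h2]
  cases w[k + 2] <;> simp

theorem res1 : ((List.range 32).all fun r : ℕ => dm 5 [false, true, false, true, false, true, false, true] r) = true := by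
  decide +kernel

theorem res2 : ((List.range 16).all fun r : ℕ => (r % 8 == 5) || (r % 8 == 2) ||
    dm 4 [false, true, false, false, true, false] r) = true := by
  decide +kernel

theorem never1 (hS : Inv 1 S) (N : ℤ) : ¬ Oc S N [false, true, false, true, false, true, false, true] := by
  apply dm_no hS (t := 5)
  have h := res1
  rw [List.all_eq_true] at h
  obtain ⟨r, hr⟩ : ∃ r : ℕ, N % 2 ^ 5 = r := ⟨(N % 2 ^ 5).toNat, by omega⟩
  rw [hr]
  exact h r (List.mem_range.2 (by omega))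

theorem never2 (hS : Inv 1 S) (N : ℤ) : ¬ Oc S N [false, true, false, false, true, false] := by
  intro ho
  by_cases h5 : N % 8 = 5
  · have := alt_of _ ho 0 (by norm_num) rfl rfl
    simp only [Nat.cast_zero, add_zero] at this
    exact no_alt8 hS h5 this
  by_cases h2 : N % 8 = 2
  · have := alt_of _ ho 3 (by norm_num) rfl rfl
    exact no_alt8 hS (by push_cast; omega) this
  revert ho
  apply dm_no hS (t := 4)
  have h := res2
  rw [List.all_eq_true] at h
  obtain ⟨r, hr⟩ : ∃ r : ℕ, N % 2 ^ 4 = r := ⟨(N % 2 ^ 4).toNat, by omega⟩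
  have h3 := h r (List.mem_range.2 (by omega))
  rw [hr]
  simp only [Bool.or_eq_true, beq_iff_eq] at h3
  rcases h3 with (h3 | h3) | h3
  · exfalso; omega
  · exfalso; omega
  · exact h3

theorem Oc_compl {N : ℤ} {w : List Bool} (h : Oc S N w) : Oc Sᶜ N (w.map not) := by
  intro i hi
  rw [List.length_map] at hi
  have := h i hi
  rw [List.getElem_map, Set.mem_compl_iff, ← this]
  cases w[i] <;> simp

theorem never (hS : Inv 1 S) {f : List Bool} (hf : f ∈ Forb) (N : ℤ) : ¬ Oc S N f := by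
  unfold Forb at hf
  simp only [List.mem_cons, List.not_mem_nil, or_false] at hf
  rcases hf with rfl | rfl | rfl | rfl
  · exact never2 hS N
  · intro h
    exact never2 hS.compl N (Oc_compl h)
  · exact never1 hS N
  · intro h
    exact never1 hS.compl N (Oc_compl h)

/-- THE FORBIDDEN WORDS. -/
theorem never_infix (hS : Inv 1 S) {f w : List Bool} (hf : f ∈ Forb) (hfw : f <:+: w) (N : ℤ) : ¬ Oc S N w := by
  obtain ⟨u, v, rfl⟩ := hfw
  intro h
  apply never hS hf (N + u.length)
  intro i hi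
  have h1 := h (u.length + i) (by rw [List.length_append, List.length_append]; omega)
  push_cast at h1
  rw [← add_assoc, List.getElem_append_left (by rw [List.length_append]; omega),
    List.getElem_append_right (by omega)] at h1
  simpa using h1

end Pool.Agent.KS6_32.CL
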