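import Pool.Agent.KS6_32.CL.Cls
import Pool.Agent.KS6_32.CL.Steer

/-! The law for two affine forms. -/

set_option autoImplicit false

namespace Pool.Agent.KS6_32.CL

open Finset Filter Topology
open Pool.Agent.H320R2.PD Pool.Agent.H499R2.ND Pool.Agent.H499R2.CO Pool.Agent.W41.FU Pool.Agent.W41
open Pool.Agent.Y965.SI Pool.Agent.KS6_32.BD Pool.Agent.H319R3.LV

open Classical in
/-- transport of the convergence -/
theorem Cv_map {σ : ℝ} (hσ : 0 ≤ σ) {X Z : Set ℕ} (φ : ℕ → ℕ) (C N₀ : ℕ)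
    (hinj : ∀ n ∈ Z, N₀ ≤ n → ∀ n₂ ∈ Z, N₀ ≤ n₂ → φ n = φ n₂ → n = n₂)
    (hφ : ∀ n ∈ Z, N₀ ≤ n → φ n ∈ X ∧ 2 ≤ φ n ∧ φ n ≤ C * n) (hX : Cv σ X) : Cv σ Z := by
  unfold Cv at *
  set w : ℕ → ℝ := fun n : ℕ => 1 / ((n : ℝ) * Real.log n ^ σ) with hw
  have l2 := Real.log_two_gt_d9
  set D : ℝ := 1 + Real.log ((C : ℝ) + 1) / Real.log 2 with hD
  have hC0 : (0 : ℝ) ≤ C := Nat.cast_nonneg C
  have hlC : 0 ≤ Real.log ((C : ℝ) + 1) := Real.log_nonneg (by linarith)
  have hD1 : 1 ≤ D := by rw [hD]; have : 0 ≤ Real.log ((C : ℝ) + 1) / Real.log 2 := by positivity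
                         linarith
  set K : ℝ := (C + 1) * D ^ σ with hK
  have hK0 : 0 < K := by
    have : 0 < D := by linarith
    positivity
  have hw0 : ∀ n, 0 ≤ w n := fun n => by
    have := Real.log_natCast_nonneg n
    rw [hw]; simp only; positivity
  have hcmp : ∀ n ∈ Z, max N₀ 2 ≤ n → w n ≤ K * w (φ n) := by
    intro n hn hN
    obtain ⟨-, h2, h3⟩ := hφ n hn ((le_max_left _ _).trans hN)
    have hn2 : (2 : ℝ) ≤ n := by exact_mod_cast (le_max_right _ _).trans hN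
    have hφ2 : (2 : ℝ) ≤ φ n := by exact_mod_cast h2
    have hφC : (φ n : ℝ) ≤ (C + 1) * n := by
      have : (φ n : ℝ) ≤ C * n := by exact_mod_cast h3
      linarith
    have hln : Real.log 2 ≤ Real.log n := Real.log_le_log (by norm_num) hn2
    have hlφ : Real.log 2 ≤ Real.log (φ n) := Real.log_le_log (by norm_num) hφ2
    have hl : Real.log (φ n) ≤ D * Real.log n := by
      have h4 := Real.log_le_log (by linarith) hφC
      rw [Real.log_mul (by positivity) (by positivity)] at h4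
      have h5 : Real.log ((C : ℝ) + 1) ≤ Real.log ((C : ℝ) + 1) / Real.log 2 * Real.log n := by
        rw [div_mul_eq_mul_div, le_div_iff₀ (by linarith)]
        exact mul_le_mul_of_nonneg_left hln hlC
      rw [hD]; linarith
    have hln0 : 0 < Real.log n := by linarith
    have hlφ0 : 0 < Real.log (φ n) := by linarith
    rw [hw]
    simp only
    rw [mul_one_div, div_le_div_iff₀ (by positivity) (by positivity), one_mul]
    calc (φ n : ℝ) * Real.log (φ n) ^ σ ≤ ((C + 1) * n) * (D * Real.log n) ^ σ := by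
          apply mul_le_mul hφC (Real.rpow_le_rpow hlφ0.le hl hσ) (by positivity) (by positivity)
      _ = K * (n * Real.log n ^ σ) := by
          rw [Real.mul_rpow (by linarith) hln0.le, hK]; ring
  refine summable_of_sum_le (c := ∑ n ∈ range (max N₀ 2), Z.indicator w n + K * ∑' n, X.indicator w n)
    (fun n => Set.indicator_nonneg (fun m _ => hw0 m) n) fun F => ?_
  rw [← sum_filter_add_sum_filter_not F (fun n => n < max N₀ 2)]
  apply add_le_add
  · apply sum_le_sum_of_subset_of_nonneg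
    · intro n hn
      rw [mem_filter] at hn
      rw [mem_range]; exact hn.2
    · intro n _ _
      exact Set.indicator_nonneg (fun m _ => hw0 m) n
  · have e : ∑ n ∈ F.filter (fun n => ¬ n < max N₀ 2), Z.indicator w n
        = ∑ n ∈ (F.filter (fun n => ¬ n < max N₀ 2)).filter (· ∈ Z), w n := by
      rw [sum_filter (p := (· ∈ Z))]
      apply sum_congr rfl
      intro n _
      by_cases h : n ∈ Z
      · rw [Set.indicator_of_mem h, if_pos h]
      · rw [Set.indicator_of_notMem h, if_neg h]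
    rw [e]
    set G := (F.filter (fun n => ¬ n < max N₀ 2)).filter (· ∈ Z) with hG
    have hGm : ∀ n ∈ G, n ∈ Z ∧ max N₀ 2 ≤ n := by
      intro n hn
      rw [hG, mem_filter, mem_filter] at hn
      exact ⟨hn.2, not_lt.1 hn.1.2⟩
    calc ∑ n ∈ G, w n ≤ ∑ n ∈ G, K * w (φ n) := sum_le_sum fun n hn => hcmp n (hGm n hn).1 (hGm n hn).2
      _ = K * ∑ n ∈ G, w (φ n) := by rw [mul_sum]
      _ = K * ∑ x ∈ G.image φ, w x := by
          rw [sum_image]
          intro x hx y hy hxy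
          exact hinj x (hGm x hx).1 ((le_max_left _ _).trans (hGm x hx).2) y (hGm y hy).1
            ((le_max_left _ _).trans (hGm y hy).2) hxy
      _ = K * ∑ x ∈ G.image φ, X.indicator w x := by
          congr 1
          apply sum_congr rfl
          intro x hx
          rw [mem_image] at hx
          obtain ⟨n, hn, rfl⟩ := hx
          rw [Set.indicator_of_mem (hφ n (hGm n hn).1 ((le_max_left _ _).trans (hGm n hn).2)).1]
      _ ≤ K * ∑' n, X.indicator w n := by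
          apply mul_le_mul_of_nonneg_left _ hK0.le
          exact hX.sum_le_tsum _ fun n _ => Set.indicator_nonneg (fun m _ => hw0 m) n

theorem inv_iter {S : Set ℤ} (hS : Inv 1 S) (t : ℕ) : ∀ x : ℤ, x ∈ S ↔ (Td 1)^[t] x ∈ S := by
  induction t with
  | zero => intro x; rfl
  | succ t ih =>
    intro x
    rw [Function.iterate_succ_apply, ← ih, hS x]

/-- the `n ≥ 1` for which the first form at `s n` is in `S` and the second is not -/
def Sp (s : ℤ) (S : Set ℤ) (a : ℕ) (p : ℤ) (b : ℕ) (q : ℤ) : Set ℕ :=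
  {n : ℕ | 1 ≤ n ∧ 3 ^ a * (s * n) + p ∈ S ∧ 3 ^ b * (s * n) + q ∉ S}

/-- THE LOWER BOUND FOR TWO FORMS. -/
theorem Sp_div {s : ℤ} (hs : s = 1 ∨ s = -1) {S : Set ℤ} (hS : Inv 1 S) (h1 : ∃ x ∈ S, 0 < s * x)
    (h2 : ∃ x ∉ S, 0 < s * x) {a : ℕ} {p : ℤ} {b : ℕ} {q : ℤ} (hab : (a, p) ≠ (b, q)) :
    ¬ Cv (1 / 2) (Sp s S a p b q) := by
  intro hX
  obtain ⟨t, r, m, u, δ, hδ, hG⟩ := steer a p b q hab
  have hss : s * s = 1 := by rcases hs with rfl | rfl <;> norm_num
  have hδs : Odd (s * δ) := by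
    rcases hs with rfl | rfl
    · rwa [one_mul]
    · rw [neg_one_mul]; exact hδ.neg
  refine Pd_div hs hS h1 h2 m (s * u) hδs ?_
  -- the map `n ↦ 2 ^ t (n - s u) / 3 ^ m + s r`
  set φ : ℕ → ℤ := fun n => 2 ^ t * (((n : ℤ) - s * u) / 3 ^ m) + s * r with hφ
  have h3m : (0 : ℤ) < 3 ^ m := by positivity
  have h2t : (0 : ℤ) < 2 ^ t := by positivity
  have hsu : |s * u| = |u| := by rcases hs with rfl | rfl <;> simp
  have hsr : |s * r| = |r| := by rcases hs with rfl | rfl <;> simp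
  -- members
  have hmem : ∀ n ∈ Pd s S m (s * u) (s * δ), (3 ^ m * (2 + |r|) + |u| : ℤ) ≤ n →
      ∃ z : ℤ, (n : ℤ) = 3 ^ m * z + s * u ∧ 2 + |r| ≤ z ∧ φ n = 2 ^ t * z + s * r ∧ 3 ^ a * (s * φ n) + p ∈ S ∧
        3 ^ b * (s * φ n) + q ∉ S := by
    rintro n ⟨-, ⟨z, hz⟩, hn1, hn2⟩ hnl
    have e1 : (n : ℤ) = 3 ^ m * z + s * u := by linarith
    have e2 : φ n = 2 ^ t * z + s * r := by
      rw [hφ]; simp only
      rw [hz, Int.mul_ediv_cancel_left _ h3m.ne']
    have hz2 : 2 + |r| ≤ z := by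
      by_contra hcon
      push Not at hcon
      have h5 : 3 ^ m * z < 3 ^ m * (2 + |r|) := mul_lt_mul_of_pos_left hcon h3m
      have h6 := le_abs_self (s * u)
      rw [hsu] at h6
      linarith
    refine ⟨z, e1, hz2, e2, ?_, ?_⟩
    · rw [inv_iter hS t]
      have e3 : s * φ n = 2 ^ t * (s * z) + r := by
        rw [e2]
        linear_combination r * hss
      rw [e3, (hG (s * z)).1]
      have e4 : 3 ^ m * (s * z) + u = s * n := by
        rw [e1]
        linear_combination (-u) * hss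
      rw [e4]
      exact hn1
    · rw [inv_iter hS t]
      have e3 : s * φ n = 2 ^ t * (s * z) + r := by
        rw [e2]
        linear_combination r * hss
      rw [e3, (hG (s * z)).2]
      have e4 : 3 ^ m * (s * z) + u + δ = s * (n + s * δ) := by
        rw [e1]
        linear_combination (-u - δ) * hss
      rw [e4]
      exact hn2
  have hpos : ∀ z : ℤ, 2 + |r| ≤ z → 2 ≤ 2 ^ t * z + s * r := by
    intro z hz
    have h5 := neg_abs_le (s * r)
    rw [hsr] at h5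
    have h6 : z ≤ 2 ^ t * z := le_mul_of_one_le_left (by
      have := abs_nonneg r
      linarith) (by
      have : (1 : ℤ) ≤ 2 ^ t := one_le_pow₀ (by norm_num)
      exact this)
    linarith
  obtain ⟨N₀, hN₀⟩ : ∃ N₀ : ℕ, (3 ^ m * (2 + |r|) + |u| : ℤ) ≤ N₀ := ⟨(3 ^ m * (2 + |r|) + |u|).toNat, by omega⟩
  refine Cv_map (σ := 1 / 2) (by norm_num) (fun n => (φ n).toNat) (2 ^ t * (1 + u.natAbs) + r.natAbs) (max N₀ 1) ?_ ?_ hX
  · intro n hn hN n₂ hn₂ hN₂ heq
    obtain ⟨z, hz1, hz2, hz3, -⟩ := hmem n hn (hN₀.trans (by exact_mod_cast (le_max_left _ _).trans hN))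
    obtain ⟨z₂, hz1₂, hz2₂, hz3₂, -⟩ := hmem n₂ hn₂ (hN₀.trans (by exact_mod_cast (le_max_left _ _).trans hN₂))
    have g1 := hpos z hz2
    have g2 := hpos z₂ hz2₂
    rw [hz3, hz3₂] at heq
    have e1 : 2 ^ t * z + s * r = 2 ^ t * z₂ + s * r := by omega
    have e2 : (2 : ℤ) ^ t * z = 2 ^ t * z₂ := by linarith
    have e3 : z = z₂ := mul_left_cancel₀ h2t.ne' e2
    have e4 : (n : ℤ) = n₂ := by rw [hz1, hz1₂, e3]
    exact_mod_cast e4
  · intro n hn hN
    obtain ⟨z, hz1, hz2, hz3, hA, hB⟩ := hmem n hn (hN₀.trans (by exact_mod_cast (le_max_left _ _).trans hN))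
    have g1 := hpos z hz2
    have e1 : (((φ n).toNat : ℕ) : ℤ) = φ n := by rw [hz3]; omega
    refine ⟨⟨?_, ?_, ?_⟩, ?_, ?_⟩
    · rw [hz3]; omega
    · rw [e1]; exact hA
    · rw [e1]; exact hB
    · rw [hz3]; omega
    · have hn1 : (1 : ℤ) ≤ n := by exact_mod_cast (le_max_right _ _).trans hN
      have e2 : (((φ n).toNat : ℕ) : ℤ) ≤ (((2 ^ t * (1 + u.natAbs) + r.natAbs) * n : ℕ) : ℤ) := by
        rw [e1, hz3]
        push_cast
        have hz0 : 0 ≤ z := by have := abs_nonneg r; linarith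
        have h5 : z ≤ 3 ^ m * z := le_mul_of_one_le_left hz0 (one_le_pow₀ (by norm_num))
        have h6 : -|u| ≤ s * u := by
          have := neg_abs_le (s * u)
          rwa [hsu] at this
        have h7 : s * r ≤ |r| := by
          have := le_abs_self (s * r)
          rwa [hsr] at this
        have h8 : z ≤ n + |u| := by linarith
        have h9 : |u| ≤ |u| * n := le_mul_of_one_le_right (abs_nonneg _) hn1
        have h10 : |r| ≤ |r| * n := le_mul_of_one_le_right (abs_nonneg _) hn1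
        have h11 : 2 ^ t * z ≤ 2 ^ t * (n + |u| * n) := mul_le_mul_of_nonneg_left (by linarith) h2t.le
        nlinarith
      exact_mod_cast e2

open Classical in
/-- pairs whose trajectories do not meet -/
theorem pr_count (i : ℕ) (r : ℤ) : ∃ K : ℝ, 0 ≤ K ∧ ∀ s : ℤ, (s = 1 ∨ s = -1) → ∀ N : ℕ, 16 ≤ N →
    (((Icc 1 N).filter fun n : ℕ => s * (n : ℤ) ∉ Kc (s * (3 ^ i * n + s * r))).card : ℝ) ≤ K * √ (Real.log (Real.log N) / Real.log N) * N := by
  obtain ⟨C, hC, h⟩ := pair_count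
  refine ⟨C * √ (1 + (i : ℝ) ^ 2 + Real.log (1 + |(r : ℝ)|)), by positivity, ?_⟩
  intro s hs N hN
  have hs2 : s % 2 = 1 := by rcases hs with rfl | rfl <;> norm_num
  have h1 := h N hN s hs2 i r
  rw [Real.sqrt_mul (by
    have := Real.log_nonneg (show 1 ≤ 1 + |(r : ℝ)| by linarith [abs_nonneg (r : ℝ)])
    positivity)] at h1
  refine le_trans ?_ (h1.trans (le_of_eq (by ring)))
  have hsub : ((Icc 1 N).filter fun n : ℕ => s * (n : ℤ) ∉ Kc (s * (3 ^ i * n + s * r))) ⊆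
      {n ∈ Icc 1 N | surv s (Nat.log 2 N / 4) (i, r) (n : ℕ)} := by
    intro n hn
    rw [mem_filter] at hn ⊢
    refine ⟨hn.1, ?_⟩
    by_contra hcon
    obtain ⟨t, -, ht⟩ := coal hs2 _ i r n hcon
    apply hn.2
    apply merge_of_coalT (t := t)
    rw [← Tz_sign_iter hs, ← Tz_sign_iter hs, ht]
  exact_mod_cast card_le_card hsub

/-- convergence for two forms, the first level below -/
theorem pr_conv {s : ℤ} (hs : s = 1 ∨ s = -1) (a i : ℕ) (p q : ℤ) {σ : ℝ} (hσ : 1 / 2 < σ) :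
    Cv σ {n : ℕ | 1 ≤ n ∧ 3 ^ a * (s * n) + p ∉ Kc (3 ^ (a + i) * (s * n) + q)} := by
  have hss : s * s = 1 := by rcases hs with rfl | rfl <;> norm_num
  have hsp : |s * p| = |p| := by rcases hs with rfl | rfl <;> simp
  obtain ⟨K, hK, h⟩ := pr_count i (q - 3 ^ i * p)
  have hB := conv_of_count (B := {n : ℕ | s * (n : ℤ) ∉ Kc (s * (3 ^ i * n + s * (q - 3 ^ i * p)))}) hK
    (fun N hN => by
      convert h s hs N hN) hσ
  set φ : ℕ → ℤ := fun n => 3 ^ a * n + s * p with hφ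
  have h3a : (0 : ℤ) < 3 ^ a := by positivity
  have hbig : ∀ n : ℕ, p.natAbs + 2 ≤ n → 2 ≤ φ n := by
    intro n hn
    have h5 := neg_abs_le (s * p)
    rw [hsp] at h5
    have h6 : (n : ℤ) ≤ 3 ^ a * n := le_mul_of_one_le_left (by positivity) (one_le_pow₀ (by norm_num))
    have h7 : (p.natAbs : ℤ) = |p| := Int.natCast_natAbs p
    have h8 : (p.natAbs : ℤ) + 2 ≤ n := by exact_mod_cast hn
    rw [hφ]; simp only
    linarith
  refine Cv_map (σ := σ) (by linarith) (fun n => (φ n).toNat) (3 ^ a + p.natAbs) (p.natAbs + 2) ?_ ?_ hB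
  · intro n _ hN n₂ _ hN₂ heq
    have g1 := hbig n hN
    have g2 := hbig n₂ hN₂
    have e1 : φ n = φ n₂ := by omega
    rw [hφ] at e1
    simp only at e1
    have e2 : (3 : ℤ) ^ a * n = 3 ^ a * n₂ := by linarith
    have e3 := mul_left_cancel₀ h3a.ne' e2
    exact_mod_cast e3
  · rintro n ⟨hn1, hn⟩ hN
    have g1 := hbig n hN
    have e1 : (((φ n).toNat : ℕ) : ℤ) = φ n := by omega
    refine ⟨?_, by omega, ?_⟩
    · show s * (((φ n).toNat : ℕ) : ℤ) ∉ Kc (s * (3 ^ i * (((φ n).toNat : ℕ) : ℤ) + s * (q - 3 ^ i * p)))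
      rw [e1]
      have e2 : s * φ n = 3 ^ a * (s * n) + p := by
        rw [hφ]; simp only
        linear_combination p * hss
      have e3 : s * (3 ^ i * φ n + s * (q - 3 ^ i * p)) = 3 ^ (a + i) * (s * n) + q := by
        rw [hφ]; simp only
        rw [pow_add]
        linear_combination (3 ^ i * p + (q - 3 ^ i * p)) * hss
      rw [e2, e3]
      exact hn
    · have hn1' : (1 : ℤ) ≤ n := by exact_mod_cast hn1
      have e2 : (((φ n).toNat : ℕ) : ℤ) ≤ (((3 ^ a + p.natAbs) * n : ℕ) : ℤ) := by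
        rw [e1, hφ]
        push_cast
        have h7 : s * p ≤ |p| := by
          have := le_abs_self (s * p)
          rwa [hsp] at this
        have h9 : |p| ≤ |p| * n := le_mul_of_one_le_right (abs_nonneg _) hn1'
        linarith
      exact_mod_cast e2

theorem Kc_symm {x y : ℤ} (h : x ∈ Kc y) : y ∈ Kc x := by
  obtain ⟨i, j, h⟩ := h
  exact ⟨j, i, h.symm⟩

theorem Cv_mono {A B : Set ℕ} (h : A ⊆ B) {σ : ℝ} (hB : Cv σ B) : Cv σ A := conv_mono h hB

/-- convergence for two forms -/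
theorem Sp_conv {s : ℤ} (hs : s = 1 ∨ s = -1) {S : Set ℤ} (hS : Inv 1 S) (a : ℕ) (p : ℤ) (b : ℕ) (q : ℤ)
    {σ : ℝ} (hσ : 1 / 2 < σ) : Cv σ (Sp s S a p b q) := by
  rcases le_total a b with hab | hab
  · obtain ⟨i, rfl⟩ := Nat.exists_eq_add_of_le hab
    refine Cv_mono ?_ (pr_conv hs a i p q hσ)
    rintro n ⟨h1, h2, h3⟩
    refine ⟨h1, fun h4 => h3 ?_⟩
    exact (inv_Kc (fun x => hS x) h4).1 h2
  · obtain ⟨i, rfl⟩ := Nat.exists_eq_add_of_le hab
    refine Cv_mono ?_ (pr_conv hs b i q p hσ)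
    rintro n ⟨h1, h2, h3⟩
    refine ⟨h1, fun h4 => h3 ?_⟩
    exact (inv_Kc (fun x => hS x) h4).2 h2

/-- THE LAW FOR TWO FORMS. -/
theorem Sp_law {s : ℤ} (hs : s = 1 ∨ s = -1) {S : Set ℤ} (hS : Inv 1 S) (h1 : ∃ x ∈ S, 0 < s * x)
    (h2 : ∃ x ∉ S, 0 < s * x) {a : ℕ} {p : ℤ} {b : ℕ} {q : ℤ} (hab : (a, p) ≠ (b, q)) (σ : ℝ) :
    Cv σ (Sp s S a p b q) ↔ 1 / 2 < σ := by
  constructor
  · intro h
    by_contra hcon
    exact Sp_div hs hS h1 h2 hab (conv_exp (not_lt.1 hcon) h)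
  · exact fun h => Sp_conv hs hS a p b q h

end Pool.Agent.KS6_32.CL
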