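import Pool.Agent.KS6_32.CL.Two
import Pool.Agent.KS6_32.CL.Iso2

/-! Patterns of invariant sets: the words of length at most `8`, and isolated integers. -/

set_option autoImplicit false

namespace Pool.Agent.KS6_32.CL

open Finset Filter Topology
open Pool.Agent.H499R2.ND (Td Inv)

/-! ### Evaluation -/

/-- the number of odd terms and the value after `t` steps -/
def rn : ℕ → ℤ → ℕ × ℤ
  | 0, x => (0, x)
  | t + 1, x => ((if x % 2 = 0 then 0 else 1) + (rn t (if x % 2 = 0 then x / 2 else (3 * x + 1) / 2)).1,
      (rn t (if x % 2 = 0 then x / 2 else (3 * x + 1) / 2)).2)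

theorem rn_eq (t : ℕ) : ∀ x : ℤ, rn t x = (od t x, (Td 1)^[t] x) := by
  induction t with
  | zero => intro x; rfl
  | succ t ih =>
    intro x
    have e : (if x % 2 = 0 then x / 2 else (3 * x + 1) / 2) = Td 1 x := rfl
    simp only [rn, e, ih, od, Function.iterate_succ_apply]

theorem rn_aff {t : ℕ} {x : ℤ} {z : ℕ × ℤ} (h : rn t x = z) (y : ℤ) : (Td 1)^[t] (2 ^ t * y + x) = 3 ^ z.1 * y + z.2 := by
  rw [rn_eq] at h
  rw [add_comm, Td_aff, ← h]
  ring

/-- the same with sharing, for the kernel -/
def rs : ℕ → ℕ → ℤ → ℕ × ℤ
  | 0, a, x => (a, x)
  | t + 1, a, x => match x % 2 with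
    | Int.ofNat 0 => rs t a (x / 2)
    | _ => rs t (a + 1) ((3 * x + 1) / 2)

theorem rs_eq (t : ℕ) : ∀ (a : ℕ) (x : ℤ), rs t a x = (a + od t x, (Td 1)^[t] x) := by
  induction t with
  | zero => intro a x; rfl
  | succ t ih =>
    intro a x
    rcases Int.emod_two_eq_zero_or_one x with h | h
    · have e : Td 1 x = x / 2 := by unfold Td; rw [if_pos h]
      simp only [rs, h, od, Function.iterate_succ_apply]
      show rs t a (x / 2) = _
      rw [ih, e]; simp
    · have e : Td 1 x = (3 * x + 1) / 2 := by unfold Td; rw [if_neg (by omega)]
      simp only [rs, h, od, Function.iterate_succ_apply]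
      show rs t (a + 1) ((3 * x + 1) / 2) = _
      rw [ih, e]; simp [add_assoc, add_comm]

theorem rs_aff {t : ℕ} {x : ℤ} {z : ℕ × ℤ} (h : rs t 0 x = z) (y : ℤ) : (Td 1)^[t] (2 ^ t * y + x) = 3 ^ z.1 * y + z.2 := by
  rw [rs_eq] at h
  rw [add_comm, Td_aff, ← h]
  simp only [zero_add]
  ring

/-! ### Two forms and patterns -/

/-- the positions of the pattern `w` in `S` on the side `s` -/
def Ps (s : ℤ) (S : Set ℤ) (w : List Bool) : Set ℕ :=
  {n : ℕ | 1 ≤ n ∧ ∀ (i : ℕ) (h : i < w.length), w[i] = true ↔ s * n + i ∈ S}

/-- transfer of a pattern with two forms -/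
theorem two_div {s : ℤ} (hs : s = 1 ∨ s = -1) {S : Set ℤ} (hS : Inv 1 S) (h1 : ∃ x ∈ S, 0 < s * x)
    (h2 : ∃ x ∉ S, 0 < s * x) {T : ℕ} {R : ℤ} {A : ℕ} {P : ℤ} {B : ℕ} {Q : ℤ} (hne : (A, P) ≠ (B, Q))
    {X : Set ℕ} (hX : ∀ n : ℕ, 1 ≤ n → ∀ y : ℤ, s * n = 2 ^ T * y + R → 3 ^ A * y + P ∈ S → 3 ^ B * y + Q ∉ S → n ∈ X) :
    ¬ Cv (1 / 2) X := by
  intro hC
  have hss : s * s = 1 := by rcases hs with rfl | rfl <;> norm_num
  have hsr : |s * R| = |R| := by rcases hs with rfl | rfl <;> simp
  have h2T : (0 : ℤ) < 2 ^ T := by positivity
  have h1T : (1 : ℤ) ≤ 2 ^ T := one_le_pow₀ (by norm_num)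
  have hlow := neg_abs_le (s * R)
  have hupp := le_abs_self (s * R)
  rw [hsr] at hlow hupp
  have hbig : ∀ n : ℕ, 2 + R.natAbs ≤ n → 2 ≤ 2 ^ T * (n : ℤ) + s * R := by
    intro n hn
    have h5 : (n : ℤ) ≤ 2 ^ T * n := le_mul_of_one_le_left (by positivity) h1T
    have h7 : (R.natAbs : ℤ) = |R| := Int.natCast_natAbs R
    have h8 : 2 + (R.natAbs : ℤ) ≤ n := by exact_mod_cast hn
    linarith
  refine Sp_div hs hS h1 h2 hne ?_
  refine Cv_map (σ := 1 / 2) (by norm_num) (fun n => (2 ^ T * (n : ℤ) + s * R).toNat) (2 ^ T + R.natAbs) (2 + R.natAbs)
    ?_ ?_ hC
  · intro n _ hN n₂ _ hN₂ heq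
    have g1 := hbig n hN
    have g2 := hbig n₂ hN₂
    have e1 : 2 ^ T * (n : ℤ) + s * R = 2 ^ T * (n₂ : ℤ) + s * R := by omega
    have e2 : (2 : ℤ) ^ T * n = 2 ^ T * n₂ := by linarith
    have e3 := mul_left_cancel₀ h2T.ne' e2
    exact_mod_cast e3
  · rintro n ⟨hn1, hnA, hnB⟩ hN
    have g1 := hbig n hN
    have e1 : (((2 ^ T * (n : ℤ) + s * R).toNat : ℕ) : ℤ) = 2 ^ T * (n : ℤ) + s * R := by omega
    refine ⟨?_, by omega, ?_⟩
    · apply hX _ (by omega) (s * n) _ hnA hnB
      rw [e1]
      linear_combination R * hss
    · have hn1' : (1 : ℤ) ≤ n := by exact_mod_cast hn1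
      have e2 : (((2 ^ T * (n : ℤ) + s * R).toNat : ℕ) : ℤ) ≤ (((2 ^ T + R.natAbs) * n : ℕ) : ℤ) := by
        rw [e1]
        push_cast
        have h9 : |R| ≤ |R| * n := le_mul_of_one_le_right (abs_nonneg _) hn1'
        linarith
      exact_mod_cast e2

/-- certificates: the pattern, the number of steps, the residue, the two forms -/
abbrev Ct := List Bool × ℕ × ℤ × (ℕ × ℤ) × (ℕ × ℤ)

/-- the certificate is correct -/
def okc (c : Ct) : Bool :=
  (c.2.2.2.1 != c.2.2.2.2) && (List.range c.1.length).all fun i =>
    rs c.2.1 0 (c.2.2.1 + i) == if c.1.getD i false then c.2.2.2.1 else c.2.2.2.2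

def certs : List Ct := [
    ([false, false, false, false, false, false, false, true], 13, 3988, (7, 1067), (5, 119)),
    ([false, false, false, false, false, false, true, false], 13, 6721, (8, 5390), (5, 200)),
    ([false, false, false, false, false, false, true, true], 11, 944, (5, 113), (4, 38)),
    ([false, false, false, false, false, true, false, false], 13, 7796, (8, 6250), (6, 695)),
    ([false, false, false, false, false, true, false, true], 14, 4724, (7, 632), (6, 211)),
    ([false, false, false, false, false, true, true, false], 11, 945, (5, 113), (4, 38)),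
    ([false, false, false, false, false, true, true, true], 15, 7025, (7, 470), (6, 157)),
    ([false, false, false, false, true, false, false, false], 16, 5975, (10, 5390), (7, 200)),
    ([false, false, false, false, true, false, false, true], 16, 26229, (8, 2627), (9, 7883)),
    ([false, false, false, false, true, false, true, false], 15, 4675, (8, 938), (7, 314)),
    ([false, false, false, false, true, false, true, true], 17, 129756, (8, 6500), (9, 19487)),
    ([false, false, false, false, true, true, false, false], 12, 3506, (7, 1876), (5, 209)),
    ([false, false, false, false, true, true, false, true], 13, 7090, (6, 632), (5, 211)),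
    ([false, false, false, false, true, true, true, false], 18, 122354, (9, 9188), (10, 27566)),
    ([false, false, false, false, true, true, true, true], 12, 2988, (5, 179), (6, 533)),
    ([false, false, false, true, false, false, false, false], 13, 5976, (8, 4790), (6, 533)),
    ([false, false, false, true, false, false, false, true], 16, 63565, (7, 2126), (8, 6365)),
    ([false, false, false, true, false, false, true, true], 14, 3288, (7, 440), (8, 1322)),
    ([false, false, false, true, false, true, false, false], 14, 3076, (8, 1235), (5, 46)),
    ([false, false, false, true, false, true, false, true], 15, 21188, (7, 1415), (7, 1417)),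
    ([false, false, false, true, false, true, true, false], 22, 3799965, (7, 1982), (10, 53498)),
    ([false, false, false, true, false, true, true, true], 19, 74589, (8, 934), (9, 2801)),
    ([false, false, false, true, true, false, false, false], 12, 3507, (7, 1876), (5, 209)),
    ([false, false, false, true, true, false, false, true], 12, 2449, (4, 49), (5, 146)),
    ([false, false, false, true, true, false, true, false], 13, 7091, (6, 632), (5, 211)),
    ([false, false, false, true, true, false, true, true], 20, 499275, (10, 28117), (8, 3125)),
    ([false, false, false, true, true, true, false, false], 17, 51982, (8, 2603), (6, 290)),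
    ([false, false, false, true, true, true, false, true], 12, 1217, (5, 74), (6, 218)),
    ([false, false, false, true, true, true, true, false], 18, 57348, (7, 479), (8, 1436)),
    ([false, false, false, true, true, true, true, true], 11, 1169, (4, 47), (6, 418)),
    ([false, false, true, false, false, false, false, false], 14, 837, (9, 1010), (6, 38)),
    ([false, false, true, false, false, false, false, true], 18, 205143, (9, 15404), (7, 1712)),
    ([false, false, true, false, false, false, true, false], 19, 39109, (9, 1469), (8, 490)),
    ([false, false, true, false, false, false, true, true], 14, 3470, (5, 53), (6, 155)),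
    ([false, false, true, false, false, true, true, false], 17, 45577, (8, 2282), (6, 254)),
    ([false, false, true, false, false, true, true, true], 16, 26231, (8, 2627), (9, 7883)),
    ([false, false, true, false, true, false, false, false], 14, 3077, (8, 1235), (5, 46)),
    ([false, false, true, false, true, false, false, true], 17, 51543, (9, 7742), (8, 2582)),
    ([false, false, true, false, true, false, true, false], 15, 21189, (7, 1415), (7, 1417)),
    ([false, false, true, false, true, false, true, true], 14, 342, (6, 17), (7, 47)),
    ([false, false, true, false, true, true, false, false], 20, 162710, (8, 1019), (10, 9164)),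
    ([false, false, true, false, true, true, true, false], 21, 948525, (9, 8903), (8, 2969)),
    ([false, false, true, false, true, true, true, true], 16, 24374, (7, 814), (8, 2441)),
    ([false, false, true, true, false, false, false, false], 14, 6160, (8, 2470), (5, 92)),
    ([false, false, true, true, false, false, false, true], 17, 85428, (8, 4277), (7, 1426)),
    ([false, false, true, true, false, false, true, false], 12, 2450, (4, 49), (5, 146)),
    ([false, false, true, true, false, false, true, true], 11, 1904, (5, 227), (4, 76)),
    ([false, false, true, true, false, true, false, false], 16, 48732, (8, 4880), (5, 181)),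
    ([false, false, true, true, false, true, false, true], 13, 7092, (6, 632), (5, 211)),
    ([false, false, true, true, false, true, true, false], 26, 38333477, (13, 910703), (13, 910700)),
    ([false, false, true, true, false, true, true, true], 14, 3468, (6, 155), (5, 53)),
    ([false, false, true, true, true, false, false, false], 17, 51980, (6, 290), (8, 2603)),
    ([false, false, true, true, true, false, false, true], 16, 25986, (8, 2603), (6, 290)),
    ([false, false, true, true, true, false, true, false], 14, 3074, (5, 46), (8, 1235)),
    ([false, false, true, true, true, false, true, true], 14, 4290, (5, 64), (8, 1721)),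
    ([false, false, true, true, true, true, false, false], 19, 113906, (8, 1426), (9, 4277)),
    ([false, false, true, true, true, true, false, true], 17, 105506, (10, 47537), (8, 5285)),
    ([false, false, true, true, true, true, true, false], 16, 62610, (6, 697), (7, 2090)),
    ([false, false, true, true, true, true, true, true], 12, 2990, (5, 179), (6, 533)),
    ([false, true, false, false, false, false, false, false], 14, 7982, (7, 1066), (5, 119)),
    ([false, true, false, false, false, false, false, true], 17, 37472, (9, 5629), (6, 209)),
    ([false, true, false, false, false, false, true, false], 15, 6218, (5, 47), (7, 416)),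
    ([false, true, false, false, false, false, true, true], 13, 4936, (6, 440), (7, 1322)),
    ([false, true, false, false, false, true, false, false], 14, 7978, (7, 1066), (5, 119)),
    ([false, true, false, false, false, true, false, true], 21, 948522, (9, 8903), (8, 2969)),
    ([false, true, false, false, false, true, true, false], 16, 42383, (7, 1417), (7, 1415)),
    ([false, true, false, false, false, true, true, true], 15, 17551, (7, 1174), (7, 1172)),
    ([false, true, false, false, true, true, false, false], 13, 4618, (7, 1235), (4, 46)),
    ([false, true, false, false, true, true, false, true], 18, 40330, (8, 1010), (5, 38)),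
    ([false, true, false, false, true, true, true, false], 17, 86026, (6, 479), (7, 1436)),
    ([false, true, false, false, true, true, true, true], 17, 117792, (8, 5897), (6, 656)),
    ([false, true, false, true, false, false, false, false], 14, 3078, (8, 1235), (5, 46)),
    ([false, true, false, true, false, false, false, true], 15, 7976, (7, 533), (6, 179)),
    ([false, true, false, true, false, false, true, true], 15, 1080, (8, 218), (7, 74)),
    ([false, true, false, true, false, true, false, false], 15, 21190, (7, 1415), (7, 1417)),
    ([false, true, false, true, false, true, true, false], 16, 24583, (6, 274), (7, 821)),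
    ([false, true, false, true, false, true, true, true], 16, 27159, (7, 908), (8, 2720)),
    ([false, true, false, true, true, false, false, false], 20, 162711, (8, 1019), (10, 9164)),
    ([false, true, false, true, true, false, false, true], 16, 52745, (8, 5285), (8, 5282)),
    ([false, true, false, true, true, true, false, false], 21, 948526, (9, 8903), (8, 2969)),
    ([false, true, false, true, true, true, false, true], 15, 7977, (6, 179), (7, 533)),
    ([false, true, false, true, true, true, true, false], 19, 482103, (12, 488693), (10, 54299)),
    ([false, true, false, true, true, true, true, true], 15, 4103, (6, 92), (8, 823)),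
    ([false, true, true, false, false, false, false, false], 14, 6161, (8, 2470), (5, 92)),
    ([false, true, true, false, false, false, false, true], 17, 52465, (8, 2627), (9, 7883)),
    ([false, true, true, false, false, false, true, false], 16, 17089, (8, 1712), (6, 191)),
    ([false, true, true, false, false, false, true, true], 17, 85429, (8, 4277), (7, 1426)),
    ([false, true, true, false, false, true, false, false], 18, 40331, (5, 38), (8, 1010)),
    ([false, true, true, false, false, true, false, true], 12, 2451, (4, 49), (5, 146)),
    ([false, true, true, false, false, true, true, false], 15, 6157, (8, 1235), (5, 46)),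
    ([false, true, true, false, false, true, true, true], 15, 6159, (5, 46), (8, 1235)),
    ([false, true, true, false, true, false, false, false], 16, 48733, (8, 4880), (5, 181)),
    ([false, true, true, false, true, false, false, true], 20, 162709, (10, 9164), (8, 1019)),
    ([false, true, true, false, true, false, true, false], 16, 27157, (8, 2720), (7, 908)),
    ([false, true, true, false, true, false, true, true], 16, 25990, (6, 290), (8, 2603)),
    ([false, true, true, false, true, true, false, false], 26, 38333478, (13, 910703), (13, 910700)),
    ([false, true, true, false, true, true, true, false], 14, 3469, (6, 155), (5, 53)),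
    ([false, true, true, false, true, true, true, true], 23, 315997, (10, 2225), (7, 83)),
    ([false, true, true, true, false, false, false, false], 11, 1168, (6, 418), (4, 47)),
    ([false, true, true, true, false, false, false, true], 16, 32192, (8, 3224), (7, 1079)),
    ([false, true, true, true, false, false, true, false], 16, 25987, (8, 2603), (6, 290)),
    ([false, true, true, true, false, false, true, true], 12, 2448, (5, 146), (4, 49)),
    ([false, true, true, true, false, true, false, false], 21, 948523, (8, 2969), (9, 8903)),
    ([false, true, true, true, false, true, false, true], 14, 3075, (5, 46), (8, 1235)),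
    ([false, true, true, true, false, true, true, false], 18, 159191, (8, 3986), (9, 11954)),
    ([false, true, true, true, false, true, true, true], 14, 7979, (5, 119), (7, 1066)),
    ([false, true, true, true, true, false, false, false], 19, 113907, (8, 1426), (9, 4277)),
    ([false, true, true, true, true, false, false, true], 18, 91153, (6, 254), (8, 2282)),
    ([false, true, true, true, true, false, true, false], 17, 105507, (10, 47537), (8, 5285)),
    ([false, true, true, true, true, false, true, true], 18, 57350, (7, 479), (8, 1436)),
    ([false, true, true, true, true, true, false, false], 16, 55658, (8, 5573), (7, 1862)),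
    ([false, true, true, true, true, true, false, true], 16, 62611, (6, 697), (7, 2090)),
    ([false, true, true, true, true, true, true, false], 14, 9135, (5, 136), (6, 407)),
    ([false, true, true, true, true, true, true, true], 13, 3987, (5, 119), (7, 1066)),
    ([false, false, false, false, false, false, false, false], 15, 1680, (0, 0), (6, 38))]

theorem certs_ok : certs.all okc = true := by decide +kernel

theorem cert_two {c : Ct} (hc : okc c = true) : c.2.2.2.1 ≠ c.2.2.2.2 ∧ ∀ (i : ℕ) (h : i < c.1.length) (y : ℤ),
    (Td 1)^[c.2.1] (2 ^ c.2.1 * y + c.2.2.1 + i) = if c.1[i] = true then 3 ^ c.2.2.2.1.1 * y + c.2.2.2.1.2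
      else 3 ^ c.2.2.2.2.1 * y + c.2.2.2.2.2 := by
  unfold okc at hc
  rw [Bool.and_eq_true, List.all_eq_true] at hc
  obtain ⟨h1, h2⟩ := hc
  refine ⟨by simpa using h1, ?_⟩
  intro i hi y
  have h3 := h2 i (List.mem_range.2 hi)
  rw [beq_iff_eq] at h3
  have e : c.1.getD i false = c.1[i] := by
    rw [List.getD_eq_getElem?_getD, List.getElem?_eq_getElem hi]; rfl
  rw [e] at h3
  have h4 := rs_aff h3 y
  rw [add_assoc, h4]
  split_ifs <;> rfl

theorem inv_T {S : Set ℤ} (hS : Inv 1 S) (t : ℕ) (x : ℤ) : x ∈ S ↔ (Td 1)^[t] x ∈ S := inv_iter hS t x

/-- every pattern with a certificate occurs often, and so does its complement -/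
theorem cert_div {s : ℤ} (hs : s = 1 ∨ s = -1) {S : Set ℤ} (hS : Inv 1 S) (h1 : ∃ x ∈ S, 0 < s * x)
    (h2 : ∃ x ∉ S, 0 < s * x) {c : Ct} (hc : okc c = true) : ¬ Cv (1 / 2) (Ps s S c.1) := by
  obtain ⟨hne, hf⟩ := cert_two hc
  refine two_div hs hS h1 h2 (T := c.2.1) (R := c.2.2.1) (A := c.2.2.2.1.1) (P := c.2.2.2.1.2) (B := c.2.2.2.2.1)
    (Q := c.2.2.2.2.2) hne ?_
  intro n hn y hy hA hB
  refine ⟨hn, fun i hi => ?_⟩
  rw [inv_T hS c.2.1, hy, hf i hi y]
  by_cases hb : c.1[i] = true
  · rw [if_pos hb]; simp [hb, hA]
  · rw [if_neg hb]; simp [hb, hB]

theorem Ps_compl (s : ℤ) (S : Set ℤ) (w : List Bool) : Ps s Sᶜ w = Ps s S (w.map not) := by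
  ext n
  unfold Ps
  simp only [Set.mem_ofPred_eq, List.length_map, List.getElem_map, Set.mem_compl_iff]
  apply and_congr_right
  intro _
  constructor
  · intro h i hi
    have := h i hi
    cases hw : w[i] <;> simp_all
  · intro h i hi
    have := h i hi
    cases hw : w[i] <;> simp_all

/-! ### The words of length at most `8` -/

/-- the minimal words of length at most `8` which do not occur -/
def Forb : List (List Bool) :=
  [[false, true, false, false, true, false], [true, false, true, true, false, true],
   [false, true, false, true, false, true, false, true], [true, false, true, false, true, false, true, false]]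

/-- all words of length `n` -/
def wds : ℕ → List (List Bool)
  | 0 => [[]]
  | n + 1 => (wds n).map (false :: ·) ++ (wds n).map (true :: ·)

theorem mem_wds : ∀ w : List Bool, w ∈ wds w.length := by
  intro w
  induction w with
  | nil => simp [wds]
  | cons b w ih =>
    rw [List.length_cons, wds, List.mem_append]
    cases b
    · left; exact List.mem_map.2 ⟨w, ih, rfl⟩
    · right; exact List.mem_map.2 ⟨w, ih, rfl⟩

/-- the word has no forbidden factor -/
def av8 (w : List Bool) : Bool := Forb.all fun f => ! (w.tails.any fun u => f.isPrefixOf u)

theorem av8_iff (w : List Bool) : av8 w = true ↔ ∀ f ∈ Forb, ¬ f <:+: w := by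
  unfold av8
  rw [List.all_eq_true]
  apply forall₂_congr
  intro f _
  rw [Bool.not_eq_true', ← Bool.not_eq_true]
  apply not_congr
  rw [List.any_eq_true]
  constructor
  · rintro ⟨u, hu, h⟩
    rw [List.mem_tails] at hu
    rw [List.isPrefixOf_iff_prefix] at h
    exact h.isInfix.trans hu.isInfix
  · intro h
    rw [List.infix_iff_prefix_suffix] at h
    obtain ⟨u, h3, h4⟩ := h
    exact ⟨u, (List.mem_tails _ _).2 h4, List.isPrefixOf_iff_prefix.2 h3⟩

theorem words8 : ((wds 8).all fun w => ! av8 w || certs.any (fun c => c.1 == w || c.1 == w.map not)) = true := by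
  decide +kernel

theorem ext8 : ((List.range 8).all fun n => (wds n).all fun w => ! av8 w || (wds (8 - n)).any fun v => av8 (w ++ v)) = true := by
  decide +kernel

theorem Ps_prefix (s : ℤ) (S : Set ℤ) (w v : List Bool) : Ps s S (w ++ v) ⊆ Ps s S w := by
  rintro n ⟨hn, h⟩
  refine ⟨hn, fun i hi => ?_⟩
  have := h i (by rw [List.length_append]; omega)
  rwa [List.getElem_append_left hi] at this

/-- ALL OTHER WORDS OCCUR. -/
theorem word_div {s : ℤ} (hs : s = 1 ∨ s = -1) {S : Set ℤ} (hS : Inv 1 S) (h1 : ∃ x ∈ S, 0 < s * x)
    (h2 : ∃ x ∉ S, 0 < s * x) {w : List Bool} (hw : w.length ≤ 8) (hav : ∀ f ∈ Forb, ¬ f <:+: w) :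
    ¬ Cv (1 / 2) (Ps s S w) := by
  have key : ∀ w : List Bool, w.length = 8 → av8 w = true → ¬ Cv (1 / 2) (Ps s S w) := by
    intro w hw hav
    have h := words8
    rw [List.all_eq_true] at h
    have h3 := h w (by rw [← hw]; exact mem_wds w)
    rw [hav] at h3
    simp only [Bool.not_true, Bool.false_or, List.any_eq_true, Bool.or_eq_true, beq_iff_eq] at h3
    obtain ⟨c, hc, h4⟩ := h3
    have hok := (List.all_eq_true.1 certs_ok) c hc
    rcases h4 with h4 | h4
    · rw [← h4]; exact cert_div hs hS h1 h2 hok
    · have h5 := cert_div (S := Sᶜ) hs hS.compl (by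
        obtain ⟨x, hx, hx0⟩ := h2
        exact ⟨x, hx, hx0⟩) (by
        obtain ⟨x, hx, hx0⟩ := h1
        exact ⟨x, fun h => h hx, hx0⟩) hok
      rw [Ps_compl, h4, List.map_map] at h5
      have e : (not ∘ not) = (id : Bool → Bool) := by funext b; simp
      rwa [e, List.map_id] at h5
  rw [← av8_iff] at hav
  rcases Nat.lt_or_ge w.length 8 with hlt | hge
  · have h := ext8
    rw [List.all_eq_true] at h
    have h3 := h w.length (List.mem_range.2 hlt)
    rw [List.all_eq_true] at h3
    have h4 := h3 w (mem_wds w)
    rw [hav] at h4
    simp only [Bool.not_true, Bool.false_or, List.any_eq_true] at h4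
    obtain ⟨v, hv, h5⟩ := h4
    intro hcv
    apply key (w ++ v) _ h5 (Cv_mono (Ps_prefix s S w v) hcv)
    have : ∀ n, ∀ v ∈ wds n, v.length = n := by
      intro n
      induction n with
      | zero => intro v hv; simp [wds] at hv; rw [hv]; rfl
      | succ n ih =>
        intro v hv
        rw [wds, List.mem_append, List.mem_map, List.mem_map] at hv
        rcases hv with ⟨u, hu, rfl⟩ | ⟨u, hu, rfl⟩ <;> simp [ih u hu]
    rw [List.length_append, this _ v hv]
    omega
  · exact key w (le_antisymm hw hge) hav

end Pool.Agent.KS6_32.CL
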